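import Pool.Agent.H204.AS.Fam

open MeasureTheory Set Filter Topology
open scoped ENNReal NNReal ComplexConjugate

namespace Pool.Agent.H204.AS

open Pool.Agent.H521 Pool.Agent.H521.G Pool.Agent.H204.SI

/-! ### The concrete scales `log x ^ a` and `x ^ t` -/

theorem log_rpow_over_rpow (a t : ℝ) (ht : 0 < t) :
    Tendsto (fun x : ℝ => Real.log x ^ a / x ^ t) atTop (𝓝 0) :=
  (isLittleO_log_rpow_rpow_atTop a ht).tendsto_div_nhds_zero

theorem sc_log {a : ℝ} (ha : 1 < a) : Sc (fun x => Real.log x ^ a) := by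
  refine ⟨?_, ?_, 2 ^ a, ?_⟩
  · have h1 : Tendsto (fun x : ℝ => Real.log x ^ (a - 1)) atTop atTop :=
      (tendsto_rpow_atTop (by linarith)).comp Real.tendsto_log_atTop
    refine h1.congr' ?_
    filter_upwards [Real.tendsto_log_atTop.eventually_gt_atTop 0] with x hx
    rw [Real.rpow_sub hx, Real.rpow_one]
  · intro ε hε
    filter_upwards [(log_rpow_over_rpow a (1 / 2 + ε) (by linarith)).eventually_lt_const one_pos,
      eventually_gt_atTop 0] with x hx hx0
    rw [div_lt_one (by positivity)] at hx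
    exact hx.le
  · filter_upwards [eventually_ge_atTop 2] with x hx y hy1 hy2
    have hlx : 0 < Real.log x := Real.log_pos (by linarith)
    have hxy : Real.log x ≤ Real.log y := Real.log_le_log (by linarith) hy1
    have hy : Real.log y ≤ 2 * Real.log x := by
      have h1 : Real.log y ≤ Real.log (2 * x) := Real.log_le_log (by linarith) hy2
      rw [Real.log_mul (by norm_num) (by linarith)] at h1
      have h2 : Real.log 2 ≤ Real.log x := Real.log_le_log (by norm_num) hx
      linarith
    have h2a : (1 : ℝ) ≤ 2 ^ a := Real.one_le_rpow (by norm_num) (by linarith)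
    constructor
    · rw [← Real.mul_rpow (by norm_num) hlx.le]
      exact Real.rpow_le_rpow (by linarith) hy (by linarith)
    · have h1 : Real.log x ^ a ≤ Real.log y ^ a := Real.rpow_le_rpow hlx.le hxy (by linarith)
      have h2 : 0 ≤ Real.log y ^ a := Real.rpow_nonneg (by linarith) _
      nlinarith

theorem sc_pow {t : ℝ} (ht : 0 < t) (ht2 : t ≤ 1 / 2) : Sc (fun x => x ^ t) := by
  refine ⟨?_, ?_, 2 ^ t, ?_⟩
  · have h1 := log_rpow_over_rpow 1 t ht
    have h2 : Tendsto (fun x : ℝ => (Real.log x ^ (1 : ℝ) / x ^ t)⁻¹) atTop atTop := by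
      apply tendsto_inv_nhdsGT_zero.comp
      rw [tendsto_nhdsWithin_iff]
      refine ⟨h1, ?_⟩
      filter_upwards [eventually_gt_atTop 1] with x hx
      have := Real.log_pos hx
      exact mem_Ioi.2 (by positivity)
    refine h2.congr' ?_
    filter_upwards with x
    rw [Real.rpow_one, inv_div]
  · intro ε hε
    filter_upwards [eventually_ge_atTop 1] with x hx
    exact Real.rpow_le_rpow_of_exponent_le hx (by linarith)
  · filter_upwards [eventually_ge_atTop 1] with x hx y hy1 hy2
    have h2a : (1 : ℝ) ≤ 2 ^ t := Real.one_le_rpow (by norm_num) ht.le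
    constructor
    · rw [← Real.mul_rpow (by norm_num) (by linarith)]
      exact Real.rpow_le_rpow (by linarith) hy2 ht.le
    · have h1 : x ^ t ≤ y ^ t := Real.rpow_le_rpow (by linarith) hy1 ht.le
      have h2 : 0 ≤ y ^ t := Real.rpow_nonneg (by linarith) _
      nlinarith

theorem reg_log {b : ℝ} (hb : 1 < b) : Reg (fun x => Real.log x ^ b) := by
  intro ε hε
  have h0 : Tendsto (fun x : ℝ => (Real.log x / Real.log (2 * x))⁻¹ ^ b) atTop (𝓝 (1⁻¹ ^ b)) :=
    ((log_two_ratio.inv₀ one_ne_zero).rpow_const (Or.inr (by linarith)))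
  rw [inv_one, Real.one_rpow] at h0
  filter_upwards [h0.eventually_lt_const (by linarith : (1 : ℝ) < 1 + ε), (sc_log hb).le_self,
    eventually_ge_atTop 2] with x hx hx1 hx2 y hy1 hy2
  have hlx : 0 < Real.log x := Real.log_pos (by linarith)
  have hxy : Real.log x ≤ Real.log y := Real.log_le_log (by linarith) hy1
  have h1 : Real.log y ≤ Real.log (2 * x) := Real.log_le_log (by linarith) (by linarith)
  have h2 : Real.log x ^ b ≤ Real.log y ^ b := Real.rpow_le_rpow hlx.le hxy (by linarith)
  have h3 : Real.log y ^ b ≤ Real.log (2 * x) ^ b :=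
    Real.rpow_le_rpow (by linarith) h1 (by linarith)
  have h4 : Real.log (2 * x) ^ b ≤ (1 + ε) * Real.log x ^ b := by
    rw [inv_div, Real.div_rpow (by linarith) hlx.le] at hx
    have := (div_lt_iff₀ (Real.rpow_pos_of_pos hlx b)).1 hx
    exact this.le
  rw [abs_le]
  have h5 : 0 ≤ Real.log x ^ b := Real.rpow_nonneg hlx.le _
  constructor <;> nlinarith

theorem log_over_log {a b : ℝ} (hab : a < b) :
    Tendsto (fun x : ℝ => Real.log x ^ a / Real.log x ^ b) atTop (𝓝 0) := by
  have h1 : Tendsto (fun x : ℝ => Real.log x ^ (-(b - a))) atTop (𝓝 0) :=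
    (tendsto_rpow_neg_atTop (by linarith)).comp Real.tendsto_log_atTop
  refine h1.congr' ?_
  filter_upwards [Real.tendsto_log_atTop.eventually_gt_atTop 0] with x hx
  rw [← Real.rpow_sub hx]
  ring_nf

theorem pow_over_pow {a b : ℝ} (hab : a < b) :
    Tendsto (fun x : ℝ => x ^ a / x ^ b) atTop (𝓝 0) := by
  have h1 : Tendsto (fun x : ℝ => x ^ (-(b - a))) atTop (𝓝 0) :=
    tendsto_rpow_neg_atTop (by linarith)
  refine h1.congr' ?_
  filter_upwards [eventually_gt_atTop 0] with x hx
  rw [← Real.rpow_sub hx]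
  ring_nf

/-- The scales `log x ^ a` (`a = -1/t`, `-1 < t < 0`) and `x ^ t` (`0 < t ≤ 1/2`) in one chain. -/
noncomputable def mix (t x : ℝ) : ℝ := if t < 0 then Real.log x ^ (-1 / t) else x ^ t

def mixI (b : ℝ) : Set ℝ := {t | (-1 < t ∧ t < 0 ∧ -1 / t ≠ b) ∨ (0 < t ∧ t ≤ 1 / 2)}

theorem one_lt_inv {t : ℝ} (h1 : -1 < t) (h2 : t < 0) : 1 < -1 / t := by
  rw [lt_div_iff_of_neg h2]; linarith

theorem inv_lt {s t : ℝ} (h1 : s < t) (h2 : t < 0) : -1 / s < -1 / t := by
  have e : ∀ u : ℝ, -1 / u = 1 / (-u) := fun u => by rw [div_neg, neg_div]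
  rw [e, e]
  exact one_div_lt_one_div_of_lt (by linarith) (by linarith)

theorem fam_mix {b : ℝ} (hb : 1 < b) : Fam (mixI b) mix (fun x => Real.log x ^ b) where
  sc := by
    rintro t (⟨h1, h2, h3⟩ | ⟨h1, h2⟩)
    · have e : mix t = fun x => Real.log x ^ (-1 / t) := by
        funext x; unfold mix; rw [if_pos h2]
      rw [e]
      exact sc_log (one_lt_inv h1 h2)
    · have e : mix t = fun x => x ^ t := by
        funext x; unfold mix; rw [if_neg (by linarith)]
      rw [e]
      exact sc_pow h1 h2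
  ord := by
    rintro s hs t ht hst
    unfold mix
    rcases hs with ⟨h1, h2, h3⟩ | ⟨h1, h2⟩
    · rcases ht with ⟨h4, h5, h6⟩ | ⟨h4, h5⟩
      · simp only [if_pos h2, if_pos h5]
        exact log_over_log (inv_lt hst h5)
      · simp only [if_pos h2, if_neg (not_lt.2 h4.le)]
        exact log_rpow_over_rpow _ _ h4
    · rcases ht with ⟨h4, h5, h6⟩ | ⟨h4, h5⟩
      · linarith
      · simp only [if_neg (not_lt.2 h1.le), if_neg (not_lt.2 h4.le)]
        exact pow_over_pow hst
  fsc := sc_log hb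
  freg := reg_log hb
  fcmp := by
    rintro t (⟨h1, h2, h3⟩ | ⟨h1, h2⟩)
    · unfold mix
      simp only [if_pos h2]
      rcases lt_or_gt_of_ne h3 with h | h
      · exact Or.inl (log_over_log h)
      · exact Or.inr (log_over_log h)
    · unfold mix
      simp only [if_neg (not_lt.2 h1.le)]
      exact Or.inr (log_rpow_over_rpow _ _ h1)

end Pool.Agent.H204.AS
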