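import Pool.Agent.H204.AS.Gen

open MeasureTheory Set Filter Topology
open scoped ENNReal NNReal ComplexConjugate

namespace Pool.Agent.H204.AS

open Pool.Agent.H521 Pool.Agent.H521.G Pool.Agent.H204.SI

/-- The points `x` such that for some `H` between `A log x` and `x` the number of primes in
`(x, x + H]` differs from `H / log x` by more than `ε H / log x`. -/
def Exc (p : ℕ → ℝ) (ε A : ℝ) : Set ℝ :=
  {x | 2 ≤ x ∧ ∃ H, A * Real.log x ≤ H ∧ H ≤ x ∧
    ε * (H / Real.log x) < |cnt p x H - H / Real.log x|}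

namespace GC

variable {Z : Multiset ℂ} {x₀ : ℝ} (C : GC Z x₀)

/-- localisation, uniform in the length -/
theorem loc2 : ∀ᶠ x in atTop, ∀ h, 0 < h → h ≤ x → ∃ k, ∃ cc : ℝ,
    |cnt C.p x h - ((Fp (fZ Z) x₀ (x + h) - Fp (fZ Z) x₀ x) +
      (C.ls k - 1) * cc)| ≤ 3 ∧ 0 ≤ cc ∧ cc ≤ C.S.Wd k ∧
    (0 < cc → C.X k ≤ x + h ∧ x ≤ C.X k + C.g k) := by
  filter_upwards [eventually_ge_atTop x₀, eventually_gt_atTop 1] with x hx0 hx1 h hh hxb
  set y := Fp (fZ Z) x₀ x with hy
  set z := Fp (fZ Z) x₀ (x + h) with hz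
  have hy0 : 0 ≤ y := by
    have := C.hR.F_mono le_rfl hx0
    rwa [C.hR.F_zero] at this
  have hyz : y ≤ z := C.hR.F_mono hx0 (by linarith)
  have hex : ∃ k, y < C.S.E k := (C.E_tendsto.eventually_gt_atTop y).exists
  classical
  set k := Nat.find hex with hk
  have hkE : y < C.S.E k := Nat.find_spec hex
  have hmin : ∀ i < k, C.S.E i ≤ y := fun i hi => not_lt.1 (Nat.find_min hex hi)
  have hφy : phi (fZ Z) x₀ y = x := C.hR.phi_F hx0
  have hφz : phi (fZ Z) x₀ z = x + h := C.hR.phi_F (by linarith)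
  have hxk : x < phi (fZ Z) x₀ (C.S.E k) := by
    rw [← hφy]; exact C.hR.phi_lt hy0 hkE
  have hzA : z < C.S.A (k + 1) := by
    by_contra hc
    push Not at hc
    have h1 := C.hR.phi_mono hc
    rw [hφz] at h1
    have h2 := C.h4 k
    linarith
  have hci := C.S.count_incr C.hV hy0 hyz hmin hzA
  refine ⟨k, C.S.cl k z - C.S.cl k y, ?_, ?_, ?_, ?_⟩
  · have e1 : cnt C.p x h = (countPr (fun n => C.S.toW.yk C.V n) z : ℝ) -
        countPr (fun n => C.S.toW.yk C.V n) y := by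
      unfold cnt
      have a1 := countPr_phi C.hR (y := C.S.toW.yk C.V) (fun n => C.S.toW.yk_nonneg C.hV n)
        (x := x + h) (by linarith)
      have a2 := countPr_phi C.hR (y := C.S.toW.yk C.V) (fun n => C.S.toW.yk_nonneg C.hV n)
        (x := x) hx0
      change (countPr C.p (x + h) : ℝ) - _ = _
      have a1' : countPr C.p (x + h) = countPr (C.S.toW.yk C.V) z := a1
      have a2' : countPr C.p x = countPr (C.S.toW.yk C.V) y := a2
      rw [a1', a2']
    rw [e1]
    set cc := C.S.cl k z - C.S.cl k y with hcc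
    have hc0 : 0 ≤ cc := by have := C.S.cl_mono (k := k) hyz; linarith
    have hcW : cc ≤ C.S.Wd k := by
      have := C.S.cl_le k z
      have := C.S.cl_nonneg k y
      linarith
    have h5 := C.lam_le k
    have h6 := C.lam_ge k
    have h7 : 0 ≤ (C.ls k - C.S.lam k) * cc := mul_nonneg (by linarith) hc0
    have h8 : (C.ls k - C.S.lam k) * cc ≤ 1 :=
      (mul_le_mul_of_nonneg_left hcW (by linarith)).trans h6
    have h9 := abs_le.1 hci
    rw [abs_le]
    constructor <;> nlinarith [h9.1, h9.2]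
  · have := C.S.cl_mono (k := k) hyz
    linarith
  · have := C.S.cl_le k z
    have := C.S.cl_nonneg k y
    linarith
  · intro hcc
    have hzA' : C.S.A k < z := by
      by_contra hc
      push Not at hc
      rw [C.S.cl_zero hc] at hcc
      have := C.S.cl_nonneg k y
      linarith
    have h1 : C.X k ≤ x + h := by
      rw [← hφz]; exact C.hR.phi_mono hzA'.le
    have h2 := C.hE k
    change _ = C.X k + C.g k at h2
    constructor <;> linarith

/-- exceptional points are near the windows -/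
theorem exc_sub {ε : ℝ} (hε : 0 < ε) (hε1 : ε ≤ 1) : ∃ x₁ : ℝ, 0 ≤ x₁ ∧ ∀ x, x₁ ≤ x →
    x ∈ Exc C.p ε (12 / ε) → ∃ k, C.X k ≤ 2 * x ∧
      |x - C.X k| ≤ 6 / ε * ((k + 1) * (C.S.Wd k * Real.log (C.X k))) := by
  obtain ⟨K₁, hK₁⟩ := eventually_atTop.1 C.W_ge
  obtain ⟨x₂, hx₂⟩ := eventually_atTop.1
    (C.loc2.and ((transfer C.hZ C.hR (by positivity : 0 < ε / 4))))
  refine ⟨max (max x₂ 2) ((∑ j ∈ Finset.range K₁, (C.X j + C.g j)) + 1),
    le_trans (by norm_num) ((le_max_right x₂ 2).trans (le_max_left _ _)), ?_⟩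
  rintro x hx ⟨hx2, H, hH1, hH2, hH3⟩
  have hxx : x₂ ≤ x := ((le_max_left _ _).trans (le_max_left _ _)).trans hx
  have hxs : (∑ j ∈ Finset.range K₁, (C.X j + C.g j)) + 1 ≤ x := (le_max_right _ _).trans hx
  obtain ⟨hl, ht⟩ := hx₂ x hxx
  have hlx : 0 < Real.log x := Real.log_pos (by linarith)
  have hH0 : 0 < H := lt_of_lt_of_le (by positivity) hH1
  obtain ⟨k, cc, h1, h2, h3, h4⟩ := hl H hH0 hH2
  have h5 := ht.2 (x + H) (by linarith) (by linarith)
  set D := Fp (fZ Z) x₀ (x + H) - Fp (fZ Z) x₀ x with hD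
  set T := H / Real.log x with hT
  have hHT : H = T * Real.log x := by rw [hT]; field_simp
  have hT12 : 12 / ε ≤ T := by rw [hT, le_div_iff₀ hlx]; exact hH1
  have hT0 : 0 < T := lt_of_lt_of_le (by positivity) hT12
  have h6 : |D - T| ≤ ε / 4 * T := by
    have e : x + H - x = H := by ring
    rw [e, hHT] at h5
    have e2 : D * Real.log x - T * Real.log x = (D - T) * Real.log x := by ring
    rw [e2, abs_mul, abs_of_pos hlx, ← mul_assoc] at h5
    exact le_of_mul_le_mul_right h5 hlx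
  have h7 : 3 ≤ ε / 4 * T := by
    rw [div_le_iff₀ hε] at hT12
    linarith
  have h8 : ε / 2 * T < |(C.ls k - 1) * cc| := by
    have a1 : |cnt C.p x H - T| ≤ |cnt C.p x H - (D + (C.ls k - 1) * cc)| +
        (|D - T| + |(C.ls k - 1) * cc|) := by
      have e : cnt C.p x H - T = (cnt C.p x H - (D + (C.ls k - 1) * cc)) +
          ((D - T) + (C.ls k - 1) * cc) := by ring
      rw [e]
      exact (abs_add_le _ _).trans (add_le_add_right (abs_add_le _ _) _)
    linarith
  have hcc : 0 < cc := by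
    rcases eq_or_lt_of_le h2 with h | h
    · rw [← h, mul_zero, abs_zero] at h8
      have : 0 < ε / 2 * T := by positivity
      linarith
    · exact h
  obtain ⟨h9, h10⟩ := h4 hcc
  have hk0 : (0 : ℝ) ≤ k := Nat.cast_nonneg k
  have hls : |C.ls k - 1| ≤ k + 1 := by
    rw [abs_le]
    constructor
    · linarith [C.hls0 k]
    · linarith [C.hls1 k]
  have h11 : ε / 2 * T < (k + 1) * C.S.Wd k := by
    refine lt_of_lt_of_le h8 ?_
    rw [abs_mul, abs_of_pos hcc]
    exact mul_le_mul hls h3 hcc.le (by positivity)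
  have hkK : K₁ ≤ k := by
    by_contra hc
    push Not at hc
    have h12 : C.X k + C.g k ≤ ∑ j ∈ Finset.range K₁, (C.X j + C.g j) :=
      Finset.single_le_sum (f := fun j => C.X j + C.g j)
        (fun j _ => by linarith [C.one_le_X j, C.hg0 j]) (Finset.mem_range.2 hc)
    linarith
  have hlX := C.two_le_logX k
  have hlX0 : 0 < Real.log (C.X k) := by linarith
  have hg : C.g k ≤ 2 * (C.S.Wd k * Real.log (C.X k)) := by
    have h12 := hK₁ k hkK
    rw [mul_div_assoc', div_le_iff₀ hlX0] at h12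
    linarith
  have hg1 : C.g k ≤ C.X k := C.hg1 k
  have hlog : Real.log x ≤ 2 * Real.log (C.X k) := by
    have h12 : Real.log x ≤ Real.log (2 * C.X k) := Real.log_le_log (by linarith) (by linarith)
    rw [Real.log_mul (by norm_num) (by linarith [C.one_le_X k])] at h12
    have h13 : Real.log 2 ≤ 1 := by
      have := Real.log_two_lt_d9
      linarith
    linarith
  have hW : 0 ≤ C.S.Wd k := C.S.W0 k
  have hWl : 0 ≤ C.S.Wd k * Real.log (C.X k) := by positivity
  have hHb : H ≤ 4 / ε * ((k + 1) * (C.S.Wd k * Real.log (C.X k))) := by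
    have h12 : T ≤ 2 / ε * ((k + 1) * C.S.Wd k) := by
      rw [div_mul_eq_mul_div, le_div_iff₀ hε]
      linarith
    calc H = T * Real.log x := hHT
      _ ≤ (2 / ε * ((k + 1) * C.S.Wd k)) * (2 * Real.log (C.X k)) :=
        mul_le_mul h12 hlog hlx.le (by positivity)
      _ = _ := by ring
  refine ⟨k, by linarith, ?_⟩
  have hb : 0 ≤ (k + 1) * (C.S.Wd k * Real.log (C.X k)) := by positivity
  have hb1 : C.S.Wd k * Real.log (C.X k) ≤ (k + 1) * (C.S.Wd k * Real.log (C.X k)) := by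
    nlinarith
  have hb2 : 2 * ((k + 1) * (C.S.Wd k * Real.log (C.X k))) ≤
      6 / ε * ((k + 1) * (C.S.Wd k * Real.log (C.X k))) := by
    apply mul_le_mul_of_nonneg_right _ hb
    rw [le_div_iff₀ hε]
    linarith
  have hb3 : 4 / ε * ((k + 1) * (C.S.Wd k * Real.log (C.X k))) ≤
      6 / ε * ((k + 1) * (C.S.Wd k * Real.log (C.X k))) := by
    apply mul_le_mul_of_nonneg_right _ hb
    apply div_le_div_of_nonneg_right (by norm_num) hε.le
  rw [abs_le]
  constructor <;> linarith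

theorem sum_b {δ : ℝ} (hδ : 0 < δ) :
    Summable fun k : ℕ => ((k + 1) * (C.S.Wd k * Real.log (C.X k))) * C.X k ^ (-(1 / 2 + δ)) := by
  have h1 := (C.S.hS (1 / 2 + δ / 2) (by linarith)).mul_left (3 * (1 / (δ / 4)) ^ 2)
  refine Summable.of_nonneg_of_le (fun k => ?_) (fun k => ?_) h1
  · have hlX := C.two_le_logX k
    have := C.S.W0 k
    have hX := C.one_le_X k
    positivity
  · have hlX := C.two_le_logX k
    have hW := C.S.W0 k
    have hX := C.one_le_X k
    have hX0 : 0 < C.X k := by linarith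
    have hk : (k : ℝ) + 1 ≤ 3 * Real.log (C.X k) := by
      have h2 : (2 : ℝ) ^ k ≤ C.X k := C.hPb k
      have h3 : Real.log ((2 : ℝ) ^ k) ≤ Real.log (C.X k) := Real.log_le_log (by positivity) h2
      rw [Real.log_pow] at h3
      have h4 := Real.log_two_gt_d9
      have hk0 : (0 : ℝ) ≤ k := Nat.cast_nonneg k
      nlinarith
    have hlog : Real.log (C.X k) ≤ C.X k ^ (δ / 4) / (δ / 4) :=
      Real.log_le_rpow_div hX0.le (by positivity)
    have hlog2 : Real.log (C.X k) ^ 2 ≤ (1 / (δ / 4)) ^ 2 * C.X k ^ (δ / 2) := by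
      have e : (1 / (δ / 4)) ^ 2 * C.X k ^ (δ / 2) = (C.X k ^ (δ / 4) / (δ / 4)) ^ 2 := by
        have e2 : C.X k ^ (δ / 2) = (C.X k ^ (δ / 4)) ^ 2 := by
          rw [← Real.rpow_natCast, ← Real.rpow_mul hX0.le]
          congr 1
          push_cast
          ring
        rw [e2]
        ring
      rw [e]
      exact pow_le_pow_left₀ (by linarith) hlog 2
    have hmono : C.X k ^ (-(1 / 2 + δ / 2)) ≤
        phi (fZ Z) x₀ (C.S.J k + ∑ i ∈ Finset.range k, C.S.Wd i) ^ (-(1 / 2 + δ / 2)) := by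
      apply Real.rpow_le_rpow_of_nonpos (C.hR.phi_pos _) _ (by linarith)
      apply C.hR.phi_mono
      unfold Sch.A Sch.T
      linarith
    have hexp : C.X k ^ (δ / 2) * C.X k ^ (-(1 / 2 + δ)) = C.X k ^ (-(1 / 2 + δ / 2)) := by
      rw [← Real.rpow_add hX0]
      congr 1
      ring
    have hp0 : 0 ≤ C.X k ^ (-(1 / 2 + δ)) := Real.rpow_nonneg hX0.le _
    have hp1 : 0 ≤ C.X k ^ (-(1 / 2 + δ / 2)) := Real.rpow_nonneg hX0.le _
    calc ((k : ℝ) + 1) * (C.S.Wd k * Real.log (C.X k)) * C.X k ^ (-(1 / 2 + δ))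
        ≤ (3 * Real.log (C.X k)) * (C.S.Wd k * Real.log (C.X k)) * C.X k ^ (-(1 / 2 + δ)) := by
          gcongr
      _ = 3 * (C.S.Wd k * (Real.log (C.X k) ^ 2)) * C.X k ^ (-(1 / 2 + δ)) := by ring
      _ ≤ 3 * (C.S.Wd k * ((1 / (δ / 4)) ^ 2 * C.X k ^ (δ / 2))) * C.X k ^ (-(1 / 2 + δ)) := by
          gcongr
      _ = 3 * (1 / (δ / 4)) ^ 2 * (C.S.Wd k * (C.X k ^ (δ / 2) * C.X k ^ (-(1 / 2 + δ)))) := by
          ring
      _ = 3 * (1 / (δ / 4)) ^ 2 * (C.S.Wd k * C.X k ^ (-(1 / 2 + δ / 2))) := by rw [hexp]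
      _ ≤ 3 * (1 / (δ / 4)) ^ 2 * ((C.S.Wd k + C.S.r k) *
          phi (fZ Z) x₀ (C.S.J k + ∑ i ∈ Finset.range k, C.S.Wd i) ^ (-(1 / 2 + δ / 2))) := by
          apply mul_le_mul_of_nonneg_left _ (by positivity)
          apply mul_le_mul _ hmono hp1 (by positivity)
          have : (0 : ℝ) ≤ C.S.r k := Nat.cast_nonneg _
          linarith

/-- The exceptional points have small measure. -/
theorem exc_meas {ε : ℝ} (hε : 0 < ε) (hε1 : ε ≤ 1) {δ : ℝ} (hδ : 0 < δ) :
    ∃ K : ℝ, ∀ X : ℝ, 1 ≤ X →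
      volume (Exc C.p ε (12 / ε) ∩ Iic X) ≤ ENNReal.ofReal (K * X ^ (1 / 2 + δ)) := by
  obtain ⟨x₁, hx₁0, hx₁⟩ := C.exc_sub hε hε1
  set b : ℕ → ℝ := fun k => 6 / ε * ((k + 1) * (C.S.Wd k * Real.log (C.X k))) with hb
  have hb0 : ∀ k, 0 ≤ b k := fun k => by
    have hlX := C.two_le_logX k
    have := C.S.W0 k
    rw [hb]
    positivity
  set s : ℝ := 1 / 2 + δ with hs
  have hs0 : 0 < s := by rw [hs]; linarith
  have hsum : Summable fun k : ℕ => 2 * b k * C.X k ^ (-s) := by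
    refine ((C.sum_b hδ).mul_left (12 / ε)).congr fun k => ?_
    rw [hb]
    ring
  set S : ℝ := ∑' k : ℕ, 2 * b k * C.X k ^ (-s) with hSd
  have hX0 : ∀ k, 0 < C.X k := fun k => by linarith [C.one_le_X k]
  have hterm0 : ∀ k, 0 ≤ 2 * b k * C.X k ^ (-s) := fun k =>
    mul_nonneg (by linarith [hb0 k]) (Real.rpow_nonneg (hX0 k).le _)
  have hS0 : 0 ≤ S := tsum_nonneg hterm0
  refine ⟨x₁ + 2 ^ s * S, fun X hX => ?_⟩
  have hsub : Exc C.p ε (12 / ε) ∩ Iic X ⊆ Icc 0 x₁ ∪ ⋃ k : ℕ,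
      (if C.X k ≤ 2 * X then Icc (C.X k - b k) (C.X k + b k) else ∅) := by
    rintro x ⟨hx, hxX⟩
    rcases le_or_gt x₁ x with h | h
    · right
      obtain ⟨k, hk1, hk2⟩ := hx₁ x h hx
      rw [mem_iUnion]
      refine ⟨k, ?_⟩
      have hxX' : x ≤ X := hxX
      rw [if_pos (by linarith)]
      have := abs_le.1 hk2
      change -b k ≤ _ ∧ _ ≤ b k at this
      exact ⟨by linarith [this.1], by linarith [this.2]⟩
    · left
      exact ⟨by linarith [hx.1], h.le⟩
  have h2X : (0 : ℝ) ≤ (2 * X) ^ s := Real.rpow_nonneg (by linarith) _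
  have hone : 1 ≤ X ^ s := Real.one_le_rpow hX hs0.le
  calc volume (Exc C.p ε (12 / ε) ∩ Iic X)
      ≤ volume (Icc 0 x₁) + volume (⋃ k : ℕ,
        (if C.X k ≤ 2 * X then Icc (C.X k - b k) (C.X k + b k) else ∅)) :=
        (measure_mono hsub).trans (measure_union_le _ _)
    _ ≤ ENNReal.ofReal x₁ + ∑' k : ℕ, ENNReal.ofReal ((2 * X) ^ s * (2 * b k * C.X k ^ (-s))) := by
        apply add_le_add
        · rw [Real.volume_Icc, sub_zero]
        · refine (measure_iUnion_le _).trans (ENNReal.tsum_le_tsum fun k => ?_)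
          split_ifs with h
          · rw [Real.volume_Icc]
            apply ENNReal.ofReal_le_ofReal
            have e : C.X k + b k - (C.X k - b k) = 2 * b k := by ring
            rw [e]
            have h3 : 1 ≤ (2 * X) ^ s * C.X k ^ (-s) := by
              rw [Real.rpow_neg (hX0 k).le, ← div_eq_mul_inv,
                ← Real.div_rpow (by linarith) (hX0 k).le]
              apply Real.one_le_rpow _ hs0.le
              rw [le_div_iff₀ (hX0 k)]
              linarith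
            calc 2 * b k = 1 * (2 * b k) := by ring
              _ ≤ ((2 * X) ^ s * C.X k ^ (-s)) * (2 * b k) :=
                mul_le_mul_of_nonneg_right h3 (by linarith [hb0 k])
              _ = _ := by ring
          · simp
    _ = ENNReal.ofReal x₁ + ENNReal.ofReal ((2 * X) ^ s * S) := by
        rw [← ENNReal.ofReal_tsum_of_nonneg (fun k => mul_nonneg h2X (hterm0 k))
          (hsum.mul_left _), tsum_mul_left]
    _ = ENNReal.ofReal (x₁ + (2 * X) ^ s * S) :=
        (ENNReal.ofReal_add hx₁0 (mul_nonneg h2X hS0)).symm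
    _ ≤ _ := by
        apply ENNReal.ofReal_le_ofReal
        rw [Real.mul_rpow (by norm_num) (by linarith)]
        nlinarith

end GC

/-- almost all intervals -/
def AAL (p : ℕ → ℝ) : Prop := ∀ ε : ℝ, 0 < ε → ∃ A : ℝ, ∀ δ : ℝ, 0 < δ → ∃ K : ℝ,
  ∀ X : ℝ, 1 ≤ X → volume (Exc p ε A ∩ Iic X) ≤ ENNReal.ofReal (K * X ^ (1 / 2 + δ))

theorem GC.aal {Z : Multiset ℂ} {x₀ : ℝ} (C : GC Z x₀) : AAL C.p := by
  intro ε hε
  refine ⟨12 / min ε 1, fun δ hδ => ?_⟩
  obtain ⟨K, hK⟩ := C.exc_meas (lt_min hε one_pos) (min_le_right ε 1) hδ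
  refine ⟨K, fun X hX => (measure_mono ?_).trans (hK X hX)⟩
  rintro x ⟨⟨h1, H, h2, h3, h4⟩, h5⟩
  refine ⟨⟨h1, H, h2, h3, lt_of_le_of_lt ?_ h4⟩, h5⟩
  have hlx : 0 < Real.log x := Real.log_pos (by linarith)
  have hH0 : 0 < H := lt_of_lt_of_le (by positivity) h2
  exact mul_le_mul_of_nonneg_right (min_le_left _ _) (by positivity)

end Pool.Agent.H204.AS
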