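import Pool.Agent.H204.SI.Upper

open MeasureTheory Set Filter Topology
open scoped ENNReal NNReal ComplexConjugate

namespace Pool.Agent.H204.AS

open Pool.Agent.H521 Pool.Agent.H521.G Pool.Agent.H204.SI

/-- The chain of consecutive intervals `(y, y + h y]`. -/
noncomputable def gch (h : ℝ → ℝ) (x : ℝ) : ℕ → ℝ
  | 0 => x
  | i + 1 => gch h x i + h (gch h x i)

theorem gch_add {h : ℝ → ℝ} {x : ℝ} (h1 : ∀ y, x ≤ y → 1 ≤ h y) (i : ℕ) : x + i ≤ gch h x i := by
  induction i with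
  | zero => simp [gch]
  | succ i ih =>
    rw [gch]
    have : x ≤ gch h x i := by
      have : (0 : ℝ) ≤ i := Nat.cast_nonneg i
      linarith
    have := h1 _ this
    push_cast
    linarith

theorem gch_ge {h : ℝ → ℝ} {x : ℝ} (h1 : ∀ y, x ≤ y → 1 ≤ h y) (i : ℕ) : x ≤ gch h x i := by
  have h2 := gch_add h1 i
  have : (0 : ℝ) ≤ i := Nat.cast_nonneg i
  linarith

theorem gch_mono {h : ℝ → ℝ} {x : ℝ} (h1 : ∀ y, x ≤ y → 1 ≤ h y) : Monotone (gch h x) :=
  monotone_nat_of_le_succ fun i => by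
    rw [gch]
    have := h1 _ (gch_ge h1 i)
    linarith

/-- The chain reaches every point. -/
theorem gch_reach {h : ℝ → ℝ} {x y : ℝ} (h1 : ∀ y, x ≤ y → 1 ≤ h y) (hy : x ≤ y) :
    ∃ m, gch h x m ≤ y ∧ y < gch h x (m + 1) := by
  have hex : ∃ m : ℕ, y < gch h x m := by
    obtain ⟨m, hm⟩ := exists_nat_gt (y - x)
    exact ⟨m, by have := gch_add h1 m; linarith⟩
  classical
  have hpos : Nat.find hex ≠ 0 := by
    intro h
    have h1 := Nat.find_spec hex
    rw [h] at h1
    simp only [gch] at h1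
    linarith
  refine ⟨Nat.find hex - 1, not_lt.1 (Nat.find_min hex (by omega)), ?_⟩
  have e : Nat.find hex - 1 + 1 = Nat.find hex := by omega
  rw [e]
  exact Nat.find_spec hex

/-- Uniform lower bounds for longer intervals. -/
theorem glow_unif {p : ℕ → ℝ} (hpt : Tendsto p atTop atTop) {h : ℝ → ℝ} {l x H M : ℝ}
    (hl : 0 ≤ l) (hx : 2 ≤ x) (h1 : ∀ y, x ≤ y → 1 ≤ h y)
    (hev : ∀ y, x ≤ y → l * (h y / Real.log y) ≤ cnt p y (h y)) (hH0 : 0 ≤ H) (hH : H ≤ x)
    (hM : ∀ y, x ≤ y → y ≤ 2 * x → h y ≤ M) :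
    l * ((H - M) / Real.log (2 * x)) ≤ cnt p x H := by
  obtain ⟨m, hm1, hm2⟩ := gch_reach h1 (by linarith : x ≤ x + H)
  have hlog2 : 0 < Real.log (2 * x) := Real.log_pos (by linarith)
  have key : ∀ i ≤ m, l * ((gch h x i - x) / Real.log (2 * x)) ≤
      (countPr p (gch h x i) : ℝ) - countPr p x := by
    intro i
    induction i with
    | zero => intro _; simp [gch]
    | succ i ih =>
      intro hi
      have h2 := ih (by omega)
      have h3 := hev _ (gch_ge h1 i)
      have h4 : gch h x i ≤ 2 * x := by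
        have := gch_mono h1 (by omega : i ≤ m)
        linarith
      have hge := gch_ge h1 i
      have hli : 0 < Real.log (gch h x i) := Real.log_pos (by linarith)
      have h5 : h (gch h x i) / Real.log (2 * x) ≤ h (gch h x i) / Real.log (gch h x i) :=
        div_le_div_of_nonneg_left (by linarith [h1 _ hge]) hli
          (Real.log_le_log (by linarith) h4)
      have h6 : l * (h (gch h x i) / Real.log (2 * x)) ≤ cnt p (gch h x i) (h (gch h x i)) :=
        (mul_le_mul_of_nonneg_left h5 hl).trans h3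
      unfold cnt at h6
      rw [gch]
      have e : l * ((gch h x i + h (gch h x i) - x) / Real.log (2 * x)) =
          l * ((gch h x i - x) / Real.log (2 * x)) + l * (h (gch h x i) / Real.log (2 * x)) := by
        ring
      rw [e]
      linarith
  have h2 := key m le_rfl
  have h3 : x + H - M ≤ gch h x m := by
    rw [gch] at hm2
    have := hM _ (gch_ge h1 m) (by linarith)
    linarith
  have h4 : (countPr p (gch h x m) : ℝ) ≤ countPr p (x + H) := by
    exact_mod_cast countPr_mono hpt hm1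
  unfold cnt
  have h5 : l * ((H - M) / Real.log (2 * x)) ≤
      l * ((gch h x m - x) / Real.log (2 * x)) := by
    apply mul_le_mul_of_nonneg_left _ hl
    apply div_le_div_of_nonneg_right _ hlog2.le
    linarith
  linarith

/-- Uniform upper bounds for longer intervals. -/
theorem gup_unif {p : ℕ → ℝ} (hpt : Tendsto p atTop atTop) {h : ℝ → ℝ} {u x H M : ℝ}
    (hu : 0 ≤ u) (hx : 2 ≤ x) (h1 : ∀ y, x ≤ y → 1 ≤ h y)
    (hev : ∀ y, x ≤ y → cnt p y (h y) ≤ u * (h y / Real.log y)) (hH0 : 0 ≤ H) (hH : H ≤ x)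
    (hM : ∀ y, x ≤ y → y ≤ 2 * x → h y ≤ M) :
    cnt p x H ≤ u * ((H + M) / Real.log x) := by
  obtain ⟨m, hm1, hm2⟩ := gch_reach h1 (by linarith : x ≤ x + H)
  have hlog : 0 < Real.log x := Real.log_pos (by linarith)
  have key : ∀ i, (countPr p (gch h x i) : ℝ) - countPr p x ≤
      u * ((gch h x i - x) / Real.log x) := by
    intro i
    induction i with
    | zero => simp [gch]
    | succ i ih =>
      have hge := gch_ge h1 i
      have h2 := hev _ hge
      have h4 : h (gch h x i) / Real.log (gch h x i) ≤ h (gch h x i) / Real.log x :=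
        div_le_div_of_nonneg_left (by linarith [h1 _ hge]) hlog
          (Real.log_le_log (by linarith) hge)
      have h5 : cnt p (gch h x i) (h (gch h x i)) ≤ u * (h (gch h x i) / Real.log x) :=
        h2.trans (mul_le_mul_of_nonneg_left h4 hu)
      unfold cnt at h5
      rw [gch]
      have e : u * ((gch h x i + h (gch h x i) - x) / Real.log x) =
          u * ((gch h x i - x) / Real.log x) + u * (h (gch h x i) / Real.log x) := by
        ring
      rw [e]
      linarith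
  have h2 := key (m + 1)
  have h3 : gch h x (m + 1) - x ≤ H + M := by
    rw [gch]
    have := hM _ (gch_ge h1 m) (by linarith)
    linarith
  have h4 : (countPr p (x + H) : ℝ) ≤ countPr p (gch h x (m + 1)) := by
    exact_mod_cast countPr_mono hpt hm2.le
  unfold cnt
  have h5 : u * ((gch h x (m + 1) - x) / Real.log x) ≤ u * ((H + M) / Real.log x) := by
    apply mul_le_mul_of_nonneg_left _ hu
    apply div_le_div_of_nonneg_right h3 hlog.le
  linarith

/-- A scale function. -/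
structure Sc (h : ℝ → ℝ) : Prop where
  large : Tendsto (fun x => h x / Real.log x) atTop atTop
  small : ∀ ε : ℝ, 0 < ε → ∀ᶠ x in atTop, h x ≤ x ^ (1 / 2 + ε)
  dbl : ∃ C : ℝ, ∀ᶠ x in atTop, ∀ y, x ≤ y → y ≤ 2 * x → h y ≤ C * h x ∧ h x ≤ C * h y

namespace Sc

variable {h : ℝ → ℝ} (s : Sc h)
include s

theorem ge_log : ∀ᶠ x in atTop, Real.log x ≤ h x := by
  filter_upwards [s.large.eventually_ge_atTop 1, eventually_gt_atTop 1] with x hx hx1
  have hl := Real.log_pos hx1
  rwa [le_div_iff₀ hl, one_mul] at hx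

theorem ge_one : ∀ᶠ x in atTop, 1 ≤ h x := by
  filter_upwards [s.ge_log, Real.tendsto_log_atTop.eventually_ge_atTop 1] with x hx hx1
  linarith

theorem le_self : ∀ᶠ x in atTop, h x ≤ x := by
  filter_upwards [s.small (1 / 2) (by norm_num)] with x hx
  norm_num at hx
  exact hx

theorem div_self : Tendsto (fun x => h x / x) atTop (𝓝 0) := by
  have h1 : Tendsto (fun x : ℝ => x ^ (-(1 / 4 : ℝ))) atTop (𝓝 0) :=
    tendsto_rpow_neg_atTop (by norm_num)
  refine squeeze_zero' ?_ ?_ h1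
  · filter_upwards [s.ge_one, eventually_gt_atTop 0] with x hx hx0
    positivity
  · filter_upwards [s.small (1 / 4) (by norm_num), eventually_gt_atTop 0] with x hx hx0
    rw [div_le_iff₀ hx0]
    calc h x ≤ x ^ (1 / 2 + 1 / 4 : ℝ) := hx
      _ = x ^ (-(1 / 4 : ℝ)) * x ^ (1 : ℝ) := by
        rw [← Real.rpow_add hx0]; norm_num
      _ = _ := by rw [Real.rpow_one]

end Sc

/-- The ratio of the number of primes in `(x, x + h x]` and the expected number. -/
noncomputable def gR (p : ℕ → ℝ) (h : ℝ → ℝ) (x : ℝ) : ℝ≥0∞ :=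
  ENNReal.ofReal (((countPr p (x + h x) : ℝ) - countPr p x) / (h x / Real.log x))

theorem gev_low {p : ℕ → ℝ} {h : ℝ → ℝ} (s : Sc h) {r : ℝ≥0}
    (hr : (r : ℝ≥0∞) < liminf (gR p h) atTop) :
    ∀ᶠ x in atTop, (r : ℝ) * (h x / Real.log x) ≤ cnt p x (h x) := by
  filter_upwards [eventually_lt_of_lt_liminf hr, s.large.eventually_gt_atTop 0] with x hx hl
  have h1 : (r : ℝ) < cnt p x (h x) / (h x / Real.log x) := by
    have h2 : ENNReal.ofReal (r : ℝ) < gR p h x := by rwa [ENNReal.ofReal_coe_nnreal]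
    unfold gR at h2
    exact (ENNReal.ofReal_lt_ofReal_iff_of_nonneg (NNReal.coe_nonneg r)).1 h2
  rw [lt_div_iff₀ hl] at h1
  exact h1.le

theorem gev_up {p : ℕ → ℝ} {h : ℝ → ℝ} (s : Sc h) {r : ℝ≥0}
    (hr : limsup (gR p h) atTop < (r : ℝ≥0∞)) :
    ∀ᶠ x in atTop, cnt p x (h x) ≤ (r : ℝ) * (h x / Real.log x) := by
  filter_upwards [eventually_lt_of_limsup_lt hr, s.large.eventually_gt_atTop 0] with x hx hl
  have h1 : cnt p x (h x) / (h x / Real.log x) ≤ (r : ℝ) := by
    have h2 : gR p h x ≤ ENNReal.ofReal (r : ℝ) := by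
      rw [ENNReal.ofReal_coe_nnreal]; exact hx.le
    unfold gR at h2
    exact (ENNReal.ofReal_le_ofReal_iff (NNReal.coe_nonneg r)).1 h2
  rwa [div_le_iff₀ hl] at h1

theorem gliminf_ge {p : ℕ → ℝ} {h : ℝ → ℝ} (s : Sc h) {r : ℝ}
    (hev : ∀ ε : ℝ, 0 < ε → ∀ᶠ x in atTop, (r - ε) * (h x / Real.log x) ≤ cnt p x (h x)) :
    ENNReal.ofReal r ≤ liminf (gR p h) atTop := by
  apply ENNReal.le_of_forall_pos_le_add
  intro ε hε _
  have h1 : ∀ᶠ x in atTop, ENNReal.ofReal (r - ε) ≤ gR p h x := by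
    filter_upwards [hev ε (by exact_mod_cast hε), s.large.eventually_gt_atTop 0] with x hx hl
    unfold gR
    apply ENNReal.ofReal_le_ofReal
    rw [le_div_iff₀ hl]
    exact hx
  have h2 : ENNReal.ofReal (r - ε) ≤ liminf (gR p h) atTop :=
    le_liminf_of_le (by isBoundedDefault) h1
  calc ENNReal.ofReal r = ENNReal.ofReal ((r - ε) + ε) := by ring_nf
    _ ≤ ENNReal.ofReal (r - ε) + ENNReal.ofReal ε := ENNReal.ofReal_add_le
    _ ≤ liminf (gR p h) atTop + ε := by
        rw [ENNReal.ofReal_coe_nnreal]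
        exact add_le_add_left h2 _

theorem glimsup_le {p : ℕ → ℝ} {h : ℝ → ℝ} (s : Sc h) {r : ℝ} (hr : 0 ≤ r)
    (hev : ∀ ε : ℝ, 0 < ε → ∀ᶠ x in atTop, cnt p x (h x) ≤ (r + ε) * (h x / Real.log x)) :
    limsup (gR p h) atTop ≤ ENNReal.ofReal r := by
  apply ENNReal.le_of_forall_pos_le_add
  intro ε hε _
  have h1 : ∀ᶠ x in atTop, gR p h x ≤ ENNReal.ofReal (r + ε) := by
    filter_upwards [hev ε (by exact_mod_cast hε), s.large.eventually_gt_atTop 0] with x hx hl
    unfold gR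
    apply ENNReal.ofReal_le_ofReal
    rw [div_le_iff₀ hl]
    exact hx
  have h2 : limsup (gR p h) atTop ≤ ENNReal.ofReal (r + ε) :=
    limsup_le_of_le (by isBoundedDefault) h1
  refine h2.trans ?_
  rw [ENNReal.ofReal_add hr (NNReal.coe_nonneg ε), ENNReal.ofReal_coe_nnreal]

/-- A lower bound at one scale gives one for all longer scales. -/
theorem glow_all {p : ℕ → ℝ} (hpt : Tendsto p atTop atTop) {h k : ℝ → ℝ} (s : Sc h)
    (hk : ∀ᶠ x in atTop, 0 < k x ∧ k x ≤ x)
    (hhk : Tendsto (fun x => h x / k x) atTop (𝓝 0)) {l : ℝ} (hl : 0 ≤ l)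
    (hev : ∀ᶠ x in atTop, l * (h x / Real.log x) ≤ cnt p x (h x)) {ε : ℝ} (hε : 0 < ε) :
    ∀ᶠ x in atTop, (l - ε) * (k x / Real.log x) ≤ cnt p x (k x) := by
  obtain ⟨X₀, hX₀⟩ := eventually_atTop.1 hev
  obtain ⟨X₁, hX₁⟩ := eventually_atTop.1 s.ge_one
  obtain ⟨C, hC⟩ := s.dbl
  have h1 : Tendsto (fun x : ℝ => l * ((1 - C * (h x / k x)) *
      (Real.log x / Real.log (2 * x)))) atTop (𝓝 (l * ((1 - C * 0) * 1))) :=
    (((hhk.const_mul C).const_sub 1).mul log_two_ratio).const_mul l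
  have e1 : l * ((1 - C * 0) * 1) = l := by ring
  rw [e1] at h1
  filter_upwards [h1.eventually_const_le (by linarith : l - ε < l), eventually_ge_atTop X₀,
    eventually_ge_atTop X₁, eventually_ge_atTop 2, hk, hC] with x hx1 hx2 hx3 hx4 hx5 hx6
  obtain ⟨hk0, hkx⟩ := hx5
  have hlog : 0 < Real.log x := Real.log_pos (by linarith)
  have hlog2 : 0 < Real.log (2 * x) := Real.log_pos (by linarith)
  refine le_trans ?_ (glow_unif hpt hl hx4 (fun y hy => hX₁ y (hx3.trans hy))
    (fun y hy => hX₀ y (hx2.trans hy)) hk0.le hkx (M := C * h x) fun y hy1 hy2 => (hx6 y hy1 hy2).1)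
  have h2 : (l - ε) * (k x / Real.log x) ≤ l * ((1 - C * (h x / k x)) *
      (Real.log x / Real.log (2 * x))) * (k x / Real.log x) :=
    mul_le_mul_of_nonneg_right hx1 (by positivity)
  refine h2.trans (le_of_eq ?_)
  field_simp

/-- An upper bound at one scale gives one for all longer scales. -/
theorem gup_all {p : ℕ → ℝ} (hpt : Tendsto p atTop atTop) {h k : ℝ → ℝ} (s : Sc h)
    (hk : ∀ᶠ x in atTop, 0 < k x ∧ k x ≤ x)
    (hhk : Tendsto (fun x => h x / k x) atTop (𝓝 0)) {u : ℝ} (hu : 0 ≤ u)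
    (hev : ∀ᶠ x in atTop, cnt p x (h x) ≤ u * (h x / Real.log x)) {ε : ℝ} (hε : 0 < ε) :
    ∀ᶠ x in atTop, cnt p x (k x) ≤ (u + ε) * (k x / Real.log x) := by
  obtain ⟨X₀, hX₀⟩ := eventually_atTop.1 hev
  obtain ⟨X₁, hX₁⟩ := eventually_atTop.1 s.ge_one
  obtain ⟨C, hC⟩ := s.dbl
  have h1 : Tendsto (fun x : ℝ => u * (1 + C * (h x / k x))) atTop (𝓝 (u * (1 + C * 0))) :=
    ((hhk.const_mul C).const_add 1).const_mul u
  have e1 : u * (1 + C * 0) = u := by ring
  rw [e1] at h1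
  filter_upwards [h1.eventually_le_const (by linarith : u < u + ε), eventually_ge_atTop X₀,
    eventually_ge_atTop X₁, eventually_ge_atTop 2, hk, hC] with x hx1 hx2 hx3 hx4 hx5 hx6
  obtain ⟨hk0, hkx⟩ := hx5
  have hlog : 0 < Real.log x := Real.log_pos (by linarith)
  refine (gup_unif hpt hu hx4 (fun y hy => hX₁ y (hx3.trans hy))
    (fun y hy => hX₀ y (hx2.trans hy)) hk0.le hkx (M := C * h x)
    fun y hy1 hy2 => (hx6 y hy1 hy2).1).trans ?_
  have h2 : u * (1 + C * (h x / k x)) * (k x / Real.log x) ≤ (u + ε) * (k x / Real.log x) :=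
    mul_le_mul_of_nonneg_right hx1 (by positivity)
  refine le_trans (le_of_eq ?_) h2
  field_simp

theorem Sc.ok {k : ℝ → ℝ} (s : Sc k) : ∀ᶠ x in atTop, 0 < k x ∧ k x ≤ x := by
  filter_upwards [s.ge_one, s.le_self] with x h1 h2
  exact ⟨by linarith, h2⟩

/-- Monotonicity of the lower density. -/
theorem glow_mono {p : ℕ → ℝ} (hpt : Tendsto p atTop atTop) {h k : ℝ → ℝ} (s : Sc h) (s' : Sc k)
    (hhk : Tendsto (fun x => h x / k x) atTop (𝓝 0)) :
    liminf (gR p h) atTop ≤ liminf (gR p k) atTop := by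
  apply le_of_forall_lt
  intro c hc
  obtain ⟨r, hr1, hr2⟩ := ENNReal.lt_iff_exists_nnreal_btwn.1 hc
  refine lt_of_lt_of_le hr1 ?_
  have h1 : ENNReal.ofReal (r : ℝ) ≤ liminf (gR p k) atTop := gliminf_ge s' fun ε hε =>
    glow_all hpt s s'.ok hhk (NNReal.coe_nonneg r) (gev_low s hr2) hε
  rwa [ENNReal.ofReal_coe_nnreal] at h1

theorem gup_anti {p : ℕ → ℝ} (hpt : Tendsto p atTop atTop) {h k : ℝ → ℝ} (s : Sc h) (s' : Sc k)
    (hhk : Tendsto (fun x => h x / k x) atTop (𝓝 0)) :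
    limsup (gR p k) atTop ≤ limsup (gR p h) atTop := by
  apply le_of_forall_gt
  intro c hc
  obtain ⟨r, hr1, hr2⟩ := ENNReal.lt_iff_exists_nnreal_btwn.1 hc
  refine lt_of_le_of_lt ?_ hr2
  rw [← ENNReal.ofReal_coe_nnreal]
  exact glimsup_le s' (NNReal.coe_nonneg r) fun ε hε =>
    gup_all hpt s s'.ok hhk (NNReal.coe_nonneg r) (gev_up s hr1) hε

theorem glow_le_one {Z : Multiset ℂ} (hZ : ∀ ρ ∈ Z, ρ.re < 1) {p : ℕ → ℝ}
    (hpt : Tendsto p atTop atTop)
    (hpnt : ∀ ε : ℝ, 0 < ε → ∃ C : ℝ, ∀ x : ℝ, 2 ≤ x →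
        |(countPr p x : ℝ) - mainTerm Z x| ≤ C * x ^ (1 / 2 + ε)) {h : ℝ → ℝ} (s : Sc h) :
    liminf (gR p h) atTop ≤ 1 := by
  apply le_of_forall_lt
  intro c hc
  obtain ⟨r, hr1, hr2⟩ := ENNReal.lt_iff_exists_nnreal_btwn.1 hc
  refine lt_of_lt_of_le hr1 ?_
  have h1 : (r : ℝ) ≤ 1 := by
    apply le_of_forall_pos_le_add
    intro ε hε
    have h2 := glow_all hpt s (k := fun x => x)
      (by filter_upwards [eventually_gt_atTop 0] with x hx; exact ⟨hx, le_rfl⟩) s.div_self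
      (NNReal.coe_nonneg r) (gev_low s hr2) (half_pos hε)
    have h3 := cnt_double hZ hpnt (half_pos hε)
    obtain ⟨x, hx1, hx2, hx3⟩ := (h2.and (h3.and (eventually_gt_atTop 1))).exists
    have hl : 0 < x / Real.log x := div_pos (by linarith) (Real.log_pos hx3)
    have h4 := (abs_le.1 hx2).2
    generalize x / Real.log x = t at *
    have h5 : ((r : ℝ) - ε / 2) * t ≤ (1 + ε / 2) * t := by
      linarith
    have h6 := le_of_mul_le_mul_right h5 hl
    linarith
  exact_mod_cast h1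

theorem gone_le_up {Z : Multiset ℂ} (hZ : ∀ ρ ∈ Z, ρ.re < 1) {p : ℕ → ℝ}
    (hpt : Tendsto p atTop atTop)
    (hpnt : ∀ ε : ℝ, 0 < ε → ∃ C : ℝ, ∀ x : ℝ, 2 ≤ x →
        |(countPr p x : ℝ) - mainTerm Z x| ≤ C * x ^ (1 / 2 + ε)) {h : ℝ → ℝ} (s : Sc h) :
    1 ≤ limsup (gR p h) atTop := by
  apply le_of_forall_gt
  intro c hc
  obtain ⟨r, hr1, hr2⟩ := ENNReal.lt_iff_exists_nnreal_btwn.1 hc
  refine lt_of_le_of_lt ?_ hr2
  have h1 : 1 ≤ (r : ℝ) := by
    apply le_of_forall_pos_le_add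
    intro ε hε
    have h2 := gup_all hpt s (k := fun x => x)
      (by filter_upwards [eventually_gt_atTop 0] with x hx; exact ⟨hx, le_rfl⟩) s.div_self
      (NNReal.coe_nonneg r) (gev_up s hr1) (half_pos hε)
    have h3 := cnt_double hZ hpnt (half_pos hε)
    obtain ⟨x, hx1, hx2, hx3⟩ := (h2.and (h3.and (eventually_gt_atTop 1))).exists
    have hl : 0 < x / Real.log x := div_pos (by linarith) (Real.log_pos hx3)
    have h4 := (abs_le.1 hx2).1
    generalize x / Real.log x = t at *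
    have h5 : (1 - ε / 2) * t ≤ ((r : ℝ) + ε / 2) * t := by
      linarith
    have h6 := le_of_mul_le_mul_right h5 hl
    linarith
  exact_mod_cast h1

/-- gaps of positive upper density at the scale `f` make the lower densities vanish at all
scales of smaller order. -/
theorem glow_zero {p : ℕ → ℝ} (hp : StrictMono p) (hpt : Tendsto p atTop atTop) {f : ℝ → ℝ}
    (sf : Sc f) (hc : 0 < limsup (fun n => ENNReal.ofReal ((p (n + 1) - p n) / f (p n))) atTop)
    {h : ℝ → ℝ} (s : Sc h) (hh : Tendsto (fun x => h x / f x) atTop (𝓝 0)) :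
    liminf (gR p h) atTop = 0 := by
  obtain ⟨r, hr1, hr2⟩ := ENNReal.lt_iff_exists_nnreal_btwn.1 hc
  have hr0 : 0 < (r : ℝ) := by exact_mod_cast hr1
  have hfreq := frequently_lt_of_lt_limsup (by isBoundedDefault) hr2
  have h1 : ∀ᶠ x : ℝ in atTop, h x < r * f x := by
    filter_upwards [hh.eventually_lt_const hr0, sf.ge_one] with x hx hx1
    rwa [div_lt_iff₀ (by linarith)] at hx
  have hf2 : ∃ᶠ n in atTop, gR p h (p n) = 0 := by
    refine (hfreq.and_eventually ((hpt.eventually h1).and ((hpt.eventually sf.ge_one).and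
      (hpt.eventually s.ge_one)))).mono ?_
    rintro n ⟨hn1, hn2, hn3, hn4⟩
    have h2 : (r : ℝ) < (p (n + 1) - p n) / f (p n) := by
      rw [← ENNReal.ofReal_coe_nnreal] at hn1
      exact (ENNReal.ofReal_lt_ofReal_iff_of_nonneg (NNReal.coe_nonneg r)).1 hn1
    rw [lt_div_iff₀ (by linarith)] at h2
    have h3 : p n + h (p n) < p (n + 1) := by linarith
    have h4 : p n ≤ p n + h (p n) := by linarith
    unfold gR
    rw [countPr_eq hp h4 h3, countPr_eq hp le_rfl (hp (Nat.lt_succ_self n))]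
    simp
  apply le_antisymm _ bot_le
  apply liminf_le_of_frequently_le'
  exact (hpt.frequently (p := fun x => gR p h x = 0) hf2).mono fun x hx => hx.le

end Pool.Agent.H204.AS
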