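import Pool.Agent.H521.G.Maier4
import Pool.Agent.H204.AS.GProp

open MeasureTheory Set Filter Topology
open scoped ENNReal NNReal ComplexConjugate

namespace Pool.Agent.H204.AS

open Pool.Agent.H521 Pool.Agent.H521.G Pool.Agent.H204.SI

/-- A schedule with windows of arbitrary lengths. -/
structure GC (Z : Multiset ℂ) (x₀ : ℝ) where
  hZ : ∀ ρ ∈ Z, ρ.re < 1
  hR : RDens (fZ Z) x₀
  S : Sch (fZ Z) x₀
  V : ℕ → ℝ
  hV : ∀ j, V j ∈ Ico (0 : ℝ) 1
  g : ℕ → ℝ
  ls : ℕ → ℝ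
  hg0 : ∀ k, 0 ≤ g k
  hg1 : ∀ k, g k ≤ phi (fZ Z) x₀ (S.A k)
  hls0 : ∀ k, 0 ≤ ls k
  hls1 : ∀ k, ls k ≤ k + 1
  hE : ∀ k, phi (fZ Z) x₀ (S.E k) = phi (fZ Z) x₀ (S.A k) + g k
  hr : ∀ k, S.r k = ⌊ls k * S.Wd k⌋₊
  h4 : ∀ k, 4 * phi (fZ Z) x₀ (S.E k) ≤ phi (fZ Z) x₀ (S.A (k + 1))
  hPb : ∀ k : ℕ, (2 : ℝ) ^ k ≤ phi (fZ Z) x₀ (S.A k)

namespace GC

variable {Z : Multiset ℂ} {x₀ : ℝ} (C : GC Z x₀)

/-- the start of window `k` -/
noncomputable def X (k : ℕ) : ℝ := phi (fZ Z) x₀ (C.S.A k)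

/-- the primes -/
noncomputable def p (n : ℕ) : ℝ := phi (fZ Z) x₀ (C.S.toW.yk C.V n)

theorem A_nonneg (k : ℕ) : 0 ≤ C.S.A k := by
  unfold Sch.A
  have := C.S.T_nonneg k
  positivity

theorem one_le_X (k : ℕ) : 1 ≤ C.X k := C.hR.phi_one_le _

theorem two_le_logX (k : ℕ) : 2 ≤ Real.log (C.X k) := C.hR.hlog _ (C.hR.phi_ge _)

theorem one_lt_X (k : ℕ) : 1 < C.X k := by
  by_contra h
  push Not at h
  have h1 := C.two_le_logX k
  have h2 := Real.log_nonpos (by linarith [C.one_le_X k]) h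
  linarith

theorem k_le_X (k : ℕ) : (k : ℝ) ≤ C.X k := by
  have h1 := C.hPb k
  have h2 : (k : ℝ) < 2 ^ k := by exact_mod_cast Nat.lt_two_pow_self
  have h3 : C.X k = phi (fZ Z) x₀ (C.S.A k) := rfl
  linarith

theorem X_tendsto : Tendsto C.X atTop atTop :=
  tendsto_atTop_mono C.k_le_X tendsto_natCast_atTop_atTop

theorem E_le_two_X (k : ℕ) : phi (fZ Z) x₀ (C.S.E k) ≤ 2 * C.X k := by
  rw [C.hE]
  have h2 := C.hg1 k
  change C.X k + C.g k ≤ _
  change C.g k ≤ C.X k at h2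
  linarith

theorem E_lt_A (k : ℕ) : C.S.E k < C.S.A (k + 1) := by
  by_contra hc
  push Not at hc
  have h1 := C.hR.phi_mono hc
  have h2 := C.h4 k
  have h3 := C.hR.phi_pos (C.S.E k)
  linarith

theorem A_le_E (k : ℕ) : C.S.A k ≤ C.S.E k := by
  unfold Sch.E
  linarith [C.S.W0 k]

theorem E_mono : Monotone C.S.E := monotone_nat_of_le_succ fun k =>
  (C.E_lt_A k).le.trans (C.A_le_E (k + 1))

theorem E_tendsto : Tendsto C.S.E atTop atTop := by
  apply tendsto_atTop_mono _ (tendsto_natCast_atTop_atTop (R := ℝ))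
  intro k
  have h1 : (k : ℝ) ≤ C.S.J k := by exact_mod_cast C.S.Jm.le_apply
  unfold Sch.E Sch.A
  have := C.S.T_nonneg k
  have := C.S.W0 k
  linarith

theorem lam_le (k : ℕ) : C.S.lam k ≤ C.ls k := by
  unfold Sch.lam
  rcases eq_or_lt_of_le (C.S.W0 k) with h | h
  · rw [← h, div_zero]; exact C.hls0 k
  · rw [div_le_iff₀ h, C.hr]
    exact Nat.floor_le (mul_nonneg (C.hls0 k) h.le)

theorem lam_ge (k : ℕ) : (C.ls k - C.S.lam k) * C.S.Wd k ≤ 1 := by
  rw [sub_mul, C.S.lam_mul, C.hr]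
  have := Nat.lt_floor_add_one (C.ls k * C.S.Wd k)
  linarith

/-- localisation -/
theorem loc {h : ℝ → ℝ} (hh : ∀ᶠ x in atTop, 0 < h x ∧ h x ≤ x) (K₀ : ℕ) :
    ∀ᶠ x in atTop, ∃ k, K₀ ≤ k ∧ ∃ cc : ℝ,
    |cnt C.p x (h x) - ((Fp (fZ Z) x₀ (x + h x) - Fp (fZ Z) x₀ x) +
      (C.ls k - 1) * cc)| ≤ 3 ∧ 0 ≤ cc ∧
    cc ≤ Fp (fZ Z) x₀ (x + h x) - Fp (fZ Z) x₀ x ∧ cc ≤ C.S.Wd k ∧
    (0 < cc → C.X k ≤ 2 * x ∧ x ≤ 2 * C.X k) := by
  filter_upwards [hh, eventually_ge_atTop x₀, eventually_gt_atTop 1,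
    eventually_gt_atTop (phi (fZ Z) x₀ (C.S.E K₀))] with x hhx hx0 hx1 hxE
  have hxb : h x ≤ x := hhx.2
  have hh : 0 < h x := hhx.1
  generalize h x = h at *
  set y := Fp (fZ Z) x₀ x with hy
  set z := Fp (fZ Z) x₀ (x + h) with hz
  have hy0 : 0 ≤ y := by
    have := C.hR.F_mono le_rfl hx0
    rwa [C.hR.F_zero] at this
  have hyz : y ≤ z := C.hR.F_mono hx0 (by linarith)
  have hex : ∃ k, y < C.S.E k := (C.E_tendsto.eventually_gt_atTop y).exists
  classical
  set k := Nat.find hex with hk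
  have hkE : y < C.S.E k := Nat.find_spec hex
  have hmin : ∀ i < k, C.S.E i ≤ y := fun i hi => not_lt.1 (Nat.find_min hex hi)
  have hφy : phi (fZ Z) x₀ y = x := C.hR.phi_F hx0
  have hφz : phi (fZ Z) x₀ z = x + h := C.hR.phi_F (by linarith)
  have hK₀ : K₀ ≤ k := by
    by_contra hc
    push Not at hc
    have h1 := C.E_mono hc.le
    have h2 := C.hR.phi_mono (hkE.le.trans h1)
    rw [hφy] at h2
    linarith
  have hxk : x < phi (fZ Z) x₀ (C.S.E k) := by
    rw [← hφy]; exact C.hR.phi_lt hy0 hkE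
  have hzA : z < C.S.A (k + 1) := by
    by_contra hc
    push Not at hc
    have h1 := C.hR.phi_mono hc
    rw [hφz] at h1
    have h2 := C.h4 k
    linarith
  have hci := C.S.count_incr C.hV hy0 hyz hmin hzA
  refine ⟨k, hK₀, C.S.cl k z - C.S.cl k y, ?_, ?_, ?_, ?_, ?_⟩
  · have e1 : cnt C.p x h = (countPr (fun n => C.S.toW.yk C.V n) z : ℝ) -
        countPr (fun n => C.S.toW.yk C.V n) y := by
      unfold cnt
      have a1 := countPr_phi C.hR (y := C.S.toW.yk C.V) (fun n => C.S.toW.yk_nonneg C.hV n)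
        (x := x + h) (by linarith)
      have a2 := countPr_phi C.hR (y := C.S.toW.yk C.V) (fun n => C.S.toW.yk_nonneg C.hV n)
        (x := x) hx0
      change (countPr C.p (x + h) : ℝ) - _ = _
      have a1' : countPr C.p (x + h) = countPr (C.S.toW.yk C.V) z := a1
      have a2' : countPr C.p x = countPr (C.S.toW.yk C.V) y := a2
      rw [a1', a2']
    rw [e1]
    set cc := C.S.cl k z - C.S.cl k y with hcc
    have hc0 : 0 ≤ cc := by have := C.S.cl_mono (k := k) hyz; linarith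
    have hcW : cc ≤ C.S.Wd k := by
      have := C.S.cl_le k z
      have := C.S.cl_nonneg k y
      linarith
    have h5 := C.lam_le k
    have h6 := C.lam_ge k
    have h7 : 0 ≤ (C.ls k - C.S.lam k) * cc := mul_nonneg (by linarith) hc0
    have h8 : (C.ls k - C.S.lam k) * cc ≤ 1 :=
      (mul_le_mul_of_nonneg_left hcW (by linarith)).trans h6
    have h9 := abs_le.1 hci
    rw [abs_le]
    constructor <;> nlinarith [h9.1, h9.2]
  · have := C.S.cl_mono (k := k) hyz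
    linarith
  · exact C.S.cl_sub_le hyz
  · have := C.S.cl_le k z
    have := C.S.cl_nonneg k y
    linarith
  · intro hcc
    have hzA' : C.S.A k < z := by
      by_contra hc
      push Not at hc
      rw [C.S.cl_zero hc] at hcc
      have := C.S.cl_nonneg k y
      linarith
    have h1 : C.X k ≤ x + h := by
      rw [← hφz]; exact C.hR.phi_mono hzA'.le
    have h2 := C.E_le_two_X k
    constructor <;> linarith

include C in
/-- the length of the interval in the template -/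
theorem H_bd {h : ℝ → ℝ} (hh : ∀ᶠ x in atTop, 0 < h x ∧ h x ≤ x) {ε : ℝ} (hε : 0 < ε) :
    ∀ᶠ x in atTop,
    |(Fp (fZ Z) x₀ (x + h x) - Fp (fZ Z) x₀ x) - h x / Real.log x| ≤
      ε * (h x / Real.log x) := by
  filter_upwards [transfer C.hZ C.hR hε, eventually_gt_atTop 1, hh] with x hx1 hx3 hx4
  have hl := Real.log_pos hx3
  have hx2 : h x ≤ x := hx4.2
  have hh : 0 < h x := hx4.1
  have h1 := hx1.2 (x + h x) (by linarith) (by linarith)
  have e : x + h x - x = h x := by ring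
  rw [e] at h1
  set D := Fp (fZ Z) x₀ (x + h x) - Fp (fZ Z) x₀ x with hD
  have e2 : D - h x / Real.log x = (D * Real.log x - h x) / Real.log x := by
    field_simp
  rw [e2, abs_div, abs_of_pos hl, mul_div_assoc']
  exact div_le_div_of_nonneg_right h1 hl.le

/-- the length of the windows -/
theorem W_bd {ε : ℝ} (hε : 0 < ε) : ∀ᶠ k in atTop,
    |C.S.Wd k * Real.log (C.X k) - C.g k| ≤ ε * C.g k := by
  filter_upwards [C.X_tendsto.eventually (transfer C.hZ C.hR hε)] with k hk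
  have hX := C.E_le_two_X k
  have hXE : C.X k ≤ phi (fZ Z) x₀ (C.S.E k) := C.hR.phi_mono (C.A_le_E k)
  have h1 := hk.2 _ hXE hX
  have hA := C.hR.F_phi (C.A_nonneg k)
  have hE := C.hR.F_phi ((C.A_nonneg k).trans (C.A_le_E k))
  change Fp (fZ Z) x₀ (C.X k) = _ at hA
  rw [hA, hE] at h1
  have e1 : C.S.E k - C.S.A k = C.S.Wd k := by unfold Sch.E; ring
  have e2 : phi (fZ Z) x₀ (C.S.E k) - C.X k = C.g k := by
    rw [C.hE]; unfold X; ring
  rwa [e1, e2] at h1

theorem W_le : ∀ᶠ k in atTop, C.S.Wd k ≤ 2 * (C.g k / Real.log (C.X k)) := by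
  filter_upwards [C.W_bd one_pos] with k h1
  have h2 := (abs_le.1 h1).2
  have hl := C.two_le_logX k
  have hl0 : 0 < Real.log (C.X k) := by linarith
  rw [mul_div_assoc', le_div_iff₀ hl0]
  linarith

theorem W_ge : ∀ᶠ k in atTop, 1 / 2 * (C.g k / Real.log (C.X k)) ≤ C.S.Wd k := by
  filter_upwards [C.W_bd (by norm_num : (0 : ℝ) < 1 / 2)] with k h1
  have h2 := (abs_le.1 h1).1
  have hl := C.two_le_logX k
  have hl0 : 0 < Real.log (C.X k) := by linarith
  rw [mul_div_assoc', div_le_iff₀ hl0]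
  linarith

/-- `d` is dominated by `h` near every point. -/
def Dom (d h : ℝ → ℝ) : Prop :=
  ∃ B : ℝ, ∀ᶠ x in atTop, ∀ y, y ≤ 2 * x → x ≤ 2 * y → d y ≤ B * h x

/-- short windows are negligible, uniform form -/
theorem W_small {d h : ℝ → ℝ} (hh : ∀ᶠ x in atTop, 0 < h x ∧ h x ≤ x) (hd : Dom d h)
    {ε : ℝ} (hε : 0 < ε) : ∃ K : ℕ, ∃ X₁ : ℝ, ∀ k, K ≤ k →
      ((k : ℝ) + 1) ^ 3 * C.g k ≤ d (C.X k) → ∀ x, X₁ ≤ x → C.X k ≤ 2 * x →
      x ≤ 2 * C.X k → (k + 1) * C.S.Wd k ≤ ε * (h x / Real.log x) := by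
  obtain ⟨B, hB⟩ := hd
  obtain ⟨X₁, hX₁⟩ := eventually_atTop.1 (hB.and hh)
  have h1 : ∀ᶠ k : ℕ in atTop, 4 * |B| / ε ≤ (k : ℝ) :=
    tendsto_natCast_atTop_atTop.eventually_ge_atTop _
  obtain ⟨K, hK⟩ := eventually_atTop.1 (C.W_le.and h1)
  refine ⟨K, max X₁ 4, fun k hk hg x hx hx2 hx3 => ?_⟩
  obtain ⟨hk1, hk3⟩ := hK k hk
  have hx1' : X₁ ≤ x := (le_max_left _ _).trans hx
  have hx4 : 4 ≤ x := (le_max_right _ _).trans hx
  obtain ⟨hb1, hh0, hhx⟩ := hX₁ x hx1'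
  have h2 := hb1 (C.X k) hx2 hx3
  have hk0 : (0 : ℝ) < (k : ℝ) + 1 := by positivity
  have hk1' : (1 : ℝ) ≤ (k : ℝ) + 1 := by
    have : (0 : ℝ) ≤ k := Nat.cast_nonneg k
    linarith
  have hX1 := C.one_le_X k
  have hlX := C.two_le_logX k
  have hlX0 : 0 < Real.log (C.X k) := by linarith
  have hlx0 : 0 < Real.log x := Real.log_pos (by linarith)
  have hlX2 : Real.log x ≤ 2 * Real.log (C.X k) := by
    have h5 : Real.log (x / 2) ≤ Real.log (C.X k) :=
      Real.log_le_log (by linarith) (by linarith)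
    rw [Real.log_div (by linarith) (by norm_num)] at h5
    have h6 : 2 * Real.log 2 ≤ Real.log x := by
      have : Real.log (2 ^ 2) ≤ Real.log x := Real.log_le_log (by norm_num) (by norm_num; linarith)
      rw [Real.log_pow] at this
      exact_mod_cast this
    linarith
  have hg0 := C.hg0 k
  have hB0 : 0 ≤ |B| := abs_nonneg B
  have h3 : d (C.X k) ≤ |B| * h x :=
    h2.trans (mul_le_mul_of_nonneg_right (le_abs_self B) hh0.le)
  have h4 : (k + 1) * ((k + 1) * C.S.Wd k) ≤ 4 * |B| * (h x / Real.log x) := by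
    calc ((k : ℝ) + 1) * ((k + 1) * C.S.Wd k) ≤
          (k + 1) * ((k + 1) * (2 * (C.g k / Real.log (C.X k)))) := by gcongr
      _ = 2 * ((((k : ℝ) + 1) ^ 2 * C.g k) / Real.log (C.X k)) := by ring
      _ ≤ 2 * ((((k : ℝ) + 1) ^ 3 * C.g k) / Real.log (C.X k)) := by
          apply mul_le_mul_of_nonneg_left _ (by norm_num)
          apply div_le_div_of_nonneg_right _ hlX0.le
          apply mul_le_mul_of_nonneg_right _ hg0
          exact pow_le_pow_right₀ hk1' (by norm_num)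
      _ ≤ 2 * ((|B| * h x) / Real.log (C.X k)) := by
          apply mul_le_mul_of_nonneg_left _ (by norm_num)
          exact div_le_div_of_nonneg_right (hg.trans h3) hlX0.le
      _ ≤ 2 * ((|B| * h x) / (Real.log x / 2)) := by
          apply mul_le_mul_of_nonneg_left _ (by norm_num)
          apply div_le_div_of_nonneg_left (by positivity) (by positivity)
          linarith
      _ = 4 * |B| * (h x / Real.log x) := by field_simp; ring
  have hT : 0 ≤ h x / Real.log x := by positivity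
  rw [div_le_iff₀ hε] at hk3
  have h5 : (k + 1) * ((k + 1) * C.S.Wd k) ≤ (k + 1) * (ε * (h x / Real.log x)) := by
    refine h4.trans ?_
    nlinarith
  exact le_of_mul_le_mul_left h5 hk0

theorem up_bd {d h : ℝ → ℝ} (hh : ∀ᶠ x in atTop, 0 < h x ∧ h x ≤ x)
    (hlarge : Tendsto (fun x => h x / Real.log x) atTop atTop) (hd : Dom d h) {u : ℝ}
    (hu : 1 ≤ u) {i : ℕ}
    (hT : ∀ k, i ≤ k → C.ls k ≤ u ∨ ((k : ℝ) + 1) ^ 3 * C.g k ≤ d (C.X k)) {ε : ℝ} (hε : 0 < ε) :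
    ∀ᶠ x in atTop, cnt C.p x (h x) ≤ (u + ε) * (h x / Real.log x) := by
  obtain ⟨K₁, X₁, hK₁⟩ := C.W_small hh hd (by positivity : 0 < ε / 4)
  have hδ : 0 < ε / (4 * u) := by positivity
  filter_upwards [C.loc hh (max K₁ i), C.H_bd hh hδ,
    hlarge.eventually_ge_atTop (12 / ε), eventually_ge_atTop X₁,
    hlarge.eventually_gt_atTop 0] with x hx1 hx2 hx3 hx4 hT0
  obtain ⟨k, hk, cc, h1, h2, h3, h5, h6⟩ := hx1
  have hkK : K₁ ≤ k := (le_max_left _ _).trans hk
  have hki : i ≤ k := (le_max_right _ _).trans hk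
  set H := Fp (fZ Z) x₀ (x + h x) - Fp (fZ Z) x₀ x with hH
  set T := h x / Real.log x with hT'
  have h7 := (abs_le.1 h1).2
  have h8 := (abs_le.1 hx2).2
  have h9 : 3 ≤ ε / 4 * T := by
    rw [div_le_iff₀ hε] at hx3
    linarith
  have h10 : ε / (4 * u) * T ≤ ε / 4 * T := by
    apply mul_le_mul_of_nonneg_right _ hT0.le
    apply div_le_div_of_nonneg_left hε.le (by norm_num)
    linarith
  have h11 : u * (ε / (4 * u) * T) = ε / 4 * T := by field_simp
  have huT : T ≤ u * T := le_mul_of_one_le_left hT0.le hu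
  rcases eq_or_lt_of_le h2 with hcc | hcc
  · rw [← hcc, mul_zero, add_zero] at h7
    nlinarith
  rcases le_or_gt (C.ls k) 1 with hls | hls
  · have : (C.ls k - 1) * cc ≤ 0 := mul_nonpos_of_nonpos_of_nonneg (by linarith) h2
    nlinarith
  rcases hT k hki with hq | hq
  · have h12 : (C.ls k - 1) * cc ≤ (u - 1) * H := by
      apply mul_le_mul _ h3 h2 (by linarith)
      linarith
    have h13 : u * H ≤ u * (T + ε / (4 * u) * T) := by
      apply mul_le_mul_of_nonneg_left _ (by linarith)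
      linarith
    nlinarith
  · obtain ⟨h13, h14⟩ := h6 hcc
    have h15 := hK₁ k hkK hq x hx4 h13 h14
    have h16 : (C.ls k - 1) * cc ≤ (k + 1) * C.S.Wd k := by
      apply mul_le_mul _ h5 h2 (by positivity)
      linarith [C.hls1 k]
    nlinarith

theorem low_bd {d h : ℝ → ℝ} (hh : ∀ᶠ x in atTop, 0 < h x ∧ h x ≤ x)
    (hlarge : Tendsto (fun x => h x / Real.log x) atTop atTop) (hd : Dom d h) {l : ℝ}
    (hl0 : 0 ≤ l) (hl1 : l ≤ 1) {i : ℕ}
    (hT : ∀ k, i ≤ k → l ≤ C.ls k ∨ ((k : ℝ) + 1) ^ 3 * C.g k ≤ d (C.X k)) {ε : ℝ} (hε : 0 < ε) :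
    ∀ᶠ x in atTop, (l - ε) * (h x / Real.log x) ≤ cnt C.p x (h x) := by
  obtain ⟨K₁, X₁, hK₁⟩ := C.W_small hh hd (by positivity : 0 < ε / 4)
  filter_upwards [C.loc hh (max K₁ i), C.H_bd hh (by positivity : 0 < ε / 4),
    hlarge.eventually_ge_atTop (12 / ε), eventually_ge_atTop X₁,
    hlarge.eventually_gt_atTop 0] with x hx1 hx2 hx3 hx4 hT0
  obtain ⟨k, hk, cc, h1, h2, h3, h5, h6⟩ := hx1
  have hkK : K₁ ≤ k := (le_max_left _ _).trans hk
  have hki : i ≤ k := (le_max_right _ _).trans hk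
  set H := Fp (fZ Z) x₀ (x + h x) - Fp (fZ Z) x₀ x with hH
  set T := h x / Real.log x with hT'
  have h7 := (abs_le.1 h1).1
  have h8 := (abs_le.1 hx2).1
  have h9 : 3 ≤ ε / 4 * T := by
    rw [div_le_iff₀ hε] at hx3
    linarith
  have hlT : l * T ≤ T := mul_le_of_le_one_left hT0.le hl1
  rcases eq_or_lt_of_le h2 with hcc | hcc
  · rw [← hcc, mul_zero, add_zero] at h7
    nlinarith
  rcases le_or_gt 1 (C.ls k) with hls | hls
  · have : 0 ≤ (C.ls k - 1) * cc := mul_nonneg (by linarith) h2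
    nlinarith
  rcases hT k hki with h12 | hq
  · have h13 : (l - 1) * H ≤ (C.ls k - 1) * cc := by
      have h14 : (l - 1) * H ≤ (l - 1) * cc := mul_le_mul_of_nonpos_left h3 (by linarith)
      have h15 : (l - 1) * cc ≤ (C.ls k - 1) * cc := mul_le_mul_of_nonneg_right (by linarith) h2
      linarith
    have h16 : l * (T - ε / 4 * T) ≤ l * H := mul_le_mul_of_nonneg_left (by linarith) hl0
    have h17 : l * (ε / 4 * T) ≤ ε / 4 * T := mul_le_of_le_one_left (by positivity) hl1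
    nlinarith
  · obtain ⟨h13, h14⟩ := h6 hcc
    have h15 := hK₁ k hkK hq x hx4 h13 h14
    have h16 : -((k + 1) * C.S.Wd k) ≤ (C.ls k - 1) * cc := by
      have h17 : cc ≤ (k + 1) * C.S.Wd k := by
        have : (0 : ℝ) ≤ k := Nat.cast_nonneg k
        have hW := C.S.W0 k
        nlinarith
      have h18 : 0 ≤ C.ls k * cc := mul_nonneg (C.hls0 k) h2
      nlinarith
    nlinarith

theorem at_X {h : ℝ → ℝ} (hh : ∀ᶠ x in atTop, 0 < h x ∧ h x ≤ x)
    (hlarge : Tendsto (fun x => h x / Real.log x) atTop atTop) {ε : ℝ} (hε : 0 < ε) :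
    ∀ᶠ k : ℕ in atTop, h (C.X k) ≤ C.g k →
    |cnt C.p (C.X k) (h (C.X k)) - C.ls k * (h (C.X k) / Real.log (C.X k))| ≤
      ε * (1 + C.ls k) * (h (C.X k) / Real.log (C.X k)) := by
  filter_upwards [C.X_tendsto.eventually (C.H_bd hh hε),
    C.X_tendsto.eventually (hlarge.eventually_ge_atTop (3 / ε)),
    C.X_tendsto.eventually hh, C.X_tendsto.eventually (hlarge.eventually_gt_atTop 0)]
    with k hk1 hk2 hk3 hT0 hq
  have hx0 : x₀ ≤ C.X k := C.hR.phi_ge _
  have hX1 := C.one_lt_X k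
  obtain ⟨hh0, -⟩ := hk3
  set x := C.X k with hx
  set y := C.S.A k with hy
  set z := Fp (fZ Z) x₀ (x + h x) with hz
  have hFx : Fp (fZ Z) x₀ x = y := C.hR.F_phi (C.A_nonneg k)
  have hyz : y ≤ z := by rw [← hFx]; exact C.hR.F_mono hx0 (by linarith)
  have hzE : z ≤ C.S.E k := by
    have h1 : x + h x ≤ phi (fZ Z) x₀ (C.S.E k) := by
      rw [C.hE]
      change _ ≤ x + C.g k
      linarith
    have h2 := C.hR.F_mono (by linarith) h1
    rwa [C.hR.F_phi ((C.A_nonneg k).trans (C.A_le_E k))] at h2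
  have hmin : ∀ i < k, C.S.E i ≤ y := fun i hi => by
    have h1 := C.E_mono (by omega : i ≤ k - 1)
    have h2 := C.E_lt_A (k - 1)
    have e : k - 1 + 1 = k := by omega
    rw [e] at h2
    linarith
  have hci := C.S.count_incr C.hV (C.A_nonneg k) hyz hmin (lt_of_le_of_lt hzE (C.E_lt_A k))
  rw [C.S.cl_zero le_rfl, C.S.cl_mid hyz hzE, sub_zero] at hci
  have e1 : cnt C.p x (h x) = (countPr (fun n => C.S.toW.yk C.V n) z : ℝ) -
      countPr (fun n => C.S.toW.yk C.V n) y := by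
    have a1 : countPr C.p (x + h x) = countPr (C.S.toW.yk C.V) z :=
      countPr_phi C.hR (fun n => C.S.toW.yk_nonneg C.hV n) (by linarith)
    have a2 : countPr C.p x = countPr (C.S.toW.yk C.V) y := by
      rw [← hFx]
      exact countPr_phi C.hR (fun n => C.S.toW.yk_nonneg C.hV n) hx0
    unfold cnt
    rw [a1, a2]
  rw [← e1] at hci
  rw [hFx] at hk1
  set H := z - y with hH
  set T := h x / Real.log x with hT
  have hH0 : 0 ≤ H := by linarith
  have hHW : H ≤ C.S.Wd k := by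
    have : C.S.E k = y + C.S.Wd k := rfl
    linarith
  have h5 := C.lam_le k
  have h6 := C.lam_ge k
  have h7 : 0 ≤ (C.ls k - C.S.lam k) * H := mul_nonneg (by linarith) hH0
  have h8 : (C.ls k - C.S.lam k) * H ≤ 1 :=
    (mul_le_mul_of_nonneg_left hHW (by linarith)).trans h6
  have h9 := abs_le.1 hci
  have h10 := abs_le.1 hk1
  have h11 : 3 ≤ ε * T := by
    rw [div_le_iff₀ hε] at hk2
    linarith
  have hls0 := C.hls0 k
  have h12 : C.ls k * (H - T) ≤ C.ls k * (ε * T) := mul_le_mul_of_nonneg_left h10.2 hls0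
  have h13 : C.ls k * (-(ε * T)) ≤ C.ls k * (H - T) := mul_le_mul_of_nonneg_left h10.1 hls0
  rw [abs_le]
  constructor <;> nlinarith [h9.1, h9.2]

end GC

end Pool.Agent.H204.AS
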