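import Pool.Agent.H521.G.Maier6
import Pool.Agent.H204.AS.Gen

open MeasureTheory Set Filter Topology
open scoped ENNReal NNReal ComplexConjugate

namespace Pool.Agent.H204.AS

open Pool.Agent.H521 Pool.Agent.H521.G Pool.Agent.H204.SI

/-- slow variation on the scale of the function itself -/
def Reg (f : ℝ → ℝ) : Prop := ∀ ε : ℝ, 0 < ε → ∀ᶠ x in atTop, ∀ y, x ≤ y → y ≤ x + f x →
  |f y - f x| ≤ ε * f x

theorem Sc.dom {f : ℝ → ℝ} (s : Sc f) : GC.Dom f f := by
  obtain ⟨C, hC⟩ := s.dbl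
  obtain ⟨X₀, hX₀⟩ := eventually_atTop.1 (hC.and s.ge_one)
  refine ⟨max C 1, ?_⟩
  filter_upwards [eventually_ge_atTop (max (2 * X₀) 0), eventually_ge_atTop X₀] with x hx hx' y hy1 hy2
  have hx1 : 2 * X₀ ≤ x := (le_max_left _ _).trans hx
  have hx0 : 0 ≤ x := (le_max_right _ _).trans hx
  have hy0 : X₀ ≤ y := by linarith
  have hfx := (hX₀ x hx').2
  rcases le_total x y with h | h
  · have h1 := ((hX₀ x hx').1 y h hy1).1
    refine h1.trans ?_
    exact mul_le_mul_of_nonneg_right (le_max_left _ _) (by linarith)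
  · have h1 := ((hX₀ y hy0).1 x h hy2).2
    refine h1.trans ?_
    exact mul_le_mul_of_nonneg_right (le_max_left _ _) (by linarith)

namespace GC

variable {Z : Multiset ℂ} {x₀ : ℝ} (C : GC Z x₀)

theorem kap_tendsto : Tendsto C.S.kap atTop atTop := by
  rw [tendsto_atTop_atTop]
  intro k
  refine ⟨C.S.J k, fun j hj => ?_⟩
  have := C.S.kap_mono hj
  rwa [C.S.kap_J] at this

/-- gaps in the `y`-coordinate -/
theorem y_gap (n : ℕ) :
    (C.S.J (C.S.kap (blk C.S.toW.n n)) ≠ blk C.S.toW.n n ∧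
      C.S.toW.yk C.V (n + 1) - C.S.toW.yk C.V n ≤ 2) ∨
    (C.S.J (C.S.kap (blk C.S.toW.n n)) = blk C.S.toW.n n ∧ 0 < C.S.r (C.S.kap (blk C.S.toW.n n)) ∧
      C.S.toW.yk C.V (n + 1) - C.S.toW.yk C.V n ≤
        1 + C.S.Wd (C.S.kap (blk C.S.toW.n n)) / C.S.r (C.S.kap (blk C.S.toW.n n))) ∨
    (C.S.J (C.S.kap (blk C.S.toW.n n)) = blk C.S.toW.n n ∧
      C.S.r (C.S.kap (blk C.S.toW.n n)) = 0) := by
  set j := blk C.S.toW.n n with hj
  set k := C.S.kap j with hk
  by_cases hJ : C.S.J k = j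
  · rcases Nat.eq_zero_or_pos (C.S.r k) with hr | hr
    · right; right; exact ⟨hJ, hr⟩
    · right; left
      refine ⟨hJ, hr, ?_⟩
      have hW := C.S.rW _ hr
      have hr' : (0 : ℝ) < C.S.r k := by exact_mod_cast hr
      have hWr : 0 < C.S.Wd k / C.S.r k := by positivity
      have hnj : C.S.toW.n j = C.S.r k + 1 := by
        change (if C.S.J (C.S.kap j) = j then C.S.r (C.S.kap j) else 0) + 1 = _
        rw [← hk, if_pos hJ]
      have ht : ∀ l : ℕ, C.S.toW.t j l = C.S.Y j + 1 + l * (C.S.Wd k / C.S.r k) := fun l => rfl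
      have hYs : C.S.toW.Y (j + 1) = C.S.Y j + 1 + C.S.Wd k := by
        change C.S.Y (j + 1) = _
        rw [C.S.Y_succ, ← hk, if_pos hJ]
      rcases blk_succ C.S.toW.n_pos n with ⟨h1, h2, h3⟩ | ⟨h1, h2, h3⟩
      · rw [← hj] at h1 h2
        have e1 : C.S.toW.yk C.V (n + 1) = C.S.toW.t j (pos C.S.toW.n n) := by
          unfold Wdata.yk
          rw [h2, h3, if_neg (Nat.succ_ne_zero _)]
          rfl
        rw [e1, ht]
        rcases Nat.eq_zero_or_pos (pos C.S.toW.n n) with h0 | h0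
        · have e2 : C.S.toW.yk C.V n = C.S.toW.Y j + C.V j := by
            unfold Wdata.yk
            rw [h0, if_pos rfl, ← hj]
          rw [e2, h0]
          change C.S.Y j + 1 + _ - (C.S.Y j + C.V j) ≤ _
          have := (C.hV j).1
          push_cast
          linarith
        · obtain ⟨l, hl⟩ : ∃ l, pos C.S.toW.n n = l + 1 := ⟨pos C.S.toW.n n - 1, by omega⟩
          have e2 : C.S.toW.yk C.V n = C.S.toW.t j l := by
            unfold Wdata.yk
            rw [hl, if_neg (Nat.succ_ne_zero _), ← hj]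
            rfl
          rw [e2, ht, hl]
          push_cast
          linarith
      · rw [← hj] at h1 h2
        have e1 : C.S.toW.yk C.V (n + 1) = C.S.toW.Y (j + 1) + C.V (j + 1) := by
          unfold Wdata.yk
          rw [h2, h3, if_pos rfl]
        obtain ⟨l, hl⟩ : ∃ l, pos C.S.toW.n n = l + 1 := ⟨pos C.S.toW.n n - 1, by omega⟩
        have e2 : C.S.toW.yk C.V n = C.S.toW.t j l := by
          unfold Wdata.yk
          rw [hl, if_neg (Nat.succ_ne_zero _), ← hj]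
          rfl
        rw [e1, e2, ht, hYs]
        have hlr : (l : ℝ) + 1 = C.S.r k := by
          have : l + 1 = C.S.r k := by omega
          exact_mod_cast this
        have h4 : (l : ℝ) * (C.S.Wd k / C.S.r k) = C.S.Wd k - C.S.Wd k / C.S.r k := by
          rw [← hlr]
          have : (l : ℝ) + 1 ≠ 0 := by positivity
          field_simp
          ring
        have := (C.hV (j + 1)).2
        linarith
  · left
    refine ⟨hJ, ?_⟩
    have h1 := (C.S.toW.yk_step C.hV n).2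
    rw [← hj] at h1
    change _ ≤ 2 + (if C.S.J (C.S.kap j) = j then C.S.Wd (C.S.kap j) else 0) at h1
    rw [← hk, if_neg hJ, add_zero] at h1
    exact h1

theorem p_ge (n : ℕ) : phi (fZ Z) x₀ (C.S.Y (blk C.S.toW.n n)) ≤ C.p n :=
  C.hR.phi_mono (C.S.toW.Y_le_yk C.hV n)

theorem yk_nonneg (n : ℕ) : 0 ≤ C.S.toW.yk C.V n := C.S.toW.yk_nonneg C.hV n

theorem yk_tendsto : Tendsto (C.S.toW.yk C.V) atTop atTop := C.S.toW.yk_tendsto C.hV

theorem p_tendsto : Tendsto C.p atTop atTop := C.hR.phi_tendsto.comp C.yk_tendsto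

theorem p_strictMono : StrictMono C.p := fun _ _ h =>
  C.hR.phi_lt (C.yk_nonneg _) (C.S.toW.yk_strictMono C.hV h)

/-- estimates in a window block -/
theorem win {n : ℕ} {k : ℕ} (hk : k = C.S.kap (blk C.S.toW.n n))
    (hJ : C.S.J k = blk C.S.toW.n n) :
    C.p (n + 1) ≤ phi (fZ Z) x₀ (C.S.E k + 1) ∧ C.X k ≤ C.p n + 4 * Real.log (C.X k) ∧
      C.X k ≤ 2 * C.p n ∧ C.p n ≤ 2 * C.X k ∧ (C.S.r k = 0 → C.p n ≤ C.X k) := by
  set j := blk C.S.toW.n n with hj
  have hA : C.S.A k = C.S.Y j + 1 := by rw [hk]; exact C.S.A_eq (by rw [← hk]; exact hJ)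
  have hYj0 : 0 ≤ C.S.Y j := C.S.toW.Y_nonneg j
  have hYs : C.S.Y (j + 1) = C.S.E k := by
    rw [C.S.Y_succ, ← hk, if_pos hJ]; unfold Sch.E; rw [hA]
  have h1 : C.S.toW.yk C.V (n + 1) ≤ C.S.E k + 1 := by
    rcases blk_succ C.S.toW.n_pos n with ⟨-, h2, -⟩ | ⟨-, h2, h3⟩
    · have h4 := C.S.toW.yk_lt_Y C.hV (n + 1)
      rw [h2, ← hj] at h4
      change _ < C.S.Y (j + 1) at h4
      linarith
    · have e1 : C.S.toW.yk C.V (n + 1) = C.S.Y (j + 1) + C.V (j + 1) := by
        unfold Wdata.yk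
        rw [h2, h3, if_pos rfl, ← hj]
        rfl
      rw [e1]
      linarith [(C.hV (j + 1)).2]
  have h5 := C.p_ge n
  rw [← hj] at h5
  have h6 := C.hR.phi_cell hYj0
  rw [← hA] at h6
  have h7 := C.hR.phi_cell_two hYj0
  rw [← hA] at h7
  have h8 : Real.log (phi (fZ Z) x₀ (C.S.Y j)) ≤ Real.log (C.X k) :=
    Real.log_le_log (C.hR.phi_pos _) (C.hR.phi_mono (by linarith))
  change C.X k - _ ≤ _ at h6
  change C.X k ≤ _ at h7
  have h9 : C.p n ≤ 2 * C.X k := by
    have h10 := C.S.toW.yk_lt_Y C.hV n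
    rw [← hj] at h10
    change _ < C.S.Y (j + 1) at h10
    rw [hYs] at h10
    exact (C.hR.phi_mono h10.le).trans (C.E_le_two_X k)
  refine ⟨C.hR.phi_mono h1, by linarith, by linarith, h9, fun hr => ?_⟩
  have hnj : C.S.toW.n j = 1 := by
    change (if C.S.J (C.S.kap j) = j then C.S.r (C.S.kap j) else 0) + 1 = _
    rw [← hk, if_pos hJ, hr]
  have hpos : pos C.S.toW.n n = 0 := by
    have := pos_lt C.S.toW.n_pos n
    rw [← hj, hnj] at this
    omega
  have e2 : C.S.toW.yk C.V n = C.S.toW.Y j + C.V j := by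
    unfold Wdata.yk
    rw [hpos, if_pos rfl, ← hj]
  unfold p X
  rw [e2, hA]
  apply C.hR.phi_mono
  change C.S.Y j + C.V j ≤ _
  linarith [(C.hV j).2]

theorem gfinA {c ε : ℝ} (hc : 0 ≤ c) (hε : 0 < ε) : 0 < ε / (2 * (c + 1)) ∧
    ε / (2 * (c + 1)) * c ≤ ε / 2 := by
  have h1 : (0 : ℝ) < 2 * (c + 1) := by linarith
  refine ⟨by positivity, ?_⟩
  rw [div_mul_eq_mul_div, div_le_iff₀ h1]
  nlinarith

/-- **Upper bound for the gaps.** -/
theorem gap_up {f : ℝ → ℝ} (sf : Sc f) (rf : Reg f) {c : ℝ} (hc : 0 ≤ c) {i₀ : ℕ}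
    (hT : ∀ k, i₀ ≤ k → (C.S.r k = 0 ∧ C.g k ≤ c * f (C.X k)) ∨
      (1 / ((k : ℝ) + 1) ≤ C.ls k ∧ ((k : ℝ) + 1) ^ 4 ≤ C.g k / Real.log (C.X k)))
    (hf : ∀ k : ℕ, i₀ ≤ k → ((k : ℝ) + 1) ^ 2 * Real.log (C.X k) ≤ f (C.X k))
    {ε : ℝ} (hε : 0 < ε) :
    ∀ᶠ n in atTop, C.p (n + 1) - C.p n ≤ (c + ε) * f (C.p n) := by
  have hkt : Tendsto (fun n => C.S.kap (blk C.S.toW.n n)) atTop atTop :=
    C.kap_tendsto.comp (blk_tendsto C.S.toW.n_pos)
  obtain ⟨B, hB⟩ := sf.dom
  obtain ⟨hδ0, hδc⟩ := gfinA hc hε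
  set δ : ℝ := ε / (2 * (c + 1)) with hδ
  have h0 : ∀ᶠ k : ℕ in atTop, 1 ≤ k := eventually_ge_atTop 1
  have h48 : ∀ᶠ k : ℕ in atTop, 24 * |B| / ε ≤ (k : ℝ) :=
    tendsto_natCast_atTop_atTop.eventually_ge_atTop _
  filter_upwards [hkt.eventually C.W_ge, hkt.eventually h0, hkt.eventually h48,
    hkt.eventually_ge_atTop i₀, C.p_tendsto.eventually (sf.large.eventually_ge_atTop (48 / ε)),
    C.p_tendsto.eventually (sf.large.eventually_ge_atTop 16),
    (Real.tendsto_log_atTop.comp C.p_tendsto).eventually_ge_atTop 2,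
    C.p_tendsto.eventually hB, C.p_tendsto.eventually (rf δ hδ0)]
    with n hn1 hn2 hn3 hn4 hn5 hn6 hn7 hn8 hn9
  change 2 ≤ Real.log (C.p n) at hn7
  set j := blk C.S.toW.n n with hj
  set k := C.S.kap j with hk
  have hp0 : 0 < C.p n := C.hR.phi_pos _
  have hp1 : 0 < C.p (n + 1) := C.hR.phi_pos _
  have hlp0 : 0 < Real.log (C.p n) := by linarith
  rw [le_div_iff₀ hlp0] at hn5 hn6
  have hfp : 0 < f (C.p n) := by linarith
  have h48' : 48 * Real.log (C.p n) ≤ ε * f (C.p n) := by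
    rw [div_mul_eq_mul_div, div_le_iff₀ hε] at hn5
    linarith
  have hlog2 := Real.log_two_lt_d9
  have hgapx : C.p (n + 1) - C.p n ≤ (C.S.toW.yk C.V (n + 1) - C.S.toW.yk C.V n) *
      (2 * Real.log (C.p (n + 1))) :=
    C.hR.phi_sub_le (C.yk_nonneg n) (C.S.toW.yk_step C.hV n).1.le
  have hcf : 0 ≤ c * f (C.p n) := by positivity
  have hEk0 : 0 ≤ C.S.E k := (C.A_nonneg k).trans (C.A_le_E k)
  rcases C.y_gap n with ⟨hJ, h1⟩ | ⟨hJ, hr, h1⟩ | ⟨hJ, hr⟩
  · -- regular block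
    have h2 : C.p (n + 1) ≤ 4 * C.p n := by
      have h3 : C.p (n + 1) ≤ phi (fZ Z) x₀ (C.S.toW.yk C.V n + 1 + 1) :=
        C.hR.phi_mono (by linarith)
      have h4 := C.hR.phi_cell_two (by linarith [C.yk_nonneg n] : 0 ≤ C.S.toW.yk C.V n + 1)
      have h5 := C.hR.phi_cell_two (C.yk_nonneg n)
      change _ ≤ 2 * C.p n at h5
      linarith
    have h6 : Real.log (C.p (n + 1)) ≤ 2 * Real.log (C.p n) := by
      have h7 := Real.log_le_log hp1 h2
      rw [show (4 : ℝ) * C.p n = 2 * (2 * C.p n) by ring, Real.log_mul (by norm_num)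
        (by positivity), Real.log_mul (by norm_num) hp0.ne'] at h7
      linarith
    have h8 : 0 ≤ Real.log (C.p (n + 1)) :=
      Real.log_nonneg (C.hR.phi_one_le _)
    have h9 : C.p (n + 1) - C.p n ≤ 2 * (2 * (2 * Real.log (C.p n))) := by
      refine hgapx.trans ?_
      apply mul_le_mul h1 _ (by linarith) (by norm_num)
      linarith
    linarith
  · -- window with points
    rw [← hj, ← hk] at hJ hr h1
    obtain ⟨h2, -, h3, h3', -⟩ := C.win (n := n) (k := k) rfl hJ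
    have hX1 := C.one_le_X k
    have hlX := C.two_le_logX k
    have hk0 : (0 : ℝ) < (k : ℝ) + 1 := by positivity
    have hk2 : (2 : ℝ) ≤ (k : ℝ) + 1 := by
      have : (1 : ℝ) ≤ k := by exact_mod_cast hn2
      linarith
    have hr' : (0 : ℝ) < C.S.r k := by exact_mod_cast hr
    have hW := C.S.rW _ hr
    have hEX := C.E_le_two_X k
    have h4 : C.p (n + 1) ≤ 4 * C.X k := by
      have := C.hR.phi_cell_two hEk0
      linarith
    have hlp : Real.log (C.p (n + 1)) ≤ 2 * Real.log (C.X k) := by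
      have h7 := Real.log_le_log hp1 h4
      rw [show (4 : ℝ) * C.X k = 2 * (2 * C.X k) by ring, Real.log_mul (by norm_num)
        (by positivity), Real.log_mul (by norm_num) (by positivity)] at h7
      linarith
    rcases hT k hn4 with ⟨hr0, -⟩ | ⟨hls, hg⟩
    · omega
    have h5 : (((k : ℝ) + 1) ^ 4) / 2 ≤ C.S.Wd k := by linarith
    have h7 : C.ls k * C.S.Wd k < C.S.r k + 1 := by
      rw [C.hr]; exact Nat.lt_floor_add_one _
    have h8 : C.S.Wd k / (k + 1) ≤ C.ls k * C.S.Wd k := by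
      rw [div_eq_mul_inv, mul_comm, ← one_div]
      exact mul_le_mul_of_nonneg_right hls hW.le
    have h9 : 2 * ((k : ℝ) + 1) ≤ C.S.Wd k := gfin4 hk2 h5
    have h10 : C.S.Wd k / (2 * (k + 1)) ≤ C.S.r k := by
      have h11 : 2 ≤ C.S.Wd k / (k + 1) := by rw [le_div_iff₀ hk0]; exact h9
      have h12 : C.S.Wd k / (2 * (k + 1)) = C.S.Wd k / (k + 1) / 2 := by
        field_simp
      rw [h12]
      linarith
    have hs : C.S.Wd k / C.S.r k ≤ 2 * (k + 1) := by
      rw [div_le_iff₀ hr']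
      rw [div_le_iff₀ (by positivity)] at h10
      linarith
    have h13 : 0 ≤ Real.log (C.p (n + 1)) := Real.log_nonneg (C.hR.phi_one_le _)
    have h14 : C.p (n + 1) - C.p n ≤ (3 * (k + 1)) * (2 * (2 * Real.log (C.X k))) := by
      refine hgapx.trans ?_
      apply mul_le_mul _ (by linarith) (by linarith) (by positivity)
      linarith
    have h15 := hf k hn4
    have h16 : f (C.X k) ≤ |B| * f (C.p n) :=
      (hn8 _ h3 h3').trans (mul_le_mul_of_nonneg_right (le_abs_self B) hfp.le)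
    have h17 : ((k : ℝ) + 1) * (12 * ((k + 1) * Real.log (C.X k))) ≤
        (k + 1) * (ε * f (C.p n)) := by
      have h18 : 24 * |B| ≤ k * ε := by rwa [div_le_iff₀ hε] at hn3
      have h19 : 0 ≤ |B| * f (C.p n) := mul_nonneg (abs_nonneg _) hfp.le
      have h20 : 12 * (|B| * f (C.p n)) ≤ (k + 1) * (ε * f (C.p n)) := by
        have : 12 * |B| * f (C.p n) ≤ (k + 1) * ε * f (C.p n) := by
          apply mul_le_mul_of_nonneg_right _ hfp.le
          have := abs_nonneg B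
          nlinarith
        linarith
      have h21 : ((k : ℝ) + 1) * (12 * ((k + 1) * Real.log (C.X k))) =
          12 * (((k : ℝ) + 1) ^ 2 * Real.log (C.X k)) := by ring
      rw [h21]
      linarith
    have h22 := le_of_mul_le_mul_left h17 hk0
    linarith
  · -- empty window
    rw [← hj, ← hk] at hJ hr
    obtain ⟨g1, g2, h3, -, g5⟩ := C.win (n := n) (k := k) rfl hJ
    have hpX := g5 hr
    have hX1 := C.one_le_X k
    have hlX := C.two_le_logX k
    have hEX := C.E_le_two_X k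
    have hgc : C.g k ≤ c * f (C.X k) := by
      rcases hT k hn4 with ⟨-, h⟩ | ⟨hls, hg⟩
      · exact h
      · exfalso
        have hk2 : (2 : ℝ) ≤ (k : ℝ) + 1 := by
          have : (1 : ℝ) ≤ k := by exact_mod_cast hn2
          linarith
        have h7 : C.ls k * C.S.Wd k < C.S.r k + 1 := by
          rw [C.hr]; exact Nat.lt_floor_add_one _
        rw [hr, Nat.cast_zero, zero_add] at h7
        have h9 : ((k : ℝ) + 1) ≤ C.S.Wd k := by
          have := gfin4 hk2 (by linarith : ((k : ℝ) + 1) ^ 4 / 2 ≤ C.S.Wd k)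
          linarith
        have h10 : 1 / ((k : ℝ) + 1) * ((k : ℝ) + 1) ≤ C.ls k * C.S.Wd k :=
          mul_le_mul hls h9 (by positivity) (C.hls0 k)
        rw [one_div, inv_mul_cancel₀ (by positivity)] at h10
        linarith
    have hlXp : Real.log (C.X k) ≤ 2 * Real.log (C.p n) := by
      have h7 := Real.log_le_log (by linarith : 0 < C.X k) h3
      rw [Real.log_mul (by norm_num) hp0.ne'] at h7
      linarith
    have h5 : C.p (n + 1) - C.p n ≤ c * f (C.X k) + 12 * Real.log (C.X k) := by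
      have g3 := C.hR.phi_cell hEk0
      have g4 : phi (fZ Z) x₀ (C.S.E k) = C.X k + C.g k := C.hE k
      have g6 : Real.log (phi (fZ Z) x₀ (C.S.E k)) ≤ 2 * Real.log (C.X k) := by
        have g7 := Real.log_le_log (C.hR.phi_pos _) hEX
        rw [Real.log_mul (by norm_num) (by positivity)] at g7
        linarith
      linarith
    have h6 : f (C.X k) ≤ (1 + δ) * f (C.p n) := by
      have h7 := (abs_le.1 (hn9 (C.X k) hpX (by linarith))).2
      linarith
    have h8 : c * f (C.X k) ≤ c * ((1 + δ) * f (C.p n)) := mul_le_mul_of_nonneg_left h6 hc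
    have h9 : δ * c * f (C.p n) ≤ ε / 2 * f (C.p n) := mul_le_mul_of_nonneg_right hδc hfp.le
    nlinarith

/-- **Lower bound for the gaps at empty windows.** -/
theorem gap_low {k : ℕ} (hr : C.S.r k = 0) :
    ∃ n, k ≤ n ∧ C.p n ≤ C.X k ∧ C.X k ≤ C.p n + 4 * Real.log (C.X k) ∧ C.X k ≤ 2 * C.p n ∧
      C.g k ≤ C.p (n + 1) - C.p n := by
  set j := C.S.J k with hj
  have hkj : C.S.kap j = k := C.S.kap_J k
  refine ⟨KK C.S.toW.n j, (C.S.Jm.le_apply.trans (KK_ge C.S.toW.n_pos j)), ?_⟩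
  have h1 : C.S.toW.yk C.V (KK C.S.toW.n j) = C.S.Y j + C.V j := C.S.toW.yk_zero C.V j
  have hn : C.S.toW.n j = 1 := by
    change (if C.S.J (C.S.kap j) = j then C.S.r (C.S.kap j) else 0) + 1 = _
    rw [hkj, if_pos hj.symm, hr]
  have h2 : C.S.toW.yk C.V (KK C.S.toW.n j + 1) = C.S.Y (j + 1) + C.V (j + 1) := by
    have := C.S.toW.yk_zero C.V (j + 1)
    rwa [KK_succ, hn] at this
  have hA : C.S.A k = C.S.Y j + 1 := by
    have := C.S.A_eq (j := j) (by rw [hkj])
    rwa [hkj] at this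
  have hE : C.S.Y (j + 1) = C.S.E k := by
    rw [C.S.Y_succ, hkj, if_pos hj.symm]
    unfold Sch.E
    rw [hA]
  have hYj0 : 0 ≤ C.S.Y j := C.S.toW.Y_nonneg j
  have h3 : C.p (KK C.S.toW.n j) ≤ C.X k := by
    unfold p X
    rw [h1, hA]
    exact C.hR.phi_mono (by linarith [(C.hV j).2])
  have h3' : phi (fZ Z) x₀ (C.S.Y j) ≤ C.p (KK C.S.toW.n j) := by
    unfold p
    rw [h1]
    exact C.hR.phi_mono (by linarith [(C.hV j).1])
  have h4 : phi (fZ Z) x₀ (C.S.E k) ≤ C.p (KK C.S.toW.n j + 1) := by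
    unfold p
    rw [h2, hE]
    exact C.hR.phi_mono (by linarith [(C.hV (j + 1)).1])
  have h5 : phi (fZ Z) x₀ (C.S.E k) = C.X k + C.g k := C.hE k
  have h6 := C.hR.phi_cell hYj0
  rw [← hA] at h6
  have h7 := C.hR.phi_cell_two hYj0
  rw [← hA] at h7
  have h8 : Real.log (phi (fZ Z) x₀ (C.S.Y j)) ≤ Real.log (C.X k) :=
    Real.log_le_log (C.hR.phi_pos _) (C.hR.phi_mono (by linarith))
  change C.X k - _ ≤ _ at h6
  change C.X k ≤ _ at h7
  exact ⟨h3, by linarith, by linarith, by linarith⟩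

end GC

end Pool.Agent.H204.AS
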