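import Pool.Agent.H521.G.Maier7
import Pool.Agent.H204.AS.Sched3
import Pool.Agent.H204.AS.GGap
import Pool.Agent.H204.AS.Exc

open MeasureTheory Set Filter Topology
open scoped ENNReal NNReal ComplexConjugate

namespace Pool.Agent.H204.AS

open Pool.Agent.H521 Pool.Agent.H521.G Pool.Agent.H204.SI

theorem exists_expoI {I : Set ℝ} (hne : I.Nonempty) {L U : ℝ → ℝ≥0∞}
    (hL : MonotoneOn L I) (hU : AntitoneOn U I) :
    ∃ Q : ℕ → ℝ, (∀ i, Q i ∈ I) ∧ ∀ f, f = L ∨ f = U → ∀ b ∈ I, ∀ O ∈ 𝓝 (f b),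
      (∃ i, Q i ≤ b ∧ f (Q i) ∈ O) ∧ ∃ i, b ≤ Q i ∧ f (Q i) ∈ O := by
  classical
  obtain ⟨a₀, ha₀⟩ := hne
  set q : ℚ × ℚ → ℝ := fun r => if h : (I ∩ Ioo (r.1 : ℝ) r.2).Nonempty then h.some else a₀ with hq
  have hqI : ∀ r, q r ∈ I := fun r => by
    rw [hq]
    by_cases h : (I ∩ Ioo (r.1 : ℝ) r.2).Nonempty
    · simp only [h, dite_true]; exact h.some_mem.1
    · simp only [h, dite_false]; exact ha₀
  have hqr : ∀ x ∈ I, ∀ u v : ℝ, u < x → x < v → ∃ r, u < q r ∧ q r < v := by
    intro x hx u v hu hv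
    obtain ⟨r1, h1, h2⟩ := exists_rat_btwn hu
    obtain ⟨r2, h3, h4⟩ := exists_rat_btwn hv
    have h : (I ∩ Ioo (r1 : ℝ) r2).Nonempty := ⟨x, hx, h2, h3⟩
    refine ⟨(r1, r2), ?_⟩
    have e : q (r1, r2) = h.some := by
      rw [hq]; simp only [h, dite_true]
    rw [e]
    have := h.some_mem.2
    exact ⟨h1.trans this.1, this.2.trans h4⟩
  set D : Set ℝ := (range q ∪ ({x ∈ I | ¬ContinuousWithinAt L I x} ∪
    {x ∈ I | ¬ContinuousWithinAt U I x})) ∪
      ({x ∈ I | 𝓝[I ∩ Ioi x] x = ⊥} ∪ {x ∈ I | 𝓝[I ∩ Iio x] x = ⊥}) with hD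
  have hDc : D.Countable := ((countable_range _).union
    (hL.countable_not_continuousWithinAt.union hU.countable_not_continuousWithinAt)).union
      (countable_setOfPred_isolated_right_within.union countable_setOfPred_isolated_left_within)
  have hDne : D.Nonempty := ⟨q 0, Or.inl (Or.inl ⟨0, rfl⟩)⟩
  obtain ⟨Q, hQ⟩ := hDc.exists_eq_range hDne
  have hmem : ∀ x ∈ D, ∃ i, Q i = x := fun x hx => by rw [hQ] at hx; exact hx
  refine ⟨Q, fun i => ?_, fun f hf b hb O hO => ?_⟩
  · have : Q i ∈ D := by rw [hQ]; exact ⟨i, rfl⟩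
    rcases this with (⟨r, h⟩ | h | h) | h | h
    · rw [← h]; exact hqI r
    · exact h.1
    · exact h.1
    · exact h.1
    · exact h.1
  · by_cases hbD : b ∈ D
    · obtain ⟨i, hi⟩ := hmem b hbD
      exact ⟨⟨i, hi.le, by rw [hi]; exact mem_of_mem_nhds hO⟩,
        ⟨i, hi.ge, by rw [hi]; exact mem_of_mem_nhds hO⟩⟩
    · have hc : ContinuousWithinAt f I b := by
        by_contra hc
        apply hbD
        rcases hf with rfl | rfl
        · exact Or.inl (Or.inr (Or.inl ⟨hb, hc⟩))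
        · exact Or.inl (Or.inr (Or.inr ⟨hb, hc⟩))
      have hr : (𝓝[I ∩ Ioi b] b).NeBot := ⟨fun h => hbD (Or.inr (Or.inl ⟨hb, h⟩))⟩
      have hl : (𝓝[I ∩ Iio b] b).NeBot := ⟨fun h => hbD (Or.inr (Or.inr ⟨hb, h⟩))⟩
      have h : ∀ᶠ x in 𝓝[I] b, f x ∈ O := hc.eventually hO
      rw [eventually_nhdsWithin_iff] at h
      obtain ⟨δ, hδ, hball⟩ := Metric.eventually_nhds_iff.1 h
      have hδ1 : ∀ᶠ x in 𝓝 b, b - δ < x ∧ x < b + δ :=
        (eventually_gt_nhds (by linarith)).and (eventually_lt_nhds (by linarith))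
      constructor
      · obtain ⟨x, hx1, hx2⟩ := ((hδ1.filter_mono nhdsWithin_le_nhds).and
          (self_mem_nhdsWithin : I ∩ Iio b ∈ 𝓝[I ∩ Iio b] b)).exists
        obtain ⟨r, hr1, hr2⟩ := hqr x hx2.1 (b - δ) b hx1.1 hx2.2
        obtain ⟨i, hi⟩ := hmem (q r) (Or.inl (Or.inl ⟨r, rfl⟩))
        exact ⟨i, by rw [hi]; exact hr2.le, by
          rw [hi]
          exact hball (by rw [Real.dist_eq, abs_lt]; constructor <;> linarith) (hqI r)⟩
      · obtain ⟨x, hx1, hx2⟩ := ((hδ1.filter_mono nhdsWithin_le_nhds).and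
          (self_mem_nhdsWithin : I ∩ Ioi b ∈ 𝓝[I ∩ Ioi b] b)).exists
        obtain ⟨r, hr1, hr2⟩ := hqr x hx2.1 b (b + δ) hx2.2 hx1.2
        obtain ⟨i, hi⟩ := hmem (q r) (Or.inl (Or.inl ⟨r, rfl⟩))
        exact ⟨i, by rw [hi]; exact hr1.le, by
          rw [hi]
          exact hball (by rw [Real.dist_eq, abs_lt]; constructor <;> linarith) (hqI r)⟩

/-- A chain of scale functions, together with an order function for the gaps. -/
structure Fam (I : Set ℝ) (h : ℝ → ℝ → ℝ) (f : ℝ → ℝ) : Prop where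
  sc : ∀ t ∈ I, Sc (h t)
  ord : ∀ s ∈ I, ∀ t ∈ I, s < t → Tendsto (fun x => h s x / h t x) atTop (𝓝 0)
  fsc : Sc f
  freg : Reg f
  fcmp : ∀ t ∈ I, Tendsto (fun x => h t x / f x) atTop (𝓝 0) ∨
    Tendsto (fun x => f x / h t x) atTop (𝓝 0)

/-- the window length of task `k` -/
noncomputable def gg (c : ℝ≥0∞) (h : ℝ → ℝ → ℝ) (f : ℝ → ℝ) (Q : ℕ → ℝ) (k : ℕ) (x : ℝ) : ℝ :=
  if (Nat.unpair k).2 % 3 = 2 then tc c k * max (f x) 0 else max (h (Q (Nat.unpair k).1) x) 0

theorem gg_nonneg (c : ℝ≥0∞) (h : ℝ → ℝ → ℝ) (f : ℝ → ℝ) (Q : ℕ → ℝ) (k : ℕ) (x : ℝ) :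
    0 ≤ gg c h f Q k x := by
  unfold gg
  split_ifs
  · exact mul_nonneg (tc_nonneg c k) (le_max_right _ _)
  · exact le_max_right _ _

/-- the readiness predicate -/
def PQ (c : ℝ≥0∞) (h : ℝ → ℝ → ℝ) (f : ℝ → ℝ) (Q ls : ℕ → ℝ) (k : ℕ) (x : ℝ) : Prop :=
  (1 + ls k) * gg c h f Q k x ≤ ((k : ℝ) + 2) * x ^ (1 / 2 + 1 / ((k : ℝ) + 1)) ∧ (2 : ℝ) ^ k ≤ x ∧
  (0 < f x ∧ 0 < h (Q (Nat.unpair k).1) x) ∧
  ((k : ℝ) + 1) ^ 2 * Real.log x ≤ f x ∧
  ((Nat.unpair k).2 % 3 ≠ 2 → ((k : ℝ) + 1) ^ 4 ≤ gg c h f Q k x / Real.log x) ∧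
  (∀ i ≤ k, Tendsto (fun x => gg c h f Q k x / h (Q i) x) atTop (𝓝 0) →
    ((k : ℝ) + 1) ^ 3 * gg c h f Q k x ≤ h (Q i) x) ∧
  gg c h f Q k x ≤ x

theorem small_mul {h : ℝ → ℝ} (s : Sc h) (a : ℝ) (ha : 0 ≤ a) :
    ∀ᶠ x in atTop, a * h x ≤ x := by
  have h1 := s.div_self.eventually_le_const (by positivity : (0 : ℝ) < 1 / (a + 1))
  filter_upwards [h1, eventually_gt_atTop 0, s.ge_one] with x hx hx0 hx1
  rw [div_le_div_iff₀ hx0 (by positivity)] at hx
  nlinarith

theorem PQ_ev {I : Set ℝ} {h : ℝ → ℝ → ℝ} {f : ℝ → ℝ} (F : Fam I h f) {c : ℝ≥0∞}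
    {L U : ℝ → ℝ≥0∞} {Q : ℕ → ℝ} (hQ : ∀ i, Q i ∈ I) (hL : ∀ i, L (Q i) ≤ 1) (k : ℕ) :
    ∀ᶠ x in atTop, PQ c h f Q (tl c L U Q) k x := by
  have sh := F.sc _ (hQ (Nat.unpair k).1)
  have sf := F.fsc
  have hk0 : (0 : ℝ) ≤ k := Nat.cast_nonneg k
  have hls := tl_nonneg c L U Q k
  have hls1 := tl_le c U Q hL k
  have hC0 := tc_nonneg c k
  have hC1 := tc_le c k
  have hpos : ∀ᶠ x in atTop, 0 < f x ∧ 0 < h (Q (Nat.unpair k).1) x := by
    filter_upwards [sf.ge_one, sh.ge_one] with x h1 h2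
    exact ⟨by linarith, by linarith⟩
  have hsh := sh.small (1 / ((k : ℝ) + 1)) (by positivity)
  have hsf := sf.small (1 / ((k : ℝ) + 1)) (by positivity)
  have h6 : ∀ᶠ x in atTop, ∀ i ≤ k, Tendsto (fun x => gg c h f Q k x / h (Q i) x) atTop (𝓝 0) →
      ((k : ℝ) + 1) ^ 3 * gg c h f Q k x ≤ h (Q i) x := by
    have : ∀ᶠ x in atTop, ∀ i ∈ Iic k, Tendsto (fun x => gg c h f Q k x / h (Q i) x) atTop (𝓝 0) →
        ((k : ℝ) + 1) ^ 3 * gg c h f Q k x ≤ h (Q i) x := by
      rw [Filter.eventually_all_finite (finite_Iic k)]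
      intro i _
      by_cases ht : Tendsto (fun x => gg c h f Q k x / h (Q i) x) atTop (𝓝 0)
      · filter_upwards [ht.eventually_le_const (by positivity : 0 < 1 / ((k : ℝ) + 1) ^ 3),
          (F.sc _ (hQ i)).ge_one] with x hx hx1 _
        rw [div_le_div_iff₀ (by linarith) (by positivity)] at hx
        linarith
      · exact Eventually.of_forall fun x hx => absurd hx ht
    exact this
  have hgle : ∀ᶠ x in atTop, gg c h f Q k x ≤ x := by
    by_cases hty : (Nat.unpair k).2 % 3 = 2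
    · filter_upwards [small_mul sf _ hC0, hpos] with x hx hx1
      unfold gg
      rw [if_pos hty, max_eq_left hx1.1.le]
      exact hx
    · filter_upwards [sh.le_self, hpos] with x hx hx1
      unfold gg
      rw [if_neg hty, max_eq_left hx1.2.le]
      exact hx
  have h1 : ∀ᶠ x in atTop, (1 + tl c L U Q k) * gg c h f Q k x ≤
      ((k : ℝ) + 2) * x ^ (1 / 2 + 1 / ((k : ℝ) + 1)) := by
    filter_upwards [hpos, hsh, hsf, eventually_gt_atTop 0] with x hx1 hx2 hx3 hx0
    have hx4 : 0 < x ^ (1 / 2 + 1 / ((k : ℝ) + 1)) := Real.rpow_pos_of_pos hx0 _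
    by_cases hty : (Nat.unpair k).2 % 3 = 2
    · unfold gg
      rw [if_pos hty, max_eq_left hx1.1.le]
      by_cases hc : c = 0
      · have : tc c k = 0 := by
          unfold tc
          rw [if_pos hty, hc]
          simp
        rw [this]
        simp only [zero_mul, mul_zero]
        positivity
      · have : tl c L U Q k = 0 := by
          unfold tl
          rw [if_neg (by omega), if_neg (by omega), if_neg hc]
        rw [this, add_zero, one_mul]
        apply mul_le_mul (by linarith) hx3 hx1.1.le (by positivity)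
    · unfold gg
      rw [if_neg hty, max_eq_left hx1.2.le]
      apply mul_le_mul (by linarith) hx2 hx1.2.le (by positivity)
  have h4 : ∀ᶠ x in atTop, ((k : ℝ) + 1) ^ 2 * Real.log x ≤ f x := by
    filter_upwards [sf.large.eventually_ge_atTop (((k : ℝ) + 1) ^ 2), eventually_gt_atTop 1]
      with x hx hx1
    rwa [le_div_iff₀ (Real.log_pos hx1)] at hx
  have h5 : ∀ᶠ x in atTop, (Nat.unpair k).2 % 3 ≠ 2 →
      ((k : ℝ) + 1) ^ 4 ≤ gg c h f Q k x / Real.log x := by
    filter_upwards [sh.large.eventually_ge_atTop (((k : ℝ) + 1) ^ 4), hpos] with x hx hx1 hty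
    unfold gg
    rw [if_neg hty, max_eq_left hx1.2.le]
    exact hx
  filter_upwards [h1, eventually_ge_atTop ((2 : ℝ) ^ k), hpos, h4, h5, h6, hgle]
    with x a1 a2 a3 a4 a5 a6 a7
  exact ⟨a1, a2, a3, a4, a5, a6, a7⟩

theorem Fam.dom {I : Set ℝ} {h : ℝ → ℝ → ℝ} {f : ℝ → ℝ} (F : Fam I h f) {s t : ℝ} (hs : s ∈ I)
    (ht : t ∈ I) (hst : s ≤ t) : GC.Dom (h s) (h t) := by
  rcases eq_or_lt_of_le hst with rfl | hst
  · exact (F.sc _ hs).dom
  · obtain ⟨B, hB⟩ := (F.sc _ hs).dom
    refine ⟨max B 0, ?_⟩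
    filter_upwards [hB, (F.ord _ hs _ ht hst).eventually_le_const one_pos, (F.sc _ ht).ge_one,
      (F.sc _ hs).ge_one] with x h1 h2 h3 h4 y hy1 hy2
    rw [div_le_iff₀ (by linarith), one_mul] at h2
    refine (h1 y hy1 hy2).trans ?_
    refine (mul_le_mul_of_nonneg_right (le_max_left B 0) (by linarith)).trans ?_
    exact mul_le_mul_of_nonneg_left h2 (le_max_right _ _)

theorem Fam.le {I : Set ℝ} {h : ℝ → ℝ → ℝ} {f : ℝ → ℝ} (F : Fam I h f) {s t : ℝ} (hs : s ∈ I)
    (ht : t ∈ I) (hst : s ≤ t) : ∀ᶠ x in atTop, h s x ≤ h t x := by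
  rcases eq_or_lt_of_le hst with rfl | hst
  · exact Eventually.of_forall fun _ => le_rfl
  · filter_upwards [(F.ord _ hs _ ht hst).eventually_le_const one_pos, (F.sc _ ht).ge_one]
      with x h2 h3
    rwa [div_le_iff₀ (by linarith), one_mul] at h2

/-- **Existence of systems with prescribed gap constant and densities at all scales.** -/
theorem fam_suff {Z : Multiset ℂ} (hZ : ∀ ρ ∈ Z, ρ.re < 1) (hZc : Z.map conj = Z)
    {I : Set ℝ} {h : ℝ → ℝ → ℝ} {f : ℝ → ℝ} (F : Fam I h f) (hne : I.Nonempty)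
    {c : ℝ≥0∞} {L U : ℝ → ℝ≥0∞} (hL : MonotoneOn L I) (hU : AntitoneOn U I)
    (hL1 : ∀ a ∈ I, L a ≤ 1) (hU1 : ∀ a ∈ I, 1 ≤ U a)
    (hc : 0 < c → ∀ a ∈ I, Tendsto (fun x => h a x / f x) atTop (𝓝 0) → L a = 0) :
    ∃ p : ℕ → ℝ, Sys Z p ∧ AAL p ∧
      limsup (fun n => ENNReal.ofReal ((p (n + 1) - p n) / f (p n))) atTop = c ∧
      ∀ a ∈ I, liminf (gR p (h a)) atTop = L a ∧ limsup (gR p (h a)) atTop = U a := by
  obtain ⟨x₀, hR⟩ := exists_RDens hZ
  obtain ⟨Q, hQI, hQ⟩ := exists_expoI hne hL hU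
  have hLQ : ∀ i, L (Q i) ≤ 1 := fun i => hL1 _ (hQI i)
  set ls : ℕ → ℝ := tl c L U Q with hlsd
  have hls0 : ∀ k, 0 ≤ ls k := tl_nonneg c L U Q
  have hls1 : ∀ k, ls k ≤ k + 1 := tl_le c U Q hLQ
  obtain ⟨S, hP, hE, hr, h4, hWg⟩ := exists_sched3 hR (g := gg c h f Q)
    (ls := ls) (fun k x _ => gg_nonneg c h f Q k x)
    hls0 (P := PQ c h f Q ls) (PQ_ev F hQI hLQ) (fun k x h => h.1) (fun k x h => h.2.1)
  obtain ⟨V, hV, hSys⟩ := S.toW.system hR hZ hZc rfl
  let C : GC Z x₀ :=
    { hZ := hZ, hR := hR, S := S, V := V, hV := hV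
      g := fun k => gg c h f Q k (phi (fZ Z) x₀ (S.A k)), ls := ls
      hg0 := fun k => gg_nonneg c h f Q k _, hg1 := fun k => (hP k).2.2.2.2.2.2
      hls0 := hls0, hls1 := hls1, hE := hE, hr := hr, h4 := h4
      hPb := fun k => (hP k).2.1 }
  have hSys' : Sys Z C.p := hSys
  have hgC : ∀ k, C.g k = gg c h f Q k (C.X k) := fun k => rfl
  have hPX : ∀ k, PQ c h f Q ls k (C.X k) := hP
  have hWgC : ∀ k, C.S.Wd k ≤ C.g k := hWg
  -- types of tasks
  have hty0 : ∀ i t, C.g (Nat.pair i (3 * t + 0)) = h (Q i) (C.X (Nat.pair i (3 * t + 0))) ∧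
      tl c L U Q (Nat.pair i (3 * t + 0)) =
        (min (U (Q i)) (((Nat.pair i (3 * t + 0) : ℕ) : ℝ≥0∞) + 1)).toReal := by
    intro i t
    have h2 := (hPX (Nat.pair i (3 * t + 0))).2.2.1.2
    constructor
    · rw [hgC]
      unfold gg
      rw [Nat.unpair_pair] at h2 ⊢
      have : (3 * t + 0) % 3 = 0 := by omega
      simp only [this]
      rw [if_neg (by norm_num), max_eq_left h2.le]
    · unfold tl
      rw [Nat.unpair_pair]
      have : (3 * t + 0) % 3 = 0 := by omega
      simp only [this]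
      simp
  have hty1 : ∀ i t, C.g (Nat.pair i (3 * t + 1)) = h (Q i) (C.X (Nat.pair i (3 * t + 1))) ∧
      tl c L U Q (Nat.pair i (3 * t + 1)) =
        max (L (Q i)).toReal (1 / (((Nat.pair i (3 * t + 1) : ℕ) : ℝ) + 1)) := by
    intro i t
    have h2 := (hPX (Nat.pair i (3 * t + 1))).2.2.1.2
    constructor
    · rw [hgC]
      unfold gg
      rw [Nat.unpair_pair] at h2 ⊢
      have : (3 * t + 1) % 3 = 1 := by omega
      simp only [this]
      rw [if_neg (by norm_num), max_eq_left h2.le]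
    · unfold tl
      rw [Nat.unpair_pair]
      have : (3 * t + 1) % 3 = 1 := by omega
      simp only [this]
      simp
  have hty2 : ∀ k, (Nat.unpair k).2 % 3 = 2 → C.g k = (min c ((k : ℝ≥0∞) + 1)).toReal *
      f (C.X k) ∧ ls k = if c = 0 then 1 else 0 := by
    intro k hk
    have h2 := (hPX k).2.2.1.1
    constructor
    · rw [hgC]
      unfold gg tc
      rw [if_pos hk, if_pos hk, max_eq_left h2.le]
    · rw [hlsd]
      unfold tl
      rw [if_neg (by omega), if_neg (by omega)]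
  have hr2 : ∀ k, (Nat.unpair k).2 % 3 = 2 → C.S.r k = 0 := by
    intro k hk
    obtain ⟨e1, e2⟩ := hty2 k hk
    have e3 : C.S.r k = ⌊C.ls k * C.S.Wd k⌋₊ := C.hr k
    have e4 : C.ls k = if c = 0 then 1 else 0 := e2
    rw [e3, e4]
    by_cases hc0 : c = 0
    · rw [if_pos hc0, one_mul]
      have h3 := hWgC k
      rw [e1, hc0] at h3
      simp only [zero_le, inf_of_le_left, ENNReal.toReal_zero, zero_mul] at h3
      exact Nat.floor_of_nonpos h3
    · rw [if_neg hc0, zero_mul]
      simp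
  -- properties of the densities
  have hshort : ∀ i k, i ≤ k → Tendsto (fun x => gg c h f Q k x / h (Q i) x) atTop (𝓝 0) →
      ((k : ℝ) + 1) ^ 3 * C.g k ≤ h (Q i) (C.X k) := fun i k hik ht =>
    (hPX k).2.2.2.2.2.1 i hik ht
  have hshort1 : ∀ i k, i ≤ k → (Nat.unpair k).2 % 3 ≠ 2 → Q (Nat.unpair k).1 < Q i →
      ((k : ℝ) + 1) ^ 3 * C.g k ≤ h (Q i) (C.X k) := by
    intro i k hik hty hlt
    apply hshort i k hik
    refine (F.ord _ (hQI _) _ (hQI i) hlt).congr' ?_
    filter_upwards [(F.sc _ (hQI (Nat.unpair k).1)).ge_one] with x hx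
    unfold gg
    rw [if_neg hty, max_eq_left (by linarith)]
  have hUp : ∀ i, U (Q i) ≠ ∞ → ∀ k, i ≤ k → C.ls k ≤ (U (Q i)).toReal ∨
      ((k : ℝ) + 1) ^ 3 * C.g k ≤ h (Q i) (C.X k) := by
    intro i hi k hik
    have hone : 1 ≤ (U (Q i)).toReal := by
      have := ENNReal.toReal_mono hi (hU1 _ (hQI i))
      simpa using this
    change tl c L U Q k ≤ _ ∨ _
    by_cases h0 : (Nat.unpair k).2 % 3 = 0
    · rcases le_or_gt (Q i) (Q (Nat.unpair k).1) with hq | hq
      · left
        unfold tl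
        rw [if_pos h0]
        exact ENNReal.toReal_mono hi ((min_le_left _ _).trans (hU (hQI i) (hQI _) hq))
      · right
        exact hshort1 i k hik (by omega) hq
    · left
      unfold tl
      rw [if_neg h0]
      split_ifs with h2 h3
      · apply max_le
        · have := ENNReal.toReal_mono (by simp) (hL1 _ (hQI (Nat.unpair k).1))
          simp only [ENNReal.toReal_one] at this
          linarith
        · refine le_trans ?_ hone
          rw [div_le_one (by positivity)]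
          have : (0 : ℝ) ≤ k := Nat.cast_nonneg k
          linarith
      · exact hone
      · linarith
  have hLow : ∀ i k, i ≤ k → (L (Q i)).toReal ≤ C.ls k ∨
      ((k : ℝ) + 1) ^ 3 * C.g k ≤ h (Q i) (C.X k) := by
    intro i k hik
    have hLi : (L (Q i)).toReal ≤ 1 := by
      have := ENNReal.toReal_mono (by simp) (hL1 _ (hQI i))
      simpa using this
    change _ ≤ tl c L U Q k ∨ _
    by_cases h0 : (Nat.unpair k).2 % 3 = 0
    · left
      unfold tl
      rw [if_pos h0]
      exact hLi.trans (one_le_min (hU1 _ (hQI _)) k)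
    by_cases h1 : (Nat.unpair k).2 % 3 = 1
    · rcases le_or_gt (Q i) (Q (Nat.unpair k).1) with hq | hq
      · left
        unfold tl
        rw [if_neg h0, if_pos h1]
        apply le_max_of_le_left
        apply ENNReal.toReal_mono
        · exact (lt_of_le_of_lt (hL1 _ (hQI _)) (by simp)).ne
        · exact hL (hQI i) (hQI _) hq
      · right
        exact hshort1 i k hik (by omega) hq
    · have h2 : (Nat.unpair k).2 % 3 = 2 := by omega
      by_cases hc0 : c = 0
      · left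
        unfold tl
        rw [if_neg h0, if_neg h1, if_pos hc0]
        exact hLi
      · rcases F.fcmp _ (hQI i) with ht | ht
        · left
          rw [hc (pos_iff_ne_zero.2 hc0) _ (hQI i) ht]
          simpa using tl_nonneg c L U Q k
        · right
          apply hshort i k hik
          have h3 := ht.const_mul (tc c k)
          rw [mul_zero] at h3
          refine h3.congr' ?_
          filter_upwards [F.fsc.ge_one] with x hx
          unfold gg
          rw [if_pos h2, max_eq_left (by linarith)]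
          ring
  refine ⟨C.p, hSys', C.aal, ?_, fun a ha => ?_⟩
  · -- the constant of the gaps
    have hfp : ∀ᶠ n in atTop, 1 ≤ f (C.p n) := C.p_tendsto.eventually F.fsc.ge_one
    apply le_antisymm
    · rcases eq_or_ne c ∞ with hct | hct
      · rw [hct]; exact le_top
      have hT : ∀ k, 0 ≤ k → (C.S.r k = 0 ∧ C.g k ≤ c.toReal * f (C.X k)) ∨
          (1 / ((k : ℝ) + 1) ≤ C.ls k ∧ ((k : ℝ) + 1) ^ 4 ≤ C.g k / Real.log (C.X k)) := by
        intro k _
        have hk1 : 1 / ((k : ℝ) + 1) ≤ 1 := by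
          rw [div_le_one (by positivity)]
          have : (0 : ℝ) ≤ k := Nat.cast_nonneg k
          linarith
        by_cases h2 : (Nat.unpair k).2 % 3 = 2
        · left
          refine ⟨hr2 k h2, ?_⟩
          rw [(hty2 k h2).1]
          exact mul_le_mul_of_nonneg_right (ENNReal.toReal_mono hct (min_le_left _ _))
            (hPX k).2.2.1.1.le
        · right
          refine ⟨?_, (hPX k).2.2.2.2.1 h2⟩
          change _ ≤ tl c L U Q k
          unfold tl
          by_cases h0 : (Nat.unpair k).2 % 3 = 0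
          · rw [if_pos h0]
            exact hk1.trans (one_le_min (hU1 _ (hQI _)) k)
          · rw [if_neg h0, if_pos (by omega)]
            exact le_max_right _ _
      apply ENNReal.le_of_forall_pos_le_add
      intro ε hε _
      have h1 := C.gap_up F.fsc F.freg ENNReal.toReal_nonneg (i₀ := 0) hT
        (fun k _ => (hPX k).2.2.2.1) (ε := ε) (by exact_mod_cast hε)
      have h2 : ∀ᶠ n in atTop, ENNReal.ofReal ((C.p (n + 1) - C.p n) / f (C.p n)) ≤ c + ε := by
        filter_upwards [h1, hfp] with n hn hn1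
        have h3 : (C.p (n + 1) - C.p n) / f (C.p n) ≤ c.toReal + ε := by
          rw [div_le_iff₀ (by linarith)]
          exact hn
        refine (ENNReal.ofReal_le_ofReal h3).trans ?_
        rw [ENNReal.ofReal_add ENNReal.toReal_nonneg (NNReal.coe_nonneg ε),
          ENNReal.ofReal_toReal hct, ENNReal.ofReal_coe_nnreal]
      exact limsup_le_of_le (by isBoundedDefault) h2
    · apply le_of_forall_lt
      intro v hv
      obtain ⟨r, hr1, hr2'⟩ := ENNReal.lt_iff_exists_nnreal_btwn.1 hv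
      obtain ⟨r', hr3, hr4⟩ := ENNReal.lt_iff_exists_nnreal_btwn.1 hr2'
      refine lt_of_lt_of_le hr1 ?_
      have hrr : (r : ℝ) < r' := by exact_mod_cast hr3
      have hr0 : (0 : ℝ) ≤ r := NNReal.coe_nonneg r
      have hr'0 : (0 : ℝ) < r' := by linarith
      apply le_limsup_of_frequently_le _ (by isBoundedDefault)
      set δ : ℝ := (r' - r) / r' with hδ
      have hδ0 : 0 < δ := div_pos (by linarith) hr'0
      have hev : ∀ᶠ k : ℕ in atTop, (r' : ℝ) ≤ (k : ℝ) :=
        tendsto_natCast_atTop_atTop.eventually_ge_atTop _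
      have hevn : ∀ᶠ n in atTop, 1 ≤ f (C.p n) ∧ 16 * Real.log (C.p n) ≤ f (C.p n) ∧
          2 ≤ C.p n ∧ ∀ y, C.p n ≤ y → y ≤ C.p n + f (C.p n) →
            |f y - f (C.p n)| ≤ δ * f (C.p n) := by
        filter_upwards [hfp, C.p_tendsto.eventually (F.fsc.large.eventually_ge_atTop 16),
          C.p_tendsto.eventually (F.freg δ hδ0), C.p_tendsto.eventually_ge_atTop 2] with n a1 a2 a3 a4
        refine ⟨a1, ?_, a4, a3⟩
        rwa [le_div_iff₀ (Real.log_pos (by linarith))] at a2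
      obtain ⟨N', hN'⟩ := eventually_atTop.1 hevn
      rw [frequently_atTop]
      intro N
      obtain ⟨t, ht1, ht2⟩ := (((tasks_tendsto 0 2).eventually hev).and
        ((tasks_tendsto 0 2).eventually_ge_atTop (max N N'))).exists
      set k := Nat.pair 0 (3 * t + 2) with hk
      have hkty : (Nat.unpair k).2 % 3 = 2 := by
        rw [hk, Nat.unpair_pair]
        change (3 * t + 2) % 3 = 2
        omega
      obtain ⟨e1, -⟩ := hty2 k hkty
      obtain ⟨n, hn1, hn2, hn3, hn4, hn5⟩ := C.gap_low (hr2 k hkty)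
      have hnN : N ≤ n := (le_max_left _ _).trans (ht2.trans hn1)
      obtain ⟨b1, b2, b3, b4⟩ := hN' n ((le_max_right _ _).trans (ht2.trans hn1))
      refine ⟨n, hnN, ?_⟩
      have hCk : (r' : ℝ) ≤ (min c ((k : ℝ≥0∞) + 1)).toReal := by
        have h3 : (r' : ℝ≥0∞) ≤ min c ((k : ℝ≥0∞) + 1) := by
          apply le_min hr4.le
          have h4 : (r' : ℝ≥0) ≤ (k : ℝ≥0) := by
            rw [← NNReal.coe_le_coe]; simpa using ht1
          calc (r' : ℝ≥0∞) ≤ ((k : ℝ≥0) : ℝ≥0∞) := by exact_mod_cast h4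
            _ = (k : ℝ≥0∞) := by simp
            _ ≤ _ := le_self_add
        have h4 := ENNReal.toReal_mono (min_ne_top' c k) h3
        simpa using h4
      have hlX : Real.log (C.X k) ≤ 2 * Real.log (C.p n) := by
        have h7 := Real.log_le_log (by linarith [C.one_le_X k] : 0 < C.X k) hn4
        rw [Real.log_mul (by norm_num) (by linarith)] at h7
        have h8 : Real.log 2 ≤ Real.log (C.p n) := Real.log_le_log (by norm_num) b3
        linarith
      have hlp0 : 0 ≤ Real.log (C.p n) := Real.log_nonneg (by linarith)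
      have h5 := (abs_le.1 (b4 (C.X k) hn2 (by linarith))).1
      have h6 : (1 - δ) * f (C.p n) ≤ f (C.X k) := by linarith
      have h7 : r' * ((1 - δ) * f (C.p n)) ≤ (min c ((k : ℝ≥0∞) + 1)).toReal * f (C.X k) := by
        apply mul_le_mul hCk h6 _ ENNReal.toReal_nonneg
        apply mul_nonneg _ (by linarith)
        have : δ ≤ 1 := by rw [hδ, div_le_one hr'0]; linarith
        linarith
      have h8 : r' * ((1 - δ) * f (C.p n)) = r * f (C.p n) := by
        rw [hδ]
        field_simp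
        ring
      rw [h8, ← e1] at h7
      rw [← ENNReal.ofReal_coe_nnreal]
      apply ENNReal.ofReal_le_ofReal
      rw [le_div_iff₀ (by linarith)]
      linarith
  · have sa := F.sc a ha
    refine ⟨le_antisymm ?_ ?_, le_antisymm ?_ ?_⟩
    · -- liminf ≤ L a
      apply le_of_forall_gt
      intro v hv
      obtain ⟨-, i, hi1, hi2⟩ := hQ L (Or.inl rfl) a ha (Iio v) (Iio_mem_nhds hv)
      obtain ⟨r, hr1, hr2'⟩ := ENNReal.lt_iff_exists_nnreal_btwn.1 (mem_Iio.1 hi2)
      obtain ⟨r', hr3, hr4⟩ := ENNReal.lt_iff_exists_nnreal_btwn.1 hr2'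
      refine lt_of_le_of_lt ?_ hr4
      have hrr : (r : ℝ) < r' := by exact_mod_cast hr3
      have hr0 : (0 : ℝ) ≤ r := NNReal.coe_nonneg r
      have hrpos : 0 < (r : ℝ) := by
        have : (0 : ℝ≥0∞) < r := lt_of_le_of_lt bot_le hr1
        exact_mod_cast this
      set ε : ℝ := (r' - r) / (1 + r) with hε
      have hε0 : 0 < ε := div_pos (by linarith) (by linarith)
      have hat := C.at_X sa.ok sa.large hε0
      have h1k : ∀ᶠ k : ℕ in atTop, 1 / ((k : ℝ) + 1) ≤ r := by
        have := tendsto_one_div_add_atTop_nhds_zero_nat (𝕜 := ℝ)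
        exact this.eventually_le_const hrpos
      have hleQ := C.X_tendsto.eventually (F.le ha (hQI i) hi1)
      have hTX := C.X_tendsto.eventually (sa.large.eventually_gt_atTop 0)
      have hfr : ∃ᶠ x in atTop, gR C.p (h a) x ≤ (r' : ℝ≥0∞) := by
        have h1 : ∀ᶠ t in atTop, gR C.p (h a) (C.X (Nat.pair i (3 * t + 1))) ≤ (r' : ℝ≥0∞) := by
          filter_upwards [(tasks_tendsto i 1).eventually hat,
            (tasks_tendsto i 1).eventually h1k, (tasks_tendsto i 1).eventually hleQ,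
            (tasks_tendsto i 1).eventually hTX] with t ht1 ht2 ht3 hT0
          obtain ⟨e1, e3⟩ := hty1 i t
          set k := Nat.pair i (3 * t + 1) with hk
          have h2 := ht1 (by rw [e1]; exact ht3)
          have hlsk : C.ls k ≤ r := by
            change tl c L U Q k ≤ r
            rw [e3]
            apply max_le _ ht2
            have := ENNReal.toReal_mono (by simp) hr1.le
            simpa using this
          have h3 := (abs_le.1 h2).2
          rw [← ENNReal.ofReal_coe_nnreal]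
          unfold gR
          apply ENNReal.ofReal_le_ofReal
          rw [div_le_iff₀ hT0]
          change cnt C.p (C.X k) (h a (C.X k)) ≤ _
          have h4 : ε * (1 + C.ls k) ≤ r' - r := by
            have : ε * (1 + C.ls k) ≤ ε * (1 + r) :=
              mul_le_mul_of_nonneg_left (by linarith) hε0.le
            rw [hε, div_mul_cancel₀ _ (by linarith : (1 + (r : ℝ)) ≠ 0)] at this
            exact this
          have h5 : ε * (1 + C.ls k) * (h a (C.X k) / Real.log (C.X k)) ≤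
              (r' - r) * (h a (C.X k) / Real.log (C.X k)) :=
            mul_le_mul_of_nonneg_right h4 hT0.le
          have h6 : C.ls k * (h a (C.X k) / Real.log (C.X k)) ≤
              r * (h a (C.X k) / Real.log (C.X k)) :=
            mul_le_mul_of_nonneg_right hlsk hT0.le
          linarith
        exact (C.X_tendsto.comp (tasks_tendsto i 1)).frequently
          (p := fun x => gR C.p (h a) x ≤ (r' : ℝ≥0∞)) h1.frequently
      exact liminf_le_of_frequently_le' hfr
    · -- L a ≤ liminf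
      apply le_of_forall_lt
      intro v hv
      obtain ⟨⟨i, hi1, hi2⟩, -⟩ := hQ L (Or.inl rfl) a ha (Ioi v) (Ioi_mem_nhds hv)
      have hfin : L (Q i) ≠ ∞ := (lt_of_le_of_lt (hL1 _ (hQI i)) (by simp)).ne
      have hle1 : (L (Q i)).toReal ≤ 1 := by
        have := ENNReal.toReal_mono (by simp) (hL1 _ (hQI i))
        simpa using this
      have h1 : ENNReal.ofReal (L (Q i)).toReal ≤ liminf (gR C.p (h a)) atTop :=
        gliminf_ge sa fun ε hε => C.low_bd sa.ok sa.large (F.dom (hQI i) ha hi1)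
          ENNReal.toReal_nonneg hle1 (i := i) (fun k hk => hLow i k hk) hε
      rw [ENNReal.ofReal_toReal hfin] at h1
      exact lt_of_lt_of_le hi2 h1
    · -- limsup ≤ U a
      apply le_of_forall_gt
      intro v hv
      obtain ⟨⟨i, hi1, hi2⟩, -⟩ := hQ U (Or.inr rfl) a ha (Iio v) (Iio_mem_nhds hv)
      have hfin : U (Q i) ≠ ∞ := (lt_of_lt_of_le (mem_Iio.1 hi2) le_top).ne
      have hone : 1 ≤ (U (Q i)).toReal := by
        have := ENNReal.toReal_mono hfin (hU1 _ (hQI i))
        simpa using this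
      have h1 : limsup (gR C.p (h a)) atTop ≤ ENNReal.ofReal (U (Q i)).toReal :=
        glimsup_le sa (by linarith) fun ε hε => C.up_bd sa.ok sa.large (F.dom (hQI i) ha hi1)
          hone (i := i) (fun k hk => hUp i hfin k hk) hε
      rw [ENNReal.ofReal_toReal hfin] at h1
      exact lt_of_le_of_lt h1 hi2
    · -- U a ≤ limsup
      apply le_of_forall_lt
      intro v hv
      obtain ⟨-, i, hi1, hi2⟩ := hQ U (Or.inr rfl) a ha (Ioi v) (Ioi_mem_nhds hv)
      obtain ⟨r, hr1, hr2'⟩ := ENNReal.lt_iff_exists_nnreal_btwn.1 (mem_Ioi.1 hi2)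
      obtain ⟨r', hr3, hr4⟩ := ENNReal.lt_iff_exists_nnreal_btwn.1 hr1
      refine lt_of_lt_of_le hr3 ?_
      have hrr : (r' : ℝ) < r := by exact_mod_cast hr4
      have hr0 : (0 : ℝ) ≤ r := NNReal.coe_nonneg r
      have hr'0 : (0 : ℝ) ≤ r' := NNReal.coe_nonneg r'
      set ε : ℝ := (r - r') / (1 + r) with hε
      have hε0 : 0 < ε := div_pos (by linarith) (by linarith)
      have hε1 : ε ≤ 1 := by rw [hε, div_le_one (by linarith)]; linarith
      have hat := C.at_X sa.ok sa.large hε0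
      have hkr : ∀ᶠ k : ℕ in atTop, (r : ℝ) ≤ (k : ℝ) :=
        tendsto_natCast_atTop_atTop.eventually_ge_atTop _
      have hleQ := C.X_tendsto.eventually (F.le ha (hQI i) hi1)
      have hTX := C.X_tendsto.eventually (sa.large.eventually_gt_atTop 0)
      have hfr : ∃ᶠ x in atTop, (r' : ℝ≥0∞) ≤ gR C.p (h a) x := by
        have h1 : ∀ᶠ t in atTop, (r' : ℝ≥0∞) ≤ gR C.p (h a) (C.X (Nat.pair i (3 * t + 0))) := by
          filter_upwards [(tasks_tendsto i 0).eventually hat,
            (tasks_tendsto i 0).eventually hkr, (tasks_tendsto i 0).eventually hleQ,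
            (tasks_tendsto i 0).eventually hTX] with t ht1 ht2 ht3 hT0
          obtain ⟨e1, e3⟩ := hty0 i t
          set k := Nat.pair i (3 * t + 0) with hk
          have h2 := ht1 (by rw [e1]; exact ht3)
          have hlsk : (r : ℝ) ≤ C.ls k := by
            change (r : ℝ) ≤ tl c L U Q k
            rw [e3]
            have h3 : (r : ℝ≥0∞) ≤ min (U (Q i)) ((k : ℝ≥0∞) + 1) := by
              apply le_min hr2'.le
              have h4 : (r : ℝ≥0) ≤ (k : ℝ≥0) := by
                rw [← NNReal.coe_le_coe]; simpa using ht2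
              calc (r : ℝ≥0∞) ≤ ((k : ℝ≥0) : ℝ≥0∞) := by exact_mod_cast h4
                _ = (k : ℝ≥0∞) := by simp
                _ ≤ _ := le_self_add
            have h4 := ENNReal.toReal_mono (min_ne_top' (U (Q i)) k) h3
            simpa using h4
          have h3 := (abs_le.1 h2).1
          rw [← ENNReal.ofReal_coe_nnreal]
          unfold gR
          apply ENNReal.ofReal_le_ofReal
          rw [le_div_iff₀ hT0]
          change _ ≤ cnt C.p (C.X k) (h a (C.X k))
          have h4 : (r' : ℝ) ≤ C.ls k - ε * (1 + C.ls k) := by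
            have h5 : (1 - ε) * r ≤ (1 - ε) * C.ls k :=
              mul_le_mul_of_nonneg_left hlsk (by linarith)
            have h6 : ε * (1 + r) = r - r' := by
              rw [hε, div_mul_cancel₀ _ (by linarith : (1 + (r : ℝ)) ≠ 0)]
            nlinarith
          have h5 := mul_le_mul_of_nonneg_right h4 hT0.le
          nlinarith
        exact (C.X_tendsto.comp (tasks_tendsto i 0)).frequently
          (p := fun x => (r' : ℝ≥0∞) ≤ gR C.p (h a) x) h1.frequently
      exact le_limsup_of_frequently_le hfr (by isBoundedDefault)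

end Pool.Agent.H204.AS
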