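import Pool.Agent.H204.AS.Thr4

open MeasureTheory Set Filter Topology
open scoped ENNReal NNReal ComplexConjugate

namespace Pool.Agent.H204.AS

open Pool.Agent.H521 Pool.Agent.H521.G Pool.Agent.H204.SI

/-! ### Limit points of the differences of the square roots -/

namespace GC

variable {Z : Multiset ℂ} {x₀ : ℝ} (C : GC Z x₀)

/-- the gap `n` covers window `k` -/
def Cov (n k : ℕ) : Prop := C.p n ≤ C.X k ∧ C.X k ≤ C.p n + 4 * Real.log (C.X k) ∧
  C.X k + C.g k ≤ C.p (n + 1) ∧ C.p (n + 1) ≤ C.X k + C.g k + 8 * Real.log (C.X k)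

theorem phiE1 (k : ℕ) : phi (fZ Z) x₀ (C.S.E k + 1) ≤ C.X k + C.g k + 8 * Real.log (C.X k) := by
  have hEk0 : 0 ≤ C.S.E k := (C.A_nonneg k).trans (C.A_le_E k)
  have g3 := C.hR.phi_cell hEk0
  have g4 : phi (fZ Z) x₀ (C.S.E k) = C.X k + C.g k := C.hE k
  have hEX := C.E_le_two_X k
  have hX1 := C.one_le_X k
  have hlX := C.two_le_logX k
  have hlog2 := Real.log_two_lt_d9
  have g6 : Real.log (phi (fZ Z) x₀ (C.S.E k)) ≤ 2 * Real.log (C.X k) := by
    have g7 := Real.log_le_log (C.hR.phi_pos _) hEX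
    rw [Real.log_mul (by norm_num) (by positivity)] at g7
    linarith
  linarith

/-- every empty window is covered by a gap -/
theorem cov_of (k : ℕ) (hr : C.S.r k = 0) : ∃ n, k ≤ n ∧ C.Cov n k := by
  set j := C.S.J k with hj
  have hkj : C.S.kap j = k := C.S.kap_J k
  refine ⟨KK C.S.toW.n j, (C.S.Jm.le_apply.trans (KK_ge C.S.toW.n_pos j)), ?_⟩
  have h1 : C.S.toW.yk C.V (KK C.S.toW.n j) = C.S.Y j + C.V j := C.S.toW.yk_zero C.V j
  have hn : C.S.toW.n j = 1 := by
    change (if C.S.J (C.S.kap j) = j then C.S.r (C.S.kap j) else 0) + 1 = _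
    rw [hkj, if_pos hj.symm, hr]
  have h2 : C.S.toW.yk C.V (KK C.S.toW.n j + 1) = C.S.Y (j + 1) + C.V (j + 1) := by
    have := C.S.toW.yk_zero C.V (j + 1)
    rwa [KK_succ, hn] at this
  have hA : C.S.A k = C.S.Y j + 1 := by
    have := C.S.A_eq (j := j) (by rw [hkj])
    rwa [hkj] at this
  have hE : C.S.Y (j + 1) = C.S.E k := by
    rw [C.S.Y_succ, hkj, if_pos hj.symm]
    unfold Sch.E
    rw [hA]
  have hYj0 : 0 ≤ C.S.Y j := C.S.toW.Y_nonneg j
  have h3 : C.p (KK C.S.toW.n j) ≤ C.X k := by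
    unfold p X
    rw [h1, hA]
    exact C.hR.phi_mono (by linarith [(C.hV j).2])
  have h3' : phi (fZ Z) x₀ (C.S.Y j) ≤ C.p (KK C.S.toW.n j) := by
    unfold p
    rw [h1]
    exact C.hR.phi_mono (by linarith [(C.hV j).1])
  have h4 : phi (fZ Z) x₀ (C.S.E k) ≤ C.p (KK C.S.toW.n j + 1) := by
    unfold p
    rw [h2, hE]
    exact C.hR.phi_mono (by linarith [(C.hV (j + 1)).1])
  have h4' : C.p (KK C.S.toW.n j + 1) ≤ phi (fZ Z) x₀ (C.S.E k + 1) := by
    unfold p
    rw [h2, hE]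
    exact C.hR.phi_mono (by linarith [(C.hV (j + 1)).2])
  have h5 : phi (fZ Z) x₀ (C.S.E k) = C.X k + C.g k := C.hE k
  have h6 := C.hR.phi_cell hYj0
  rw [← hA] at h6
  have h8 : Real.log (phi (fZ Z) x₀ (C.S.Y j)) ≤ Real.log (C.X k) :=
    Real.log_le_log (C.hR.phi_pos _) (C.hR.phi_mono (by linarith))
  change C.X k - _ ≤ _ at h6
  exact ⟨h3, by linarith, by linarith, h4'.trans (C.phiE1 k)⟩

/-- if all windows are empty, every gap is short or covers a window -/
theorem short_or_cov (hr : ∀ k, C.S.r k = 0) : ∀ᶠ n in atTop,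
    C.p (n + 1) - C.p n ≤ 8 * Real.log (C.p n) ∨ C.Cov n (C.S.kap (blk C.S.toW.n n)) := by
  filter_upwards [(Real.tendsto_log_atTop.comp C.p_tendsto).eventually_ge_atTop 2] with n hn7
  change 2 ≤ Real.log (C.p n) at hn7
  have hp0 : 0 < C.p n := C.hR.phi_pos _
  have hp1 : 0 < C.p (n + 1) := C.hR.phi_pos _
  have hlog2 := Real.log_two_lt_d9
  have hgapx : C.p (n + 1) - C.p n ≤ (C.S.toW.yk C.V (n + 1) - C.S.toW.yk C.V n) *
      (2 * Real.log (C.p (n + 1))) :=
    C.hR.phi_sub_le (C.yk_nonneg n) (C.S.toW.yk_step C.hV n).1.le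
  rcases C.y_gap n with ⟨hJ, h1⟩ | ⟨hJ, hr', h1⟩ | ⟨hJ, hr'⟩
  · left
    have h2 : C.p (n + 1) ≤ 4 * C.p n := by
      have h3 : C.p (n + 1) ≤ phi (fZ Z) x₀ (C.S.toW.yk C.V n + 1 + 1) :=
        C.hR.phi_mono (by linarith)
      have h4 := C.hR.phi_cell_two (by linarith [C.yk_nonneg n] : 0 ≤ C.S.toW.yk C.V n + 1)
      have h5 := C.hR.phi_cell_two (C.yk_nonneg n)
      change _ ≤ 2 * C.p n at h5
      linarith
    have h6 : Real.log (C.p (n + 1)) ≤ 2 * Real.log (C.p n) := by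
      have h7 := Real.log_le_log hp1 h2
      rw [show (4 : ℝ) * C.p n = 2 * (2 * C.p n) by ring, Real.log_mul (by norm_num)
        (by positivity), Real.log_mul (by norm_num) hp0.ne'] at h7
      linarith
    have h8 : 0 ≤ Real.log (C.p (n + 1)) :=
      Real.log_nonneg (C.hR.phi_one_le _)
    have h9 : C.p (n + 1) - C.p n ≤ 2 * (2 * (2 * Real.log (C.p n))) := by
      refine hgapx.trans ?_
      apply mul_le_mul h1 _ (by linarith) (by norm_num)
      linarith
    linarith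
  · exfalso
    have := hr (C.S.kap (blk C.S.toW.n n))
    omega
  · right
    set j := blk C.S.toW.n n with hj
    set k := C.S.kap j with hk
    obtain ⟨g1, g2, -, -, g5⟩ := C.win (n := n) (k := k) rfl hJ
    refine ⟨g5 hr', g2, ?_, g1.trans (C.phiE1 k)⟩
    have hA : C.S.A k = C.S.Y j + 1 := by rw [hk]; exact C.S.A_eq (by rw [← hk]; exact hJ)
    have hYs : C.S.Y (j + 1) = C.S.E k := by
      rw [C.S.Y_succ, ← hk, if_pos hJ]; unfold Sch.E; rw [hA]
    have hnj : C.S.toW.n j = 1 := by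
      change (if C.S.J (C.S.kap j) = j then C.S.r (C.S.kap j) else 0) + 1 = _
      rw [← hk, if_pos hJ, hr']
    have h5 : phi (fZ Z) x₀ (C.S.E k) = C.X k + C.g k := C.hE k
    rw [← h5]
    apply C.hR.phi_mono
    rcases blk_succ C.S.toW.n_pos n with ⟨h1, -, -⟩ | ⟨-, h2, h3⟩
    · exfalso
      rw [← hj, hnj] at h1
      omega
    · have e1 : C.S.toW.yk C.V (n + 1) = C.S.Y (j + 1) + C.V (j + 1) := by
        unfold Wdata.yk
        rw [h2, h3, if_pos rfl, ← hj]
        rfl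
      rw [e1, hYs]
      linarith [(C.hV (j + 1)).1]

/-- the difference of the square roots at a covered window of length `2 a √X` -/
theorem sqrt_cov {n k : ℕ} (h : C.Cov n k) {a : ℝ} (ha0 : 0 ≤ a) (ha : a ≤ k + 1)
    (hg : C.g k = 2 * a * Real.sqrt (C.X k)) :
    |(Real.sqrt (C.p (n + 1)) - Real.sqrt (C.p n)) - a| ≤
      2 * (4 * Real.log (C.X k) / Real.sqrt (C.X k)) +
        (((k : ℝ) + 1) + 4 * Real.log (C.X k) / Real.sqrt (C.X k)) ^ 2 /
          Real.sqrt (C.X k) := by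
  obtain ⟨h1, h2, h3, h4⟩ := h
  have hX1 := C.one_lt_X k
  have hlX := C.two_le_logX k
  have hp0 : 0 < C.p n := C.hR.phi_pos _
  have hp1 : 0 < C.p (n + 1) := C.hR.phi_pos _
  rw [hg] at h3 h4
  set X := C.X k with hX
  set q := Real.sqrt X with hq
  set l := Real.log X with hl
  set u := Real.sqrt (C.p n) with hu
  set v := Real.sqrt (C.p (n + 1)) with hv
  have hq2 : q * q = X := Real.mul_self_sqrt (by linarith)
  have hu2 : u * u = C.p n := Real.mul_self_sqrt hp0.le
  have hv2 : v * v = C.p (n + 1) := Real.mul_self_sqrt hp1.le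
  have hq0 : 0 < q := Real.sqrt_pos.2 (by linarith)
  have hu0 : 0 < u := Real.sqrt_pos.2 hp0
  have hv0 : 0 < v := Real.sqrt_pos.2 hp1
  have huq : u ≤ q := Real.sqrt_le_sqrt h1
  have hk0 : (0 : ℝ) ≤ k := Nat.cast_nonneg k
  set s := 4 * l / q with hs
  have hs0 : 0 ≤ s := by positivity
  have hsq : s * q = 4 * l := by rw [hs]; field_simp
  -- upper bound for v
  have hv1 : v ≤ q + a + s := by
    apply Real.sqrt_le_iff.2
    refine ⟨by positivity, ?_⟩
    nlinarith [mul_nonneg ha0 hs0, sq_nonneg (a + s)]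
  -- lower bound for u
  have hu1 : q - s ≤ u := by
    have a1 : (q - u) * q ≤ 4 * l := by nlinarith
    have a2 : q - u ≤ 4 * l / q := by rwa [le_div_iff₀ hq0]
    rw [← hs] at a2
    linarith
  have hR0 : 0 ≤ (((k : ℝ) + 1) + s) ^ 2 / q := by positivity
  rw [abs_le]
  constructor
  · -- lower bound for v - u
    have a1 : 2 * a * q ≤ (v - q) * (v + q) := by nlinarith
    have hvq : q ≤ v := by
      by_contra hc
      push Not at hc
      have : (v - q) * (v + q) < 0 := mul_neg_of_neg_of_pos (by linarith) (by linarith)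
      have : 0 ≤ 2 * a * q := by positivity
      linarith
    have a2 : (v - q) * (v + q) ≤ (v - q) * (2 * q + a + s) :=
      mul_le_mul_of_nonneg_left (by linarith) (by linarith)
    have a3 : v - q ≤ a + s := by linarith
    have a4 : 2 * a * q ≤ (v - q) * (2 * q) + (a + s) * (a + s) := by
      have : (v - q) * (a + s) ≤ (a + s) * (a + s) :=
        mul_le_mul_of_nonneg_right a3 (by linarith)
      nlinarith
    have a5 : v - q ≥ a - (a + s) * (a + s) / (2 * q) := by
      rw [ge_iff_le, sub_le_iff_le_add, ← sub_le_iff_le_add', le_div_iff₀ (by positivity)]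
      linarith
    have a6 : (a + s) * (a + s) / (2 * q) ≤ (((k : ℝ) + 1) + s) ^ 2 / q := by
      have b1 : (a + s) * (a + s) ≤ (((k : ℝ) + 1) + s) ^ 2 := by
        rw [sq]
        exact mul_le_mul (by linarith) (by linarith) (by linarith) (by linarith)
      have b2 : 0 ≤ (a + s) * (a + s) := by positivity
      rw [div_le_div_iff₀ (by positivity) hq0]
      nlinarith
    linarith
  · linarith

/-- the error function -/
noncomputable def er (x : ℝ) : ℝ :=
  8 * (Real.log x / Real.sqrt x) + 16 * (Real.log x ^ (2 : ℝ) / Real.sqrt x)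

theorem er_tendsto : Tendsto er atTop (𝓝 0) := by
  have h1 := (log_rpow_over_rpow 1 (1 / 2) (by norm_num)).const_mul 8
  have h2 := (log_rpow_over_rpow 2 (1 / 2) (by norm_num)).const_mul 16
  have h3 := h1.add h2
  simp only [mul_zero, add_zero] at h3
  refine h3.congr fun x => ?_
  unfold er
  rw [Real.sqrt_eq_rpow, Real.rpow_one]

theorem sqrt_cov2 : ∀ᶠ k : ℕ in atTop, ∀ n, C.Cov n k → ∀ a : ℝ, 0 ≤ a → a ≤ k + 1 →
    C.g k = 2 * a * Real.sqrt (C.X k) →
    |(Real.sqrt (C.p (n + 1)) - Real.sqrt (C.p n)) - a| ≤ er (C.X k) := by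
  filter_upwards [C.X_tendsto.eventually_ge_atTop 16] with k hk n h a ha0 ha hg
  refine (C.sqrt_cov h ha0 ha hg).trans ?_
  have hX1 := C.one_lt_X k
  have hlX := C.two_le_logX k
  have hPb := C.hPb k
  change (2 : ℝ) ^ k ≤ C.X k at hPb
  set X := C.X k with hX
  have hq4 : 4 ≤ Real.sqrt X := by
    rw [show (4 : ℝ) = Real.sqrt 16 by
      rw [show (16 : ℝ) = 4 ^ 2 by norm_num, Real.sqrt_sq (by norm_num)]]
    exact Real.sqrt_le_sqrt hk
  set q := Real.sqrt X with hq
  set l := Real.log X with hl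
  have hk0 : (0 : ℝ) ≤ k := Nat.cast_nonneg k
  have hkl : (k : ℝ) ≤ 2 * l := by
    have h1 : Real.log ((2 : ℝ) ^ k) ≤ l := Real.log_le_log (by positivity) hPb
    rw [Real.log_pow] at h1
    have h2 := Real.log_two_gt_d9
    nlinarith
  have hs : 4 * l / q ≤ l := by
    rw [div_le_iff₀ (by linarith)]
    nlinarith
  have hs0 : 0 ≤ 4 * l / q := by positivity
  have h1 : (((k : ℝ) + 1) + 4 * l / q) ^ 2 ≤ 16 * l ^ (2 : ℝ) := by
    rw [Real.rpow_two]
    have : ((k : ℝ) + 1) + 4 * l / q ≤ 4 * l := by linarith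
    nlinarith
  unfold er
  rw [← hq, ← hl]
  have h2 := div_le_div_of_nonneg_right h1 (by linarith : (0 : ℝ) ≤ q)
  have e1 : 2 * (4 * l / q) = 8 * (l / q) := by ring
  have e2 : 16 * l ^ (2 : ℝ) / q = 16 * (l ^ (2 : ℝ) / q) := by ring
  rw [e1]
  rw [e2] at h2
  linarith

end GC

end Pool.Agent.H204.AS
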