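import Pool.Agent.H204.AS.Lim

open MeasureTheory Set Filter Topology
open scoped ENNReal NNReal ComplexConjugate

namespace Pool.Agent.H204.AS

open Pool.Agent.H521 Pool.Agent.H521.G Pool.Agent.H204.SI

/-- the differences of the square roots -/
noncomputable def sd (p : ℕ → ℝ) (n : ℕ) : ℝ≥0∞ :=
  ENNReal.ofReal (Real.sqrt (p (n + 1)) - Real.sqrt (p n))

/-- the size of window `k` -/
noncomputable def la (b : ℕ → ℝ≥0∞) (k : ℕ) : ℝ :=
  (min (b (Nat.unpair k).1) ((k : ℝ≥0∞) + 1)).toReal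

theorem la_nonneg (b : ℕ → ℝ≥0∞) (k : ℕ) : 0 ≤ la b k := ENNReal.toReal_nonneg

theorem la_le (b : ℕ → ℝ≥0∞) (k : ℕ) : la b k ≤ k + 1 := by
  have h := ENNReal.toReal_mono (a := min (b (Nat.unpair k).1) ((k : ℝ≥0∞) + 1))
    (b := (k : ℝ≥0∞) + 1) (by simp) (min_le_right _ _)
  refine h.trans (le_of_eq ?_)
  rw [ENNReal.toReal_add (by simp) (by simp)]
  simp

theorem ofReal_la (b : ℕ → ℝ≥0∞) (k : ℕ) :
    ENNReal.ofReal (la b k) = min (b (Nat.unpair k).1) ((k : ℝ≥0∞) + 1) :=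
  ENNReal.ofReal_toReal (min_ne_top' _ k)

def PL (b : ℕ → ℝ≥0∞) (k : ℕ) (x : ℝ) : Prop :=
  (1 + (0 : ℝ)) * (2 * la b k * Real.sqrt x) ≤ ((k : ℝ) + 2) * x ^ (1 / 2 + 1 / ((k : ℝ) + 1)) ∧
    (2 : ℝ) ^ k ≤ x ∧ 2 * la b k * Real.sqrt x ≤ x

theorem PL_ev (b : ℕ → ℝ≥0∞) (k : ℕ) : ∀ᶠ x in atTop, PL b k x := by
  have hk0 : (0 : ℝ) ≤ k := Nat.cast_nonneg k
  have ha0 := la_nonneg b k
  have ha1 := la_le b k
  have hT : Tendsto (fun x : ℝ => x ^ (1 / ((k : ℝ) + 1))) atTop atTop :=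
    tendsto_rpow_atTop (by positivity)
  filter_upwards [hT.eventually_ge_atTop 2, eventually_ge_atTop ((2 : ℝ) ^ k),
    Real.tendsto_sqrt_atTop.eventually_ge_atTop (2 * ((k : ℝ) + 1)), eventually_gt_atTop 0]
    with x h1 h2 h3 h4
  have hs0 : 0 < Real.sqrt x := Real.sqrt_pos.2 h4
  refine ⟨?_, h2, ?_⟩
  · rw [Real.rpow_add h4, ← Real.sqrt_eq_rpow, add_zero, one_mul]
    have a1 : 2 * la b k * Real.sqrt x ≤ 2 * ((k : ℝ) + 2) * Real.sqrt x :=
      mul_le_mul_of_nonneg_right (by linarith) hs0.le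
    have a2 : 2 * (((k : ℝ) + 2) * Real.sqrt x) ≤
        x ^ (1 / ((k : ℝ) + 1)) * (((k : ℝ) + 2) * Real.sqrt x) :=
      mul_le_mul_of_nonneg_right h1 (by positivity)
    linarith
  · have a1 : 2 * la b k * Real.sqrt x ≤ Real.sqrt x * Real.sqrt x :=
      mul_le_mul_of_nonneg_right (by linarith) hs0.le
    rwa [Real.mul_self_sqrt h4.le] at a1

theorem tendsto_of_close {ι : Type*} {F : Filter ι} {w a e : ι → ℝ} {y : ℝ≥0∞}
    (h : ∀ᶠ i in F, |w i - a i| ≤ e i) (he : Tendsto e F (𝓝 0))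
    (ha : Tendsto (fun i => ENNReal.ofReal (a i)) F (𝓝 y)) :
    Tendsto (fun i => ENNReal.ofReal (w i)) F (𝓝 y) := by
  have he' : Tendsto (fun i => ENNReal.ofReal (e i)) F (𝓝 0) := by
    have := ENNReal.tendsto_ofReal he
    rwa [ENNReal.ofReal_zero] at this
  have h1 : Tendsto (fun i => ENNReal.ofReal (a i) - ENNReal.ofReal (e i)) F (𝓝 y) := by
    have := ENNReal.Tendsto.sub ha he' (Or.inr (by simp))
    rwa [tsub_zero] at this
  have h2 : Tendsto (fun i => ENNReal.ofReal (a i) + ENNReal.ofReal (e i)) F (𝓝 y) := by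
    have := ha.add he'
    rwa [add_zero] at this
  refine tendsto_of_tendsto_of_tendsto_of_le_of_le' h1 h2 ?_ ?_
  · filter_upwards [h] with i hi
    rw [tsub_le_iff_right]
    refine (ENNReal.ofReal_le_ofReal ?_).trans ENNReal.ofReal_add_le
    have := (abs_le.1 hi).1
    linarith
  · filter_upwards [h] with i hi
    refine (ENNReal.ofReal_le_ofReal ?_).trans ENNReal.ofReal_add_le
    have := (abs_le.1 hi).2
    linarith

/-- **Systems with a prescribed set of limit points.** -/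
theorem exists_lim {Z : Multiset ℂ} (hZ : ∀ ρ ∈ Z, ρ.re < 1) (hZc : Z.map conj = Z)
    {A : Set ℝ≥0∞} (hA : IsClosed A) (h0 : 0 ∈ A) :
    ∃ p : ℕ → ℝ, Sys Z p ∧ AAL p ∧ {x | MapClusterPt x atTop (sd p)} = A := by
  have : Nonempty A := ⟨⟨0, h0⟩⟩
  set b : ℕ → ℝ≥0∞ := fun i => (TopologicalSpace.denseSeq A i : ℝ≥0∞) with hb
  have hbA : ∀ i, b i ∈ A := fun i => (TopologicalSpace.denseSeq A i).2
  have hbd : ∀ x ∈ A, ∀ O : Set ℝ≥0∞, IsOpen O → x ∈ O → ∃ i, b i ∈ O := by
    intro x hx O hO hxO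
    have h1 : IsOpen ((↑) ⁻¹' O : Set A) := hO.preimage continuous_subtype_val
    exact (TopologicalSpace.denseRange_denseSeq A).exists_mem_open h1 ⟨⟨x, hx⟩, hxO⟩
  obtain ⟨x₀, hR⟩ := exists_RDens hZ
  obtain ⟨S, hP, hE, hr, h4, hWg⟩ := exists_sched3 hR
    (g := fun k x => 2 * la b k * Real.sqrt x) (ls := fun _ => 0)
    (fun k x _ => by have := la_nonneg b k; positivity) (fun _ => le_rfl) (P := PL b) (PL_ev b)
    (fun k x h => h.1) (fun k x h => h.2.1)
  obtain ⟨V, hV, hSys⟩ := S.toW.system hR hZ hZc rfl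
  let C : GC Z x₀ :=
    { hZ := hZ, hR := hR, S := S, V := V, hV := hV
      g := fun k => 2 * la b k * Real.sqrt (phi (fZ Z) x₀ (S.A k)), ls := fun _ => 0
      hg0 := fun k => by have := la_nonneg b k; positivity
      hg1 := fun k => (hP k).2.2
      hls0 := fun _ => le_rfl
      hls1 := fun k => by positivity
      hE := hE, hr := hr, h4 := h4
      hPb := fun k => (hP k).2.1 }
  have hSys' : Sys Z C.p := hSys
  have hr0 : ∀ k, C.S.r k = 0 := fun k => by
    have := C.hr k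
    rw [this]
    change ⌊(0 : ℝ) * _⌋₊ = 0
    rw [zero_mul, Nat.floor_zero]
  have hg : ∀ k, C.g k = 2 * la b k * Real.sqrt (C.X k) := fun k => rfl
  have hκ : Tendsto (fun n => C.S.kap (blk C.S.toW.n n)) atTop atTop :=
    C.kap_tendsto.comp (blk_tendsto C.S.toW.n_pos)
  have her : Tendsto (fun k => GC.er (C.X k)) atTop (𝓝 0) := GC.er_tendsto.comp C.X_tendsto
  have hclose : ∀ᶠ k : ℕ in atTop, ∀ n, C.Cov n k →
      |(Real.sqrt (C.p (n + 1)) - Real.sqrt (C.p n)) - la b k| ≤ GC.er (C.X k) := by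
    filter_upwards [C.sqrt_cov2] with k hk n hc
    exact hk n hc _ (la_nonneg b k) (la_le b k) (hg k)
  refine ⟨C.p, hSys', C.aal, Set.ext fun x => ⟨fun hx => ?_, fun hx => ?_⟩⟩
  · -- limit points are in `A`
    obtain ⟨U, hU, hUx⟩ := mapClusterPt_iff_ultrafilter.1 hx
    have h1 := hU (C.short_or_cov hr0)
    rcases Ultrafilter.eventually_or.1 h1 with h2 | h2
    · have h3 : Tendsto (fun n => Real.sqrt (C.p (n + 1)) - Real.sqrt (C.p n)) U (𝓝 0) := by
        have h4 : Tendsto (fun n => 8 * (Real.log (C.p n) / Real.sqrt (C.p n))) atTop (𝓝 0) := by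
          have a1 := ((log_rpow_over_rpow 1 (1 / 2) (by norm_num)).const_mul 8).comp C.p_tendsto
          rw [mul_zero] at a1
          refine a1.congr fun n => ?_
          simp only [Function.comp]
          rw [Real.sqrt_eq_rpow, Real.rpow_one]
        refine tendsto_of_tendsto_of_tendsto_of_le_of_le' tendsto_const_nhds (h4.mono_left hU)
          (Eventually.of_forall fun n => ?_) ?_
        · have := Real.sqrt_le_sqrt (C.p_strictMono (Nat.lt_succ_self n)).le
          linarith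
        · filter_upwards [h2] with n hn
          have hp0 : 0 < C.p n := C.hR.phi_pos _
          have hp1 : 0 < C.p (n + 1) := C.hR.phi_pos _
          have b1 := Real.mul_self_sqrt hp0.le
          have b2 := Real.mul_self_sqrt hp1.le
          have b3 := Real.sqrt_pos.2 hp0
          have b4 := Real.sqrt_pos.2 hp1
          have b5 := Real.sqrt_le_sqrt (C.p_strictMono (Nat.lt_succ_self n)).le
          rw [mul_div_assoc', le_div_iff₀ b3]
          nlinarith
      have h4 := ENNReal.tendsto_ofReal h3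
      rw [ENNReal.ofReal_zero] at h4
      rw [tendsto_nhds_unique hUx h4]
      exact h0
    · -- the windows
      have hκU : Tendsto (fun n => C.S.kap (blk C.S.toW.n n)) U atTop := hκ.mono_left hU
      set κ : ℕ → ℕ := fun n => C.S.kap (blk C.S.toW.n n) with hκd
      obtain ⟨a, haA, ha⟩ := hA.isCompact.ultrafilter_le_nhds
        (U.map fun n => b (Nat.unpair (κ n)).1) (by
          rw [le_principal_iff]
          exact Filter.Eventually.of_forall (f := (U : Filter ℕ)) fun n => hbA _)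
      have ha' : Tendsto (fun n => b (Nat.unpair (κ n)).1) U (𝓝 a) := ha
      have h3 : Tendsto (fun n => ((κ n : ℕ) : ℝ≥0∞) + 1) U (𝓝 ⊤) := by
        have h4 : Tendsto (fun n => ((κ n : ℕ) : ℝ≥0∞)) U (𝓝 ⊤) :=
          ENNReal.tendsto_nat_nhds_top.comp hκU
        have := h4.add (tendsto_const_nhds (x := (1 : ℝ≥0∞)))
        rwa [top_add] at this
      have h5 : Tendsto (fun n => ENNReal.ofReal (la b (κ n))) U (𝓝 a) := by
        have := ha'.min h3
        rw [min_eq_left le_top] at this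
        refine this.congr fun n => ?_
        rw [ofReal_la]
      have h6 : Tendsto (sd C.p) U (𝓝 a) := by
        refine tendsto_of_close (w := fun n => Real.sqrt (C.p (n + 1)) - Real.sqrt (C.p n))
          (a := fun n => la b (κ n)) (e := fun n => GC.er (C.X (κ n))) ?_ (her.comp hκU) h5
        filter_upwards [h2, hκU.eventually hclose] with n a1 a2
        exact a2 n a1
      rw [tendsto_nhds_unique hUx h6]
      exact haA
  · -- the points of `A` are limit points
    rw [mem_ofPred_eq, mapClusterPt_iff_frequently]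
    intro s hs
    obtain ⟨O, hOs, hO, hxO⟩ := mem_nhds_iff.1 hs
    obtain ⟨i, hi⟩ := hbd x hx O hO hxO
    choose N hN1 hN2 using fun k => C.cov_of k (hr0 k)
    have hpt : Tendsto (fun t : ℕ => Nat.pair i t) atTop atTop :=
      tendsto_atTop_mono (fun t => Nat.right_le_pair i t) tendsto_id
    have hNt : Tendsto (fun t : ℕ => N (Nat.pair i t)) atTop atTop :=
      tendsto_atTop_mono (fun t => hN1 _) hpt
    have h3 : Tendsto (fun t : ℕ => ((Nat.pair i t : ℕ) : ℝ≥0∞) + 1) atTop (𝓝 ⊤) := by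
      have h4 : Tendsto (fun t : ℕ => ((Nat.pair i t : ℕ) : ℝ≥0∞)) atTop (𝓝 ⊤) :=
        ENNReal.tendsto_nat_nhds_top.comp hpt
      have := h4.add (tendsto_const_nhds (x := (1 : ℝ≥0∞)))
      rwa [top_add] at this
    have h5 : Tendsto (fun t : ℕ => ENNReal.ofReal (la b (Nat.pair i t))) atTop (𝓝 (b i)) := by
      have := (tendsto_const_nhds (x := b i) (f := (atTop : Filter ℕ))).min h3
      rw [min_eq_left le_top] at this
      refine this.congr fun t => ?_
      rw [ofReal_la, Nat.unpair_pair]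
    have h6 : Tendsto (fun t : ℕ => sd C.p (N (Nat.pair i t))) atTop (𝓝 (b i)) := by
      refine tendsto_of_close
        (w := fun t => Real.sqrt (C.p (N (Nat.pair i t) + 1)) - Real.sqrt (C.p (N (Nat.pair i t))))
        (a := fun t => la b (Nat.pair i t)) (e := fun t => GC.er (C.X (Nat.pair i t))) ?_
        (her.comp hpt) h5
      filter_upwards [hpt.eventually hclose] with t ht
      exact ht _ (hN2 _)
    have h7 : ∀ᶠ t in atTop, sd C.p (N (Nat.pair i t)) ∈ s := by
      filter_upwards [h6.eventually (hO.mem_nhds hi)] with t ht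
      exact hOs ht
    exact hNt.frequently h7.frequently

/-- `0` is a limit point in every system. -/
theorem zero_lim {Z : Multiset ℂ} (hZ : ∀ ρ ∈ Z, ρ.re < 1) {p : ℕ → ℝ} (hp : StrictMono p)
    (hpnt : ∀ ε : ℝ, 0 < ε → ∃ C : ℝ, ∀ x : ℝ, 2 ≤ x →
        |(countPr p x : ℝ) - mainTerm Z x| ≤ C * x ^ (1 / 2 + ε)) :
    MapClusterPt 0 atTop (sd p) := by
  rw [mapClusterPt_iff_frequently]
  intro s hs
  by_contra hcon
  rw [not_frequently] at hcon
  have h1 : (fun r : ℝ => ENNReal.ofReal r) ⁻¹' s ∈ 𝓝 (0 : ℝ) := by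
    apply ENNReal.continuous_ofReal.continuousAt.preimage_mem_nhds
    rwa [ENNReal.ofReal_zero]
  obtain ⟨δ, hδ, hball⟩ := Metric.mem_nhds_iff.1 h1
  obtain ⟨N, hN⟩ := eventually_atTop.1 hcon
  have h2 : ∀ n, N ≤ n → δ ≤ Real.sqrt (p (n + 1)) - Real.sqrt (p n) := by
    intro n hn
    by_contra hc
    push Not at hc
    apply hN n hn
    apply hball
    rw [Metric.mem_ball, Real.dist_eq, sub_zero, abs_lt]
    have := Real.sqrt_le_sqrt (hp (Nat.lt_succ_self n)).le
    constructor <;> linarith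
  have h3 : ∀ j : ℕ, δ * j ≤ Real.sqrt (p (N + j)) := by
    intro j
    induction j with
    | zero => simp [Real.sqrt_nonneg]
    | succ j ih =>
      have := h2 (N + j) (by omega)
      rw [show N + (j + 1) = N + j + 1 by omega]
      push_cast
      linarith
  have h4 : ∀ y : ℝ, (countPr p y : ℝ) ≤ N + 1 + Real.sqrt y / δ := by
    intro y
    have hsub : {j : ℕ | p j ≤ y} ⊆ (Finset.range (N + ⌊Real.sqrt y / δ⌋₊ + 1) : Set ℕ) := by
      intro j hj
      rw [Finset.coe_range, mem_Iio]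
      by_contra hc
      push Not at hc
      obtain ⟨i, hi⟩ := Nat.exists_eq_add_of_le (by omega : N ≤ j)
      have h5 := h3 i
      rw [← hi] at h5
      have h6 : Real.sqrt (p j) ≤ Real.sqrt y := Real.sqrt_le_sqrt hj
      have h7 : (i : ℝ) ≤ Real.sqrt y / δ := by
        rw [le_div_iff₀ hδ]
        linarith
      have h8 : i ≤ ⌊Real.sqrt y / δ⌋₊ := Nat.le_floor h7
      omega
    have h5 : countPr p y ≤ N + ⌊Real.sqrt y / δ⌋₊ + 1 := by
      have := Set.ncard_le_ncard hsub (Finset.finite_toSet _)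
      rwa [Set.ncard_coe_finset, Finset.card_range] at this
    have h6 : (⌊Real.sqrt y / δ⌋₊ : ℝ) ≤ Real.sqrt y / δ :=
      Nat.floor_le (div_nonneg (Real.sqrt_nonneg _) hδ.le)
    have h7 : (countPr p y : ℝ) ≤ N + ⌊Real.sqrt y / δ⌋₊ + 1 := by exact_mod_cast h5
    linarith
  have h5 := ratio_one hZ hpnt (a := 3 / 4) (by norm_num) (by norm_num)
    (by norm_num : (0 : ℝ) < 1 / 2)
  have h6 := (T_tendsto (by norm_num : (0 : ℝ) < 1 / 4)).eventually_gt_atTop
    (2 * (N + 1 + 2 / δ))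
  obtain ⟨x, hx5, hx6, hx7⟩ := (h5.and (h6.and (eventually_gt_atTop 1))).exists
  have hlx := Real.log_pos hx7
  have hx0 : 0 < x := by linarith
  have hs1 : 1 ≤ Real.sqrt x := by
    rw [show (1 : ℝ) = Real.sqrt 1 by simp]
    exact Real.sqrt_le_sqrt hx7.le
  have e1 : x ^ (3 / 4 : ℝ) / Real.log x = Real.sqrt x * (x ^ (1 / 4 : ℝ) / Real.log x) := by
    rw [Real.sqrt_eq_rpow, mul_div_assoc', ← Real.rpow_add hx0]
    norm_num
  have h7 := (abs_le.1 hx5).1
  rw [e1] at h7
  have h8 : cnt p x (x ^ (3 / 4 : ℝ)) ≤ N + 1 + Real.sqrt (x + x ^ (3 / 4 : ℝ)) / δ := by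
    unfold cnt
    have a1 := h4 (x + x ^ (3 / 4 : ℝ))
    have a2 : (0 : ℝ) ≤ countPr p x := Nat.cast_nonneg _
    linarith
  have h9 : Real.sqrt (x + x ^ (3 / 4 : ℝ)) ≤ 2 * Real.sqrt x := by
    have a1 : x ^ (3 / 4 : ℝ) ≤ x := pow_le_id (by norm_num) hx7.le
    apply Real.sqrt_le_iff.2
    refine ⟨by positivity, ?_⟩
    rw [mul_pow, Real.sq_sqrt hx0.le]
    linarith
  have h10 : Real.sqrt (x + x ^ (3 / 4 : ℝ)) / δ ≤ Real.sqrt x * (2 / δ) := by
    rw [mul_div_assoc', div_le_div_iff_of_pos_right hδ]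
    linarith
  have hN0 : (0 : ℝ) ≤ (N : ℝ) + 1 := by positivity
  have h11 : (N : ℝ) + 1 ≤ Real.sqrt x * (N + 1) := le_mul_of_one_le_left hN0 hs1
  have h12 : Real.sqrt x * (2 * (N + 1 + 2 / δ)) < Real.sqrt x * (x ^ (1 / 4 : ℝ) / Real.log x) :=
    mul_lt_mul_of_pos_left hx6 (by linarith)
  nlinarith

end Pool.Agent.H204.AS
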