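import Pool.Agent.H204.AS.Unif

open MeasureTheory Set Filter Topology
open scoped ENNReal NNReal ComplexConjugate

namespace Pool.Agent.H204.AS

open Pool.Agent.H521 Pool.Agent.H521.G Pool.Agent.H204.SI

/-! ### Exact thresholds -/

theorem aliminf_ge {p : ℕ → ℝ} {h : ℝ → ℝ} (hT : ∀ᶠ x in atTop, 0 < h x / Real.log x) {r : ℝ}
    (hev : ∀ ε : ℝ, 0 < ε → ∀ᶠ x in atTop, (r - ε) * (h x / Real.log x) ≤ cnt p x (h x)) :
    ENNReal.ofReal r ≤ liminf (gR p h) atTop := by
  apply ENNReal.le_of_forall_pos_le_add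
  intro ε hε _
  have h1 : ∀ᶠ x in atTop, ENNReal.ofReal (r - ε) ≤ gR p h x := by
    filter_upwards [hev ε (by exact_mod_cast hε), hT] with x hx hl
    unfold gR
    apply ENNReal.ofReal_le_ofReal
    rw [le_div_iff₀ hl]
    exact hx
  have h2 : ENNReal.ofReal (r - ε) ≤ liminf (gR p h) atTop :=
    le_liminf_of_le (by isBoundedDefault) h1
  calc ENNReal.ofReal r = ENNReal.ofReal ((r - ε) + ε) := by ring_nf
    _ ≤ ENNReal.ofReal (r - ε) + ENNReal.ofReal ε := ENNReal.ofReal_add_le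
    _ ≤ liminf (gR p h) atTop + ε := by
        rw [ENNReal.ofReal_coe_nnreal]
        exact add_le_add_left h2 _

theorem alimsup_le {p : ℕ → ℝ} {h : ℝ → ℝ} (hT : ∀ᶠ x in atTop, 0 < h x / Real.log x) {r : ℝ}
    (hr : 0 ≤ r)
    (hev : ∀ ε : ℝ, 0 < ε → ∀ᶠ x in atTop, cnt p x (h x) ≤ (r + ε) * (h x / Real.log x)) :
    limsup (gR p h) atTop ≤ ENNReal.ofReal r := by
  apply ENNReal.le_of_forall_pos_le_add
  intro ε hε _
  have h1 : ∀ᶠ x in atTop, gR p h x ≤ ENNReal.ofReal (r + ε) := by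
    filter_upwards [hev ε (by exact_mod_cast hε), hT] with x hx hl
    unfold gR
    apply ENNReal.ofReal_le_ofReal
    rw [div_le_iff₀ hl]
    exact hx
  have h2 : limsup (gR p h) atTop ≤ ENNReal.ofReal (r + ε) :=
    limsup_le_of_le (by isBoundedDefault) h1
  refine h2.trans ?_
  rw [ENNReal.ofReal_add hr (NNReal.coe_nonneg ε), ENNReal.ofReal_coe_nnreal]

theorem aliminf_le {p : ℕ → ℝ} {h : ℝ → ℝ} (hT : ∀ᶠ x in atTop, 0 < h x / Real.log x) {r : ℝ}
    (hr : 0 ≤ r)
    (hfr : ∀ ε : ℝ, 0 < ε → ∃ᶠ x in atTop, cnt p x (h x) ≤ (r + ε) * (h x / Real.log x)) :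
    liminf (gR p h) atTop ≤ ENNReal.ofReal r := by
  apply ENNReal.le_of_forall_pos_le_add
  intro ε hε _
  have h1 : ∃ᶠ x in atTop, gR p h x ≤ ENNReal.ofReal (r + ε) := by
    refine ((hfr ε (by exact_mod_cast hε)).and_eventually hT).mono fun x hx => ?_
    unfold gR
    apply ENNReal.ofReal_le_ofReal
    rw [div_le_iff₀ hx.2]
    exact hx.1
  have h2 : liminf (gR p h) atTop ≤ ENNReal.ofReal (r + ε) := liminf_le_of_frequently_le' h1
  refine h2.trans ?_
  rw [ENNReal.ofReal_add hr (NNReal.coe_nonneg ε), ENNReal.ofReal_coe_nnreal]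

theorem alimsup_ge {p : ℕ → ℝ} {h : ℝ → ℝ} (hT : ∀ᶠ x in atTop, 0 < h x / Real.log x) {r : ℝ}
    (hfr : ∀ ε : ℝ, 0 < ε → ∃ᶠ x in atTop, (r - ε) * (h x / Real.log x) ≤ cnt p x (h x)) :
    ENNReal.ofReal r ≤ limsup (gR p h) atTop := by
  apply ENNReal.le_of_forall_pos_le_add
  intro ε hε _
  have h1 : ∃ᶠ x in atTop, ENNReal.ofReal (r - ε) ≤ gR p h x := by
    refine ((hfr ε (by exact_mod_cast hε)).and_eventually hT).mono fun x hx => ?_
    unfold gR
    apply ENNReal.ofReal_le_ofReal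
    rw [le_div_iff₀ hx.2]
    exact hx.1
  have h2 : ENNReal.ofReal (r - ε) ≤ limsup (gR p h) atTop :=
    le_limsup_of_frequently_le h1 (by isBoundedDefault)
  calc ENNReal.ofReal r = ENNReal.ofReal ((r - ε) + ε) := by ring_nf
    _ ≤ ENNReal.ofReal (r - ε) + ENNReal.ofReal ε := ENNReal.ofReal_add_le
    _ ≤ limsup (gR p h) atTop + ε := by
        rw [ENNReal.ofReal_coe_nnreal]
        exact add_le_add_left h2 _

namespace GC

variable {Z : Multiset ℂ} {x₀ : ℝ} (C : GC Z x₀)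

/-- localisation with exact position -/
theorem loc3 {h : ℝ → ℝ} (hh : ∀ᶠ x in atTop, 0 < h x ∧ h x ≤ x) (K₀ : ℕ) :
    ∀ᶠ x in atTop, ∃ k, K₀ ≤ k ∧ ∃ cc : ℝ,
    |cnt C.p x (h x) - ((Fp (fZ Z) x₀ (x + h x) - Fp (fZ Z) x₀ x) +
      (C.ls k - 1) * cc)| ≤ 3 ∧ 0 ≤ cc ∧ cc ≤ C.S.Wd k ∧
    (0 < cc → C.X k ≤ x + h x ∧ x ≤ C.X k + C.g k) := by
  filter_upwards [hh, eventually_ge_atTop x₀, eventually_gt_atTop 1,
    eventually_gt_atTop (phi (fZ Z) x₀ (C.S.E K₀))] with x hhx hx0 hx1 hxE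
  have hxb : h x ≤ x := hhx.2
  have hh : 0 < h x := hhx.1
  generalize h x = h at *
  set y := Fp (fZ Z) x₀ x with hy
  set z := Fp (fZ Z) x₀ (x + h) with hz
  have hy0 : 0 ≤ y := by
    have := C.hR.F_mono le_rfl hx0
    rwa [C.hR.F_zero] at this
  have hyz : y ≤ z := C.hR.F_mono hx0 (by linarith)
  have hex : ∃ k, y < C.S.E k := (C.E_tendsto.eventually_gt_atTop y).exists
  classical
  set k := Nat.find hex with hk
  have hkE : y < C.S.E k := Nat.find_spec hex
  have hmin : ∀ i < k, C.S.E i ≤ y := fun i hi => not_lt.1 (Nat.find_min hex hi)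
  have hφy : phi (fZ Z) x₀ y = x := C.hR.phi_F hx0
  have hφz : phi (fZ Z) x₀ z = x + h := C.hR.phi_F (by linarith)
  have hK₀ : K₀ ≤ k := by
    by_contra hc
    push Not at hc
    have h1 := C.E_mono hc.le
    have h2 := C.hR.phi_mono (hkE.le.trans h1)
    rw [hφy] at h2
    linarith
  have hxk : x < phi (fZ Z) x₀ (C.S.E k) := by
    rw [← hφy]; exact C.hR.phi_lt hy0 hkE
  have hzA : z < C.S.A (k + 1) := by
    by_contra hc
    push Not at hc
    have h1 := C.hR.phi_mono hc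
    rw [hφz] at h1
    have h2 := C.h4 k
    linarith
  have hci := C.S.count_incr C.hV hy0 hyz hmin hzA
  refine ⟨k, hK₀, C.S.cl k z - C.S.cl k y, ?_, ?_, ?_, ?_⟩
  · have e1 : cnt C.p x h = (countPr (fun n => C.S.toW.yk C.V n) z : ℝ) -
        countPr (fun n => C.S.toW.yk C.V n) y := by
      unfold cnt
      have a1 := countPr_phi C.hR (y := C.S.toW.yk C.V) (fun n => C.S.toW.yk_nonneg C.hV n)
        (x := x + h) (by linarith)
      have a2 := countPr_phi C.hR (y := C.S.toW.yk C.V) (fun n => C.S.toW.yk_nonneg C.hV n)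
        (x := x) hx0
      change (countPr C.p (x + h) : ℝ) - _ = _
      have a1' : countPr C.p (x + h) = countPr (C.S.toW.yk C.V) z := a1
      have a2' : countPr C.p x = countPr (C.S.toW.yk C.V) y := a2
      rw [a1', a2']
    rw [e1]
    set cc := C.S.cl k z - C.S.cl k y with hcc
    have hc0 : 0 ≤ cc := by have := C.S.cl_mono (k := k) hyz; linarith
    have hcW : cc ≤ C.S.Wd k := by
      have := C.S.cl_le k z
      have := C.S.cl_nonneg k y
      linarith
    have h5 := C.lam_le k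
    have h6 := C.lam_ge k
    have h7 : 0 ≤ (C.ls k - C.S.lam k) * cc := mul_nonneg (by linarith) hc0
    have h8 : (C.ls k - C.S.lam k) * cc ≤ 1 :=
      (mul_le_mul_of_nonneg_left hcW (by linarith)).trans h6
    have h9 := abs_le.1 hci
    rw [abs_le]
    constructor <;> nlinarith [h9.1, h9.2]
  · have := C.S.cl_mono (k := k) hyz
    linarith
  · have := C.S.cl_le k z
    have := C.S.cl_nonneg k y
    linarith
  · intro hcc
    have hzA' : C.S.A k < z := by
      by_contra hc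
      push Not at hc
      rw [C.S.cl_zero hc] at hcc
      have := C.S.cl_nonneg k y
      linarith
    have h1 : C.X k ≤ x + h := by
      rw [← hφz]; exact C.hR.phi_mono hzA'.le
    have h2 := C.hE k
    change _ = C.X k + C.g k at h2
    constructor <;> linarith

/-- the count in `(X k, X k + h]` -/
theorem at_X2 {h : ℝ → ℝ} (hh : ∀ᶠ x in atTop, 0 < h x ∧ h x ≤ x) : ∀ᶠ k : ℕ in atTop,
    |cnt C.p (C.X k) (h (C.X k)) - ((Fp (fZ Z) x₀ (C.X k + h (C.X k)) - Fp (fZ Z) x₀ (C.X k)) +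
      (C.ls k - 1) * min (Fp (fZ Z) x₀ (C.X k + h (C.X k)) - Fp (fZ Z) x₀ (C.X k))
        (C.S.Wd k))| ≤ 3 := by
  filter_upwards [C.X_tendsto.eventually hh] with k hk3
  have hx0 : x₀ ≤ C.X k := C.hR.phi_ge _
  have hX1 := C.one_lt_X k
  obtain ⟨hh0, hhx⟩ := hk3
  have hXE : C.X k ≤ phi (fZ Z) x₀ (C.S.E k) := C.hR.phi_mono (C.A_le_E k)
  set x := C.X k with hx
  generalize h x = h at *
  set y := C.S.A k with hy
  have hFx : Fp (fZ Z) x₀ x = y := C.hR.F_phi (C.A_nonneg k)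
  rw [hFx]
  set z := Fp (fZ Z) x₀ (x + h) with hz
  have hyz : y ≤ z := by rw [← hFx]; exact C.hR.F_mono hx0 (by linarith)
  have hφz : phi (fZ Z) x₀ z = x + h := C.hR.phi_F (by linarith)
  have hzA : z < C.S.A (k + 1) := by
    by_contra hc
    push Not at hc
    have h1 := C.hR.phi_mono hc
    rw [hφz] at h1
    have h2 := C.h4 k
    linarith
  have hmin : ∀ i < k, C.S.E i ≤ y := fun i hi => by
    have h1 := C.E_mono (by omega : i ≤ k - 1)
    have h2 := C.E_lt_A (k - 1)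
    have e : k - 1 + 1 = k := by omega
    rw [e] at h2
    linarith
  have hci := C.S.count_incr C.hV (C.A_nonneg k) hyz hmin hzA
  have hcl : C.S.cl k z = min (z - y) (C.S.Wd k) := by
    unfold Sch.cl
    rw [max_eq_left (by linarith)]
  rw [C.S.cl_zero le_rfl, hcl, sub_zero] at hci
  have e1 : cnt C.p x h = (countPr (fun n => C.S.toW.yk C.V n) z : ℝ) -
      countPr (fun n => C.S.toW.yk C.V n) y := by
    have a1 : countPr C.p (x + h) = countPr (C.S.toW.yk C.V) z :=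
      countPr_phi C.hR (fun n => C.S.toW.yk_nonneg C.hV n) (by linarith)
    have a2 : countPr C.p x = countPr (C.S.toW.yk C.V) y := by
      rw [← hFx]
      exact countPr_phi C.hR (fun n => C.S.toW.yk_nonneg C.hV n) hx0
    unfold cnt
    rw [a1, a2]
  rw [← e1] at hci
  set cc := min (z - y) (C.S.Wd k) with hcc
  have hc0 : 0 ≤ cc := le_min (by linarith) (C.S.W0 k)
  have hcW : cc ≤ C.S.Wd k := min_le_right _ _
  have h5 := C.lam_le k
  have h6 := C.lam_ge k
  have h7 : 0 ≤ (C.ls k - C.S.lam k) * cc := mul_nonneg (by linarith) hc0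
  have h8 : (C.ls k - C.S.lam k) * cc ≤ 1 :=
    (mul_le_mul_of_nonneg_left hcW (by linarith)).trans h6
  have h9 := abs_le.1 hci
  rw [abs_le]
  constructor <;> nlinarith [h9.1, h9.2]

/-- the bounds near windows of bounded mass -/
theorem mass_bd {f h : ℝ → ℝ} (hh : ∀ᶠ x in atTop, 0 < h x ∧ h x ≤ x)
    (hlarge : Tendsto (fun x => h x / Real.log x) atTop atTop)
    (hmass : ∀ k, |C.ls k - 1| * C.g k ≤ f (C.X k)) (hgle : ∀ k, C.g k ≤ f (C.X k)) {r : ℝ}
    (hr : 0 ≤ r) (hnear : ∀ ε : ℝ, 0 < ε → ∀ᶠ x in atTop, ∀ y, x ≤ 2 * y → y ≤ x + h x →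
      x ≤ y + f y → f y ≤ (r + ε) * h x) {ε : ℝ} (hε : 0 < ε) :
    ∀ᶠ x in atTop, |cnt C.p x (h x) - h x / Real.log x| ≤ (r + ε) * (h x / Real.log x) := by
  set δ : ℝ := min 1 (ε / (2 * (5 + 3 * r))) with hδ
  have hδ0 : 0 < δ := lt_min one_pos (by positivity)
  have hδ1 : δ ≤ 1 := min_le_left _ _
  have hδ2 : δ * (5 + 3 * r) ≤ ε / 2 := by
    have : δ ≤ ε / (2 * (5 + 3 * r)) := min_le_right _ _
    calc δ * (5 + 3 * r) ≤ ε / (2 * (5 + 3 * r)) * (5 + 3 * r) :=
          mul_le_mul_of_nonneg_right this (by positivity)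
      _ = ε / 2 := by field_simp
  have hlogX : Tendsto (fun k => Real.log (C.X k)) atTop atTop :=
    Real.tendsto_log_atTop.comp C.X_tendsto
  obtain ⟨K₁, hK₁⟩ := eventually_atTop.1 ((C.W_bd hδ0).and
    (hlogX.eventually_ge_atTop (Real.log 2 / δ)))
  filter_upwards [C.loc3 hh K₁, C.H_bd hh hδ0, hlarge.eventually_ge_atTop (6 / ε),
    eventually_gt_atTop 1, hnear δ hδ0, hh] with x hx1 hx2 hx3 hx4 hx5 hx6
  obtain ⟨k, hk, cc, h1, h2, h3, h4⟩ := hx1
  obtain ⟨hW, hlX⟩ := hK₁ k hk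
  have hlx : 0 < Real.log x := Real.log_pos hx4
  have hh0 := hx6.1
  set H := Fp (fZ Z) x₀ (x + h x) - Fp (fZ Z) x₀ x with hH
  set T := h x / Real.log x with hT
  have hT0 : 0 < T := by positivity
  have h5 : 3 ≤ ε / 2 * T := by
    rw [div_le_iff₀ hε] at hx3
    linarith
  have h6 : |(C.ls k - 1) * cc| ≤ (1 + δ) ^ 2 * (r + δ) * T := by
    rcases eq_or_lt_of_le h2 with hc | hc
    · rw [← hc, mul_zero, abs_zero]
      positivity
    obtain ⟨h7, h8⟩ := h4 hc
    have hX0 : 0 < C.X k := by linarith [C.one_lt_X k]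
    have hlX0 : 0 < Real.log (C.X k) := by linarith [C.two_le_logX k]
    have hg1 : C.g k ≤ C.X k := C.hg1 k
    have h9 : f (C.X k) ≤ (r + δ) * h x :=
      hx5 (C.X k) (by linarith) h7 (by linarith [hgle k])
    have h10 : Real.log x ≤ (1 + δ) * Real.log (C.X k) := by
      have a1 : Real.log x ≤ Real.log (2 * C.X k) := Real.log_le_log (by linarith) (by linarith)
      rw [Real.log_mul (by norm_num) hX0.ne'] at a1
      rw [div_le_iff₀ hδ0] at hlX
      linarith
    have h11 : C.S.Wd k * Real.log (C.X k) ≤ (1 + δ) * C.g k := by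
      have := (abs_le.1 hW).2
      linarith
    have h12 : |C.ls k - 1| * C.S.Wd k * Real.log (C.X k) ≤ (1 + δ) * ((r + δ) * h x) := by
      calc |C.ls k - 1| * C.S.Wd k * Real.log (C.X k)
          = |C.ls k - 1| * (C.S.Wd k * Real.log (C.X k)) := by ring
        _ ≤ |C.ls k - 1| * ((1 + δ) * C.g k) := mul_le_mul_of_nonneg_left h11 (abs_nonneg _)
        _ = (1 + δ) * (|C.ls k - 1| * C.g k) := by ring
        _ ≤ (1 + δ) * ((r + δ) * h x) :=
            mul_le_mul_of_nonneg_left ((hmass k).trans h9) (by positivity)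
    have h13 : |C.ls k - 1| * C.S.Wd k ≤ (1 + δ) ^ 2 * (r + δ) * T := by
      have a1 : 0 ≤ |C.ls k - 1| * C.S.Wd k := mul_nonneg (abs_nonneg _) (C.S.W0 k)
      have a2 : |C.ls k - 1| * C.S.Wd k * Real.log x ≤ (1 + δ) ^ 2 * (r + δ) * h x := by
        calc |C.ls k - 1| * C.S.Wd k * Real.log x ≤
              |C.ls k - 1| * C.S.Wd k * ((1 + δ) * Real.log (C.X k)) :=
              mul_le_mul_of_nonneg_left h10 a1
          _ = (1 + δ) * (|C.ls k - 1| * C.S.Wd k * Real.log (C.X k)) := by ring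
          _ ≤ (1 + δ) * ((1 + δ) * ((r + δ) * h x)) :=
              mul_le_mul_of_nonneg_left h12 (by positivity)
          _ = _ := by ring
      rw [hT, mul_div_assoc', le_div_iff₀ hlx]
      exact a2
    rw [abs_mul, abs_of_nonneg h2]
    exact (mul_le_mul_of_nonneg_left h3 (abs_nonneg _)).trans h13
  have h7 : (1 + δ) ^ 2 * (r + δ) + δ ≤ r + ε / 2 := by
    have a1 : (1 + δ) ^ 2 ≤ 1 + 3 * δ := by nlinarith
    have a2 : (1 + δ) ^ 2 * (r + δ) ≤ (1 + 3 * δ) * (r + δ) :=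
      mul_le_mul_of_nonneg_right a1 (by positivity)
    nlinarith
  have e : cnt C.p x (h x) - T = (cnt C.p x (h x) - (H + (C.ls k - 1) * cc)) +
      ((H - T) + (C.ls k - 1) * cc) := by ring
  rw [e]
  calc _ ≤ 3 + (δ * T + (1 + δ) ^ 2 * (r + δ) * T) :=
        (abs_add_le _ _).trans (add_le_add h1 ((abs_add_le _ _).trans (add_le_add hx2 h6)))
    _ ≤ ε / 2 * T + (r + ε / 2) * T := by
        have : ((1 + δ) ^ 2 * (r + δ) + δ) * T ≤ (r + ε / 2) * T :=
          mul_le_mul_of_nonneg_right h7 hT0.le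
        linarith
    _ = _ := by ring

/-- gap windows -/
theorem gap_fr {f h : ℝ → ℝ} (hh : ∀ᶠ x in atTop, 0 < h x ∧ h x ≤ x)
    (hlarge : Tendsto (fun x => h x / Real.log x) atTop atTop) {u : ℕ → ℕ}
    (hu : Tendsto u atTop atTop) (hls : ∀ t, C.ls (u t) = 0)
    (hg : ∀ t, C.g (u t) = f (C.X (u t))) {ρ : ℝ} (hρ : 0 ≤ ρ)
    (hev : ∀ᶠ x in atTop, ρ * h x ≤ f x) {ε : ℝ} (hε : 0 < ε) :
    ∃ᶠ x in atTop, cnt C.p x (h x) ≤ (max 0 (1 - ρ) + ε) * (h x / Real.log x) := by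
  set δ : ℝ := min 1 (ε / (2 + ρ)) with hδ
  have hδ0 : 0 < δ := lt_min one_pos (by positivity)
  have hδ1 : δ ≤ 1 := min_le_left _ _
  have hδ2 : δ * (2 + ρ) ≤ ε := by
    have : δ ≤ ε / (2 + ρ) := min_le_right _ _
    calc δ * (2 + ρ) ≤ ε / (2 + ρ) * (2 + ρ) := mul_le_mul_of_nonneg_right this (by positivity)
      _ = ε := by field_simp
  have h1 : ∀ᶠ t in atTop, cnt C.p (C.X (u t)) (h (C.X (u t))) ≤
      (max 0 (1 - ρ) + ε) * (h (C.X (u t)) / Real.log (C.X (u t))) := by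
    filter_upwards [hu.eventually (C.at_X2 hh), hu.eventually (C.W_bd hδ0),
      hu.eventually (C.X_tendsto.eventually (C.H_bd hh hδ0)),
      hu.eventually (C.X_tendsto.eventually (hlarge.eventually_ge_atTop (3 / δ))),
      hu.eventually (C.X_tendsto.eventually hh),
      hu.eventually (C.X_tendsto.eventually hev)] with t h1 h2 h3 h4 h5 h6
    have hlX0 : 0 < Real.log (C.X (u t)) := by linarith [C.two_le_logX (u t)]
    rw [hls t, hg t] at *
    set x := C.X (u t) with hx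
    set D := Fp (fZ Z) x₀ (x + h x) - Fp (fZ Z) x₀ x with hD
    set W := C.S.Wd (u t) with hW
    set T := h x / Real.log x with hT
    have hT0 : 0 < T := div_pos h5.1 hlX0
    have a1 := (abs_le.1 h1).2
    have a2 := (abs_le.1 h2).1
    have a3 := (abs_le.1 h3).2
    have a4 : 3 ≤ δ * T := by
      rw [div_le_iff₀ hδ0] at h4
      linarith
    have hhT : h x = T * Real.log x := by rw [hT]; field_simp
    have a5 : (1 - δ) * (ρ * T) ≤ W := by
      have : (1 - δ) * (ρ * T) * Real.log x ≤ W * Real.log x := by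
        calc (1 - δ) * (ρ * T) * Real.log x = (1 - δ) * (ρ * h x) := by rw [hhT]; ring
          _ ≤ (1 - δ) * f x := mul_le_mul_of_nonneg_left h6 (by linarith)
          _ ≤ W * Real.log x := by linarith
      exact le_of_mul_le_mul_right this hlX0
    have a6 : D - min D W ≤ (max 0 (1 - ρ) + δ * (1 + ρ)) * T := by
      rcases le_total D W with hc | hc
      · rw [min_eq_left hc, sub_self]
        have : 0 ≤ max 0 (1 - ρ) := le_max_left _ _
        positivity
      · rw [min_eq_right hc]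
        have b1 : (1 - ρ) * T ≤ max 0 (1 - ρ) * T :=
          mul_le_mul_of_nonneg_right (le_max_right _ _) hT0.le
        nlinarith
    have a7 : δ * (2 + ρ) * T ≤ ε * T := mul_le_mul_of_nonneg_right hδ2 hT0.le
    nlinarith
  exact (C.X_tendsto.comp hu).frequently
    (p := fun x => cnt C.p x (h x) ≤ (max 0 (1 - ρ) + ε) * (h x / Real.log x)) h1.frequently

/-- dense windows -/
theorem dense_fr {f h : ℝ → ℝ} (hh : ∀ᶠ x in atTop, 0 < h x ∧ h x ≤ x)
    (hlarge : Tendsto (fun x => h x / Real.log x) atTop atTop) {u : ℕ → ℕ}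
    (hu : Tendsto u atTop atTop) (hls : ∀ t, C.ls (u t) = u t)
    (hg : ∀ t, C.g (u t) = f (C.X (u t)) / u t) {ρ : ℝ} (hρ : 0 ≤ ρ)
    (hev : ∀ᶠ x in atTop, ρ * h x ≤ f x) {ε : ℝ} (hε : 0 < ε) :
    ∃ᶠ x in atTop, (1 + ρ - ε) * (h x / Real.log x) ≤ cnt C.p x (h x) := by
  set δ : ℝ := min 1 (ε / (2 + 2 * ρ)) with hδ
  have hδ0 : 0 < δ := lt_min one_pos (by positivity)
  have hδ1 : δ ≤ 1 := min_le_left _ _
  have hδ2 : δ * (2 + 2 * ρ) ≤ ε := by
    have : δ ≤ ε / (2 + 2 * ρ) := min_le_right _ _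
    calc δ * (2 + 2 * ρ) ≤ ε / (2 + 2 * ρ) * (2 + 2 * ρ) :=
          mul_le_mul_of_nonneg_right this (by positivity)
      _ = ε := by field_simp
  have huR : Tendsto (fun t => (u t : ℝ)) atTop atTop := tendsto_natCast_atTop_atTop.comp hu
  have h1 : ∀ᶠ t in atTop, (1 + ρ - ε) * (h (C.X (u t)) / Real.log (C.X (u t))) ≤
      cnt C.p (C.X (u t)) (h (C.X (u t))) := by
    filter_upwards [hu.eventually (C.at_X2 hh), hu.eventually (C.W_bd hδ0),
      hu.eventually (C.X_tendsto.eventually (C.H_bd hh hδ0)),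
      hu.eventually (C.X_tendsto.eventually (hlarge.eventually_ge_atTop (3 / δ))),
      hu.eventually (C.X_tendsto.eventually hh),
      hu.eventually (C.X_tendsto.eventually hev),
      huR.eventually_ge_atTop (ρ + 1), huR.eventually_ge_atTop (1 / δ)]
      with t h1 h2 h3 h4 h5 h6 h7 h8
    have hlX0 : 0 < Real.log (C.X (u t)) := by linarith [C.two_le_logX (u t)]
    rw [hls t] at h1
    rw [hg t] at h2
    set x := C.X (u t) with hx
    set D := Fp (fZ Z) x₀ (x + h x) - Fp (fZ Z) x₀ x with hD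
    set W := C.S.Wd (u t) with hW
    set T := h x / Real.log x with hT
    set k : ℝ := (u t : ℝ) with hk
    have hT0 : 0 < T := div_pos h5.1 hlX0
    have hk0 : 0 < k := by linarith
    have a1 := (abs_le.1 h1).1
    have a2 := (abs_le.1 h2).1
    have a3 := (abs_le.1 h3).1
    have a4 : 3 ≤ δ * T := by
      rw [div_le_iff₀ hδ0] at h4
      linarith
    have hhT : h x = T * Real.log x := by rw [hT]; field_simp
    have a5 : (1 - δ) * (ρ * T) ≤ k * W := by
      have : (1 - δ) * (ρ * T) * Real.log x ≤ k * W * Real.log x := by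
        calc (1 - δ) * (ρ * T) * Real.log x = (1 - δ) * (ρ * h x) := by rw [hhT]; ring
          _ ≤ (1 - δ) * f x := mul_le_mul_of_nonneg_left h6 (by linarith)
          _ = k * ((1 - δ) * (f x / k)) := by field_simp
          _ ≤ k * (W * Real.log x) := mul_le_mul_of_nonneg_left (by linarith) hk0.le
          _ = _ := by ring
      exact le_of_mul_le_mul_right this hlX0
    have a6 : (1 - 2 * δ) * (ρ * T) ≤ (k - 1) * min D W := by
      have hρT : 0 ≤ ρ * T := by positivity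
      have b0 : (1 - 2 * δ) * (ρ * T) ≤ (1 - δ) * ((1 - δ) * (ρ * T)) := by nlinarith [sq_nonneg δ]
      rw [mul_min_of_nonneg _ _ (by linarith : (0 : ℝ) ≤ k - 1)]
      apply le_min
      · have b1 : ρ * ((1 - δ) * T) ≤ (k - 1) * D := by
          apply mul_le_mul (by linarith) (by linarith) _ (by linarith)
          exact mul_nonneg (by linarith) hT0.le
        have b2 : (1 - δ) * ((1 - δ) * (ρ * T)) ≤ 1 * ((1 - δ) * (ρ * T)) := by
          apply mul_le_mul_of_nonneg_right (by linarith)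
          exact mul_nonneg (by linarith) hρT
        nlinarith
      · have b1 : (1 - δ) * k ≤ k - 1 := by
          rw [div_le_iff₀ hδ0] at h8
          linarith
        have hW0 : 0 ≤ W := C.S.W0 _
        calc (1 - 2 * δ) * (ρ * T) ≤ (1 - δ) * ((1 - δ) * (ρ * T)) := b0
          _ ≤ (1 - δ) * (k * W) := mul_le_mul_of_nonneg_left a5 (by linarith)
          _ = ((1 - δ) * k) * W := by ring
          _ ≤ (k - 1) * W := mul_le_mul_of_nonneg_right b1 hW0
    have a7 : δ * (2 + 2 * ρ) * T ≤ ε * T := mul_le_mul_of_nonneg_right hδ2 hT0.le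
    nlinarith
  exact (C.X_tendsto.comp hu).frequently
    (p := fun x => (1 + ρ - ε) * (h x / Real.log x) ≤ cnt C.p x (h x)) h1.frequently

end GC

theorem near_inf {f h : ℝ → ℝ} (s : Sc f) (hh : ∀ᶠ x in atTop, 0 < h x ∧ h x ≤ x)
    (hfh : Tendsto (fun x => f x / h x) atTop (𝓝 0)) {ε : ℝ} (hε : 0 < ε) :
    ∀ᶠ x in atTop, ∀ y, x ≤ 2 * y → y ≤ x + h x → x ≤ y + f y → f y ≤ (0 + ε) * h x := by
  obtain ⟨B, hB⟩ := s.dom
  filter_upwards [hB, hh, hfh.eventually_le_const (by positivity : 0 < ε / (|B| + 1)), s.ge_one]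
    with x h1 h2 h3 h4 y hy1 hy2 hy3
  have h5 := h1 y (by linarith) hy1
  rw [div_le_iff₀ h2.1] at h3
  have h6 : B * f x ≤ |B| * (ε / (|B| + 1) * h x) :=
    mul_le_mul (le_abs_self B) h3 (by linarith) (abs_nonneg B)
  have h7 : |B| * (ε / (|B| + 1) * h x) ≤ ε * h x := by
    have : |B| * (ε / (|B| + 1)) ≤ ε := by
      rw [mul_div_assoc', div_le_iff₀ (by positivity)]
      nlinarith [abs_nonneg B]
    rw [← mul_assoc]
    exact mul_le_mul_of_nonneg_right this h2.1.le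
  linarith

theorem near_fin {f h : ℝ → ℝ} (s : Sc f)
    (hreg : ∀ M ε : ℝ, 0 < ε → ∀ᶠ x in atTop, ∀ y, x ≤ y → y ≤ x + M * f x →
      |f y - f x| ≤ ε * f x)
    (hh : ∀ᶠ x in atTop, 0 < h x ∧ h x ≤ x) {r : ℝ} (hr : 0 < r)
    (hfh : Tendsto (fun x => f x / h x) atTop (𝓝 r)) {ε : ℝ} (hε : 0 < ε) :
    ∀ᶠ x in atTop, ∀ y, x ≤ 2 * y → y ≤ x + h x → x ≤ y + f y → f y ≤ (r + ε) * h x := by
  set δ : ℝ := min (1 / 2) (ε / (4 * (r + ε / 2))) with hδ
  have hδ0 : 0 < δ := lt_min (by norm_num) (by positivity)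
  have hδ1 : δ ≤ 1 / 2 := min_le_left _ _
  have hδ2 : 2 * δ * (r + ε / 2) ≤ ε / 2 := by
    have : δ ≤ ε / (4 * (r + ε / 2)) := min_le_right _ _
    calc 2 * δ * (r + ε / 2) ≤ 2 * (ε / (4 * (r + ε / 2))) * (r + ε / 2) :=
          mul_le_mul_of_nonneg_right (by linarith) (by positivity)
      _ = ε / 2 := by field_simp; ring
  obtain ⟨X₁, hX₁⟩ := eventually_atTop.1 ((hreg 1 δ hδ0).and s.ge_one)
  filter_upwards [hreg (2 / r) δ hδ0, hh, hfh.eventually_le_const (by linarith : r < r + ε / 2),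
    hfh.eventually_const_le (by linarith : r / 2 < r), s.ge_one, eventually_ge_atTop (2 * X₁)]
    with x h1 h2 h3 h4 h5 h6 y hy1 hy2 hy3
  rw [div_le_iff₀ h2.1] at h3
  rw [le_div_iff₀ h2.1] at h4
  have h7 : f y ≤ (1 + 2 * δ) * f x := by
    rcases le_total x y with hc | hc
    · have a1 : h x ≤ 2 / r * f x := by
        rw [div_mul_eq_mul_div, le_div_iff₀ hr]
        linarith
      have := (abs_le.1 (h1 y hc (by linarith))).2
      nlinarith
    · obtain ⟨a1, a2⟩ := hX₁ y (by linarith)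
      have a3 := (abs_le.1 (a1 x hc (by linarith))).1
      have a4 : (1 - δ) * f y ≤ f x := by linarith
      have a5 : f y ≤ ((1 + 2 * δ) * (1 - δ)) * f y := by
        have : 1 ≤ (1 + 2 * δ) * (1 - δ) := by nlinarith
        nlinarith
      calc f y ≤ ((1 + 2 * δ) * (1 - δ)) * f y := a5
        _ = (1 + 2 * δ) * ((1 - δ) * f y) := by ring
        _ ≤ (1 + 2 * δ) * f x := mul_le_mul_of_nonneg_left a4 (by positivity)
  calc f y ≤ (1 + 2 * δ) * f x := h7
    _ ≤ (1 + 2 * δ) * ((r + ε / 2) * h x) := mul_le_mul_of_nonneg_left h3 (by positivity)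
    _ = (r + ε / 2 + 2 * δ * (r + ε / 2)) * h x := by ring
    _ ≤ (r + ε) * h x := mul_le_mul_of_nonneg_right (by linarith) h2.1.le

/-- window lengths of the threshold construction -/
noncomputable def tg (f : ℝ → ℝ) (k : ℕ) (x : ℝ) : ℝ :=
  if k % 2 = 0 then max (f x) 0 else max (f x) 0 / k

/-- window densities of the threshold construction -/
noncomputable def tls (k : ℕ) : ℝ := if k % 2 = 0 then 0 else k

def PT (f : ℝ → ℝ) (k : ℕ) (x : ℝ) : Prop :=
  (1 + tls k) * tg f k x ≤ ((k : ℝ) + 2) * x ^ (1 / 2 + 1 / ((k : ℝ) + 1)) ∧ (2 : ℝ) ^ k ≤ x ∧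
    tg f k x ≤ x ∧ 0 < f x

theorem PT_ev {f : ℝ → ℝ} (s : Sc f) (k : ℕ) : ∀ᶠ x in atTop, PT f k x := by
  have hk0 : (0 : ℝ) ≤ k := Nat.cast_nonneg k
  filter_upwards [s.small (1 / ((k : ℝ) + 1)) (by positivity), eventually_ge_atTop ((2 : ℝ) ^ k),
    s.le_self, s.ge_one, eventually_gt_atTop 0] with x h1 h2 h3 h4 h5
  have hx4 : 0 < x ^ (1 / 2 + 1 / ((k : ℝ) + 1)) := Real.rpow_pos_of_pos h5 _
  have hf : max (f x) 0 = f x := max_eq_left (by linarith)
  refine ⟨?_, h2, ?_, by linarith⟩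
  · have a1 : (1 + tls k) * tg f k x ≤ 2 * f x := by
      unfold tls tg
      split_ifs with h
      · rw [hf]; linarith
      · have hk1 : (1 : ℝ) ≤ k := by
          have : 1 ≤ k := by omega
          exact_mod_cast this
        rw [hf, mul_div_assoc', div_le_iff₀ (by linarith)]
        nlinarith
    nlinarith
  · unfold tg
    split_ifs with h
    · rw [hf]; exact h3
    · have hk1 : (1 : ℝ) ≤ k := by
        have : 1 ≤ k := by omega
        exact_mod_cast this
      rw [hf]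
      exact (div_le_self (by linarith) hk1).trans h3

end Pool.Agent.H204.AS
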