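import Pool.Agent.H204.AS.Thr

open MeasureTheory Set Filter Topology
open scoped ENNReal NNReal ComplexConjugate

namespace Pool.Agent.H204.AS

open Pool.Agent.H521 Pool.Agent.H521.G Pool.Agent.H204.SI

theorem hh_of_large {h : ℝ → ℝ} (h1 : ∀ᶠ x in atTop, h x ≤ x)
    (h2 : Tendsto (fun x => h x / Real.log x) atTop atTop) :
    ∀ᶠ x in atTop, 0 < h x ∧ h x ≤ x := by
  filter_upwards [h1, h2.eventually_gt_atTop 0, eventually_gt_atTop 1] with x a1 a2 a3
  have hl := Real.log_pos a3
  refine ⟨?_, a1⟩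
  by_contra hc
  push Not at hc
  have := div_nonpos_of_nonpos_of_nonneg hc hl.le
  linarith

/-- **Systems with an exact threshold.** -/
theorem exists_profile {Z : Multiset ℂ} (hZ : ∀ ρ ∈ Z, ρ.re < 1) (hZc : Z.map conj = Z)
    {f : ℝ → ℝ} (s : Sc f)
    (hreg : ∀ M ε : ℝ, 0 < ε → ∀ᶠ x in atTop, ∀ y, x ≤ y → y ≤ x + M * f x →
      |f y - f x| ≤ ε * f x) :
    ∃ p : ℕ → ℝ, Sys Z p ∧ AAL p ∧ ∀ (h : ℝ → ℝ) (c : ℝ≥0∞), (∀ᶠ x in atTop, h x ≤ x) →
      Tendsto (fun x => h x / Real.log x) atTop atTop →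
      Tendsto (fun x => ENNReal.ofReal (h x / f x)) atTop (𝓝 c) →
      liminf (gR p h) atTop = 1 - c⁻¹ ∧ limsup (gR p h) atTop = 1 + c⁻¹ := by
  obtain ⟨x₀, hR⟩ := exists_RDens hZ
  have htg0 : ∀ k x, 0 ≤ tg f k x := fun k x => by
    unfold tg
    split_ifs
    · exact le_max_right _ _
    · exact div_nonneg (le_max_right _ _) (Nat.cast_nonneg k)
  have htls0 : ∀ k, 0 ≤ tls k := fun k => by
    unfold tls
    split_ifs
    · exact le_rfl
    · exact Nat.cast_nonneg k
  obtain ⟨S, hP, hE, hr, h4, hWg⟩ := exists_sched3 hR (g := tg f)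
    (ls := tls) (fun k x _ => htg0 k x) htls0 (P := PT f) (PT_ev s) (fun k x h => h.1)
    (fun k x h => h.2.1)
  obtain ⟨V, hV, hSys⟩ := S.toW.system hR hZ hZc rfl
  let C : GC Z x₀ :=
    { hZ := hZ, hR := hR, S := S, V := V, hV := hV
      g := fun k => tg f k (phi (fZ Z) x₀ (S.A k)), ls := tls
      hg0 := fun k => htg0 k _, hg1 := fun k => (hP k).2.2.1
      hls0 := htls0
      hls1 := fun k => by
        have hk0 : (0 : ℝ) ≤ k := Nat.cast_nonneg k
        unfold tls
        split_ifs <;> linarith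
      hE := hE, hr := hr, h4 := h4
      hPb := fun k => (hP k).2.1 }
  have hSys' : Sys Z C.p := hSys
  have hf0 : ∀ k, 0 < f (C.X k) := fun k => (hP k).2.2.2
  have he : ∀ k, k % 2 = 0 → C.ls k = 0 ∧ C.g k = f (C.X k) := fun k hk => by
    constructor
    · change tls k = 0
      unfold tls
      rw [if_pos hk]
    · change tg f k (C.X k) = _
      unfold tg
      rw [if_pos hk, max_eq_left (hf0 k).le]
  have ho : ∀ k, k % 2 = 1 → C.ls k = k ∧ C.g k = f (C.X k) / k := fun k hk => by
    constructor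
    · change tls k = k
      unfold tls
      rw [if_neg (by omega)]
    · change tg f k (C.X k) = _
      unfold tg
      rw [if_neg (by omega), max_eq_left (hf0 k).le]
  have hmass : ∀ k, |C.ls k - 1| * C.g k ≤ f (C.X k) ∧ C.g k ≤ f (C.X k) := fun k => by
    rcases Nat.mod_two_eq_zero_or_one k with hk | hk
    · obtain ⟨e1, e2⟩ := he k hk
      rw [e1, e2]
      norm_num
    · obtain ⟨e1, e2⟩ := ho k hk
      have hk1 : (1 : ℝ) ≤ k := by
        have : 1 ≤ k := by omega
        exact_mod_cast this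
      rw [e1, e2, abs_of_nonneg (by linarith)]
      constructor
      · rw [mul_div_assoc', div_le_iff₀ (by linarith)]
        nlinarith [hf0 k]
      · exact div_le_self (hf0 k).le hk1
  have hu0 : Tendsto (fun t : ℕ => 2 * t) atTop atTop :=
    tendsto_atTop_mono (fun t => by simp only [id]; omega) tendsto_id
  have hu1 : Tendsto (fun t : ℕ => 2 * t + 1) atTop atTop :=
    tendsto_atTop_mono (fun t => by simp only [id]; omega) tendsto_id
  refine ⟨C.p, hSys', C.aal, fun h c hhx hlarge hc => ?_⟩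
  have hh := hh_of_large hhx hlarge
  have hT : ∀ᶠ x in atTop, 0 < h x / Real.log x := hlarge.eventually_gt_atTop 0
  have hgap : ∀ ρ : ℝ, 0 ≤ ρ → (∀ᶠ x in atTop, ρ * h x ≤ f x) → ∀ ε : ℝ, 0 < ε →
      ∃ᶠ x in atTop, cnt C.p x (h x) ≤ (max 0 (1 - ρ) + ε) * (h x / Real.log x) :=
    fun ρ hρ hev ε hε => C.gap_fr hh hlarge hu0 (fun t => (he _ (by omega)).1)
      (fun t => (he _ (by omega)).2) hρ hev hε
  have hden : ∀ ρ : ℝ, 0 ≤ ρ → (∀ᶠ x in atTop, ρ * h x ≤ f x) → ∀ ε : ℝ, 0 < ε →
      ∃ᶠ x in atTop, (1 + ρ - ε) * (h x / Real.log x) ≤ cnt C.p x (h x) :=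
    fun ρ hρ hev ε hε => C.dense_fr hh hlarge hu1 (fun t => (ho _ (by omega)).1)
      (fun t => (ho _ (by omega)).2) hρ hev hε
  have hd : Tendsto (fun x => ENNReal.ofReal (f x / h x)) atTop (𝓝 c⁻¹) := by
    have h1 := tendsto_inv_iff.2 hc
    refine h1.congr' ?_
    filter_upwards [hh, s.ge_one] with x a1 a2
    rw [← ENNReal.ofReal_inv_of_pos (div_pos a1.1 (by linarith)), inv_div]
  generalize c⁻¹ = d at hd
  rcases eq_or_ne d ∞ with rfl | hdt
  · have hM : ∀ ρ : ℝ, 0 ≤ ρ → ∀ᶠ x in atTop, ρ * h x ≤ f x := fun ρ hρ => by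
      filter_upwards [hd.eventually (lt_mem_nhds (ENNReal.ofReal_lt_top (r := ρ))), hh,
        s.ge_one] with x a1 a2 a3
      have a4 := (ENNReal.ofReal_le_ofReal_iff (div_nonneg (by linarith) a2.1.le)).1 a1.le
      rwa [le_div_iff₀ a2.1] at a4
    constructor
    · apply le_antisymm _ (by simp)
      have h1 := aliminf_le (r := 0) hT le_rfl fun ε hε => by
        have h2 := hgap 1 zero_le_one (hM 1 zero_le_one) ε hε
        rwa [sub_self, max_self] at h2
      simpa using h1
    · rw [add_top]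
      apply ENNReal.eq_top_of_forall_nnreal_le
      intro r
      rw [← ENNReal.ofReal_coe_nnreal]
      apply alimsup_ge hT
      intro ε hε
      refine ((hden r r.2 (hM r r.2) ε hε).and_eventually hT).mono fun x hx => ?_
      refine le_trans ?_ hx.1
      apply mul_le_mul_of_nonneg_right _ hx.2.le
      linarith
  · set r : ℝ := d.toReal with hrd
    have hr0 : 0 ≤ r := ENNReal.toReal_nonneg
    have hdr : d = ENNReal.ofReal r := (ENNReal.ofReal_toReal hdt).symm
    have hfr : Tendsto (fun x => f x / h x) atTop (𝓝 r) := by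
      have h1 := (ENNReal.tendsto_toReal hdt).comp hd
      refine h1.congr' ?_
      filter_upwards [hh, s.ge_one] with x a1 a2
      exact ENNReal.toReal_ofReal (div_nonneg (by linarith) a1.1.le)
    have hnear : ∀ ε : ℝ, 0 < ε → ∀ᶠ x in atTop, ∀ y, x ≤ 2 * y → y ≤ x + h x →
        x ≤ y + f y → f y ≤ (r + ε) * h x := by
      intro ε hε
      rcases eq_or_lt_of_le hr0 with hz | hp
      · rw [← hz] at hfr ⊢
        exact near_inf s hh hfr hε
      · exact near_fin s hreg hh hp hfr hε
    have hbd := fun (ε : ℝ) (hε : 0 < ε) =>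
      C.mass_bd hh hlarge (fun k => (hmass k).1) (fun k => (hmass k).2) hr0 hnear hε
    have hρ : ∀ ε : ℝ, 0 < ε → ∀ᶠ x in atTop, max 0 (r - ε) * h x ≤ f x := by
      intro ε hε
      filter_upwards [hh, s.ge_one, hfr.eventually_const_le (by linarith : r - ε < r)]
        with x a1 a2 a3
      rcases le_total 0 (r - ε) with h0 | h0
      · rw [max_eq_right h0]
        rwa [le_div_iff₀ a1.1] at a3
      · rw [max_eq_left h0, zero_mul]
        linarith
    have e1 : ENNReal.ofReal (max 0 (1 - r)) = 1 - d := by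
      rw [hdr, ← ENNReal.ofReal_one, ← ENNReal.ofReal_sub 1 hr0]
      rcases le_total 0 (1 - r) with h0 | h0
      · rw [max_eq_right h0]
      · rw [max_eq_left h0, ENNReal.ofReal_zero, ENNReal.ofReal_of_nonpos h0]
    have e2 : ENNReal.ofReal (1 + r) = 1 + d := by
      rw [hdr, ENNReal.ofReal_add zero_le_one hr0, ENNReal.ofReal_one]
    refine ⟨le_antisymm ?_ ?_, le_antisymm ?_ ?_⟩
    · rw [← e1]
      apply aliminf_le hT (le_max_left _ _)
      intro ε hε
      refine ((hgap _ (le_max_left _ _) (hρ (ε / 2) (by linarith)) (ε / 2)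
        (by linarith)).and_eventually hT).mono fun x hx => hx.1.trans ?_
      apply mul_le_mul_of_nonneg_right _ hx.2.le
      have a1 : r - ε / 2 ≤ max 0 (r - ε / 2) := le_max_right _ _
      have a2 : max 0 (1 - max 0 (r - ε / 2)) ≤ max 0 (1 - r) + ε / 2 := by
        apply max_le
        · have := le_max_left 0 (1 - r)
          linarith
        · have := le_max_right 0 (1 - r)
          linarith
      linarith
    · rw [← e1]
      rcases le_total 0 (1 - r) with h0 | h0
      · rw [max_eq_right h0]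
        apply aliminf_ge hT
        intro ε hε
        filter_upwards [hbd ε hε] with x hx
        have := (abs_le.1 hx).1
        linarith
      · rw [max_eq_left h0, ENNReal.ofReal_zero]
        exact bot_le
    · rw [← e2]
      apply alimsup_le hT (by linarith)
      intro ε hε
      filter_upwards [hbd ε hε] with x hx
      have := (abs_le.1 hx).2
      linarith
    · rw [← e2]
      apply alimsup_ge hT
      intro ε hε
      refine ((hden _ (le_max_left _ _) (hρ (ε / 2) (by linarith)) (ε / 2)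
        (by linarith)).and_eventually hT).mono fun x hx => le_trans ?_ hx.1
      apply mul_le_mul_of_nonneg_right _ hx.2.le
      have a1 : r - ε / 2 ≤ max 0 (r - ε / 2) := le_max_right _ _
      linarith

end Pool.Agent.H204.AS
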