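import Pool.Agent.H204.AS.Thr2

open MeasureTheory Set Filter Topology
open scoped ENNReal NNReal ComplexConjugate

namespace Pool.Agent.H204.AS

open Pool.Agent.H521 Pool.Agent.H521.G Pool.Agent.H204.SI

/-- the profile of a system with threshold `f` -/
def Prof (p : ℕ → ℝ) (f : ℝ → ℝ) : Prop := ∀ (h : ℝ → ℝ) (c : ℝ≥0∞), (∀ᶠ x in atTop, h x ≤ x) →
  Tendsto (fun x => h x / Real.log x) atTop atTop →
  Tendsto (fun x => ENNReal.ofReal (h x / f x)) atTop (𝓝 c) →
  liminf (gR p h) atTop = 1 - c⁻¹ ∧ limsup (gR p h) atTop = 1 + c⁻¹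

/-- the law for functions above the threshold -/
theorem Prof.one {p : ℕ → ℝ} {f h : ℝ → ℝ} (P : Prof p f) (hf : ∀ᶠ x in atTop, 0 < f x)
    (hhx : ∀ᶠ x in atTop, h x ≤ x) (hlarge : Tendsto (fun x => h x / Real.log x) atTop atTop)
    (hfh : Tendsto (fun x => f x / h x) atTop (𝓝 0)) :
    Tendsto (fun x => cnt p x (h x) / (h x / Real.log x)) atTop (𝓝 1) := by
  have hh := hh_of_large hhx hlarge
  have hd : Tendsto (fun x => ENNReal.ofReal (h x / f x)) atTop (𝓝 ∞) := by
    have h1 : Tendsto (fun x => ENNReal.ofReal (f x / h x)) atTop (𝓝 0) := by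
      have := ENNReal.tendsto_ofReal hfh
      rwa [ENNReal.ofReal_zero] at this
    have h2 := tendsto_inv_iff.2 h1
    rw [ENNReal.inv_zero] at h2
    refine h2.congr' ?_
    filter_upwards [hh, hf] with x a1 a2
    rw [← ENNReal.ofReal_inv_of_pos (div_pos a2 a1.1), inv_div]
  obtain ⟨h1, h2⟩ := P h ∞ hhx hlarge hd
  rw [ENNReal.inv_top, tsub_zero] at h1
  rw [ENNReal.inv_top, add_zero] at h2
  have h3 : Tendsto (gR p h) atTop (𝓝 1) := tendsto_of_liminf_eq_limsup h1 h2
  have h4 := (ENNReal.tendsto_toReal ENNReal.one_ne_top).comp h3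
  rw [ENNReal.toReal_one] at h4
  refine h4.congr' ?_
  filter_upwards [h4.eventually_const_lt zero_lt_one] with x hx
  change (ENNReal.ofReal (cnt p x (h x) / (h x / Real.log x))).toReal = _
  change 0 < (ENNReal.ofReal (cnt p x (h x) / (h x / Real.log x))).toReal at hx
  rw [ENNReal.toReal_ofReal'] at hx ⊢
  rcases lt_max_iff.1 hx with h5 | h5
  · exact max_eq_left h5.le
  · exact absurd h5 (lt_irrefl _)

theorem log_pow_le (B : ℝ) : ∀ᶠ x in atTop, Real.log x ^ B ≤ x := by
  have h1 := (log_rpow_over_rpow B 1 one_pos).eventually_le_const one_pos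
  filter_upwards [h1, eventually_gt_atTop 0] with x hx hx0
  rw [Real.rpow_one, div_le_one hx0] at hx
  exact hx

/-- the uniform law above all powers of the logarithm, if the threshold is below one of them -/
theorem Prof.law {p : ℕ → ℝ} {f : ℝ → ℝ} (P : Prof p f) (hf : ∀ᶠ x in atTop, 0 < f x)
    {a K : ℝ} (hfa : ∀ᶠ x in atTop, f x ≤ K * Real.log x ^ a) {ε : ℝ} (hε : 0 < ε) :
    ∃ N : ℝ, 1 < N ∧ ∀ x y : ℝ, N ≤ x → Real.log x ^ N ≤ y → y ≤ x →
      |cnt p x y / (y / Real.log x) - 1| ≤ ε := by
  by_contra hcon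
  push Not at hcon
  have hc : ∀ n : ℕ, ∃ x y : ℝ, (n : ℝ) + 2 ≤ x ∧ Real.log x ^ ((n : ℝ) + 2) ≤ y ∧ y ≤ x ∧
      ε < |cnt p x y / (y / Real.log x) - 1| := fun n =>
    hcon ((n : ℝ) + 2) (by have : (0 : ℝ) ≤ n := Nat.cast_nonneg n; linarith)
  choose X Y h1 h2 h3 h4 using hc
  classical
  set h : ℝ → ℝ := fun x => if hx : ∃ n, X n = x then Y hx.choose else x with hh
  have hhx : ∀ x, h x ≤ x := fun x => by
    by_cases hx : ∃ n, X n = x
    · have : h x = Y hx.choose := by rw [hh]; simp only [hx, dite_true]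
      rw [this]
      exact (h3 _).trans hx.choose_spec.le
    · have : h x = x := by rw [hh]; simp only [hx, dite_false]
      rw [this]
  have hB : ∀ B : ℝ, ∀ᶠ x in atTop, Real.log x ^ B ≤ h x := by
    intro B
    obtain ⟨M, hM⟩ := exists_nat_ge B
    filter_upwards [log_pow_le B, Real.tendsto_log_atTop.eventually_ge_atTop 1,
      eventually_gt_atTop (∑ j ∈ Finset.range (M + 1), |X j|)] with x a1 a2 a3
    by_cases hx : ∃ n, X n = x
    · have e : h x = Y hx.choose := by rw [hh]; simp only [hx, dite_true]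
      set m := hx.choose with hm
      have hXm : X m = x := hx.choose_spec
      have hMm : M < m := by
        by_contra hc
        push Not at hc
        have b1 : |X m| ≤ ∑ j ∈ Finset.range (M + 1), |X j| :=
          Finset.single_le_sum (f := fun j => |X j|) (fun j _ => abs_nonneg _)
            (Finset.mem_range.2 (by omega))
        have b2 := le_abs_self (X m)
        linarith
      rw [e]
      have b3 := h2 m
      rw [hXm] at b3
      refine le_trans ?_ b3
      apply Real.rpow_le_rpow_of_exponent_le a2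
      have : (M : ℝ) < m := by exact_mod_cast hMm
      linarith
    · have e : h x = x := by rw [hh]; simp only [hx, dite_false]
      rw [e]
      exact a1
  have hlarge : Tendsto (fun x => h x / Real.log x) atTop atTop := by
    apply tendsto_atTop_mono' atTop _ Real.tendsto_log_atTop
    filter_upwards [hB 2, Real.tendsto_log_atTop.eventually_ge_atTop 1] with x a1 a2
    rw [le_div_iff₀ (by linarith)]
    rw [Real.rpow_two, sq] at a1
    exact a1
  have hfh : Tendsto (fun x => f x / h x) atTop (𝓝 0) := by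
    have h5 : Tendsto (fun x : ℝ => |K| * (Real.log x)⁻¹) atTop (𝓝 (|K| * 0)) :=
      (tendsto_inv_atTop_zero.comp Real.tendsto_log_atTop).const_mul _
    rw [mul_zero] at h5
    refine squeeze_zero' ?_ ?_ h5
    · filter_upwards [hf, hB 0] with x a1 a2
      rw [Real.rpow_zero] at a2
      exact div_nonneg a1.le (by linarith)
    · filter_upwards [hf, hB (a + 1), hfa, Real.tendsto_log_atTop.eventually_ge_atTop 1]
        with x a1 a2 a3 a4
      have hl : 0 < Real.log x := by linarith
      have b1 : 0 < Real.log x ^ (a + 1) := Real.rpow_pos_of_pos hl _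
      have b2 : Real.log x ^ (a + 1) = Real.log x ^ a * Real.log x := by
        rw [Real.rpow_add hl, Real.rpow_one]
      have b3 : 0 < Real.log x ^ a := Real.rpow_pos_of_pos hl _
      calc f x / h x ≤ f x / Real.log x ^ (a + 1) := div_le_div_of_nonneg_left a1.le b1 a2
        _ ≤ (|K| * Real.log x ^ a) / Real.log x ^ (a + 1) := by
            apply div_le_div_of_nonneg_right _ b1.le
            exact a3.trans (mul_le_mul_of_nonneg_right (le_abs_self K) b3.le)
        _ = |K| * (Real.log x)⁻¹ := by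
            rw [b2]
            field_simp
  have hone := P.one hf (Eventually.of_forall hhx) hlarge hfh
  have hX : Tendsto X atTop atTop := by
    apply tendsto_atTop_mono _ (tendsto_natCast_atTop_atTop (R := ℝ))
    intro n
    linarith [h1 n]
  have h6 := hX.eventually (Metric.tendsto_nhds.1 hone ε hε)
  obtain ⟨n, hn⟩ := h6.exists
  have hx : ∃ m, X m = X n := ⟨n, rfl⟩
  have e : h (X n) = Y hx.choose := by rw [hh]; simp only [hx, dite_true]
  have e2 : X hx.choose = X n := hx.choose_spec
  rw [e, Real.dist_eq] at hn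
  have h7 := h4 hx.choose
  rw [e2] at h7
  linarith

/-- failure of the uniform law, if the threshold is above all powers of the logarithm -/
theorem Prof.not_law {p : ℕ → ℝ} {f : ℝ → ℝ} (P : Prof p f) (hf : ∀ᶠ x in atTop, 0 < f x)
    (hfx : ∀ᶠ x in atTop, f x ≤ x)
    (hfa : ∀ a : ℝ, ∀ᶠ x in atTop, Real.log x ^ a ≤ f x) :
    ¬ ∃ N : ℝ, 1 < N ∧ ∀ x y : ℝ, N ≤ x → Real.log x ^ N ≤ y → y ≤ x →
      |cnt p x y / (y / Real.log x) - 1| ≤ 1 / 2 := by
  rintro ⟨N, hN, h⟩
  have hlarge : Tendsto (fun x => f x / Real.log x) atTop atTop := by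
    apply tendsto_atTop_mono' atTop _ Real.tendsto_log_atTop
    filter_upwards [hfa 2, Real.tendsto_log_atTop.eventually_ge_atTop 1] with x a1 a2
    rw [le_div_iff₀ (by linarith)]
    rw [Real.rpow_two, sq] at a1
    exact a1
  have hc : Tendsto (fun x => ENNReal.ofReal (f x / f x)) atTop (𝓝 1) := by
    apply tendsto_const_nhds.congr'
    filter_upwards [hf] with x hx
    rw [div_self hx.ne', ENNReal.ofReal_one]
  have h1 := (P f 1 hfx hlarge hc).1
  rw [inv_one, tsub_self] at h1
  have h2 : ENNReal.ofReal (1 / 2) ≤ liminf (gR p f) atTop := by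
    apply le_liminf_of_le (by isBoundedDefault)
    filter_upwards [hfx, hfa N, eventually_ge_atTop N] with x a1 a2 a3
    have := (abs_le.1 (h x (f x) a3 a2 a1)).1
    apply ENNReal.ofReal_le_ofReal
    change 1 / 2 ≤ cnt p x (f x) / (f x / Real.log x)
    linarith
  rw [h1] at h2
  have h3 : (0 : ℝ≥0∞) < ENNReal.ofReal (1 / 2) := ENNReal.ofReal_pos.2 (by norm_num)
  exact absurd h2 (not_le.2 h3)

end Pool.Agent.H204.AS
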