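import Pool.Agent.H204.AS.Thr3

open MeasureTheory Set Filter Topology
open scoped ENNReal NNReal ComplexConjugate

namespace Pool.Agent.H204.AS

open Pool.Agent.H521 Pool.Agent.H521.G Pool.Agent.H204.SI

theorem pos_of_large {f : ℝ → ℝ} (h2 : Tendsto (fun x => f x / Real.log x) atTop atTop) :
    ∀ᶠ x in atTop, 0 < f x := by
  filter_upwards [h2.eventually_gt_atTop 0, eventually_gt_atTop 1] with x a2 a3
  have hl := Real.log_pos a3
  by_contra hc
  push Not at hc
  have := div_nonpos_of_nonpos_of_nonneg hc hl.le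
  linarith

theorem small_of_tau {f : ℝ → ℝ} {τ : ℝ} (hf : ∀ᶠ x in atTop, 0 < f x)
    (h : Tendsto (fun x => Real.log (f x) / Real.log x) atTop (𝓝 τ)) {s : ℝ} (hτ : τ < s) :
    ∀ᶠ x in atTop, f x ≤ x ^ s := by
  filter_upwards [h.eventually_le_const hτ, hf, eventually_gt_atTop 1] with x h1 h2 h3
  have hl := Real.log_pos h3
  rw [div_le_iff₀ hl] at h1
  rw [← Real.log_rpow (by linarith)] at h1
  exact (Real.log_le_log_iff h2 (Real.rpow_pos_of_pos (by linarith) _)).1 h1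

theorem large_of_tau {f : ℝ → ℝ} {τ : ℝ} (hf : ∀ᶠ x in atTop, 0 < f x)
    (h : Tendsto (fun x => Real.log (f x) / Real.log x) atTop (𝓝 τ)) {s : ℝ} (hτ : s < τ) :
    ∀ᶠ x in atTop, x ^ s ≤ f x := by
  filter_upwards [h.eventually_const_le hτ, hf, eventually_gt_atTop 1] with x h1 h2 h3
  have hl := Real.log_pos h3
  rw [le_div_iff₀ hl] at h1
  rw [← Real.log_rpow (by linarith)] at h1
  exact (Real.log_le_log_iff (Real.rpow_pos_of_pos (by linarith) _) h2).1 h1

/-- A threshold has an exponent at most `1 / 2`. -/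
theorem tau_le {Z : Multiset ℂ} (hZ : ∀ ρ ∈ Z, ρ.re < 1) {p : ℕ → ℝ}
    (hpnt : ∀ ε : ℝ, 0 < ε → ∃ C : ℝ, ∀ x : ℝ, 2 ≤ x →
        |(countPr p x : ℝ) - mainTerm Z x| ≤ C * x ^ (1 / 2 + ε)) {f : ℝ → ℝ} {τ : ℝ}
    (hf : ∀ᶠ x in atTop, 0 < f x)
    (h : Tendsto (fun x => Real.log (f x) / Real.log x) atTop (𝓝 τ)) (P : Prof p f) :
    τ ≤ 1 / 2 := by
  by_contra hc
  push Not at hc
  set m : ℝ := min τ 1 with hm
  have hm1 : 1 / 2 < m := lt_min hc (by norm_num)
  have hm2 : m ≤ 1 := min_le_right _ _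
  have hm3 : m ≤ τ := min_le_left _ _
  set s : ℝ := 1 / 2 + (m - 1 / 2) / 3 with hs
  set s' : ℝ := 1 / 2 + 2 * (m - 1 / 2) / 3 with hs'
  have hs1 : 1 / 2 < s := by rw [hs]; linarith
  have hs2 : s < s' := by rw [hs, hs']; linarith
  have hs3 : s' < τ := by rw [hs']; linarith
  have hs4 : s ≤ 1 := by rw [hs]; linarith
  have hhx : ∀ᶠ x in atTop, (fun x : ℝ => x ^ s) x ≤ x := by
    filter_upwards [eventually_ge_atTop 1] with x hx
    exact pow_le_id hs4 hx
  have hc0 : Tendsto (fun x => ENNReal.ofReal ((fun x : ℝ => x ^ s) x / f x)) atTop (𝓝 0) := by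
    have h1 : Tendsto (fun x => x ^ s / f x) atTop (𝓝 0) := by
      refine squeeze_zero' ?_ ?_ (pow_over_pow hs2)
      · filter_upwards [hf, eventually_ge_atTop 0] with x a1 a2
        exact div_nonneg (Real.rpow_nonneg a2 _) a1.le
      · filter_upwards [hf, eventually_gt_atTop 0, large_of_tau hf h hs3] with x a1 a2 a3
        exact div_le_div_of_nonneg_left (Real.rpow_nonneg a2.le _)
          (Real.rpow_pos_of_pos a2 _) a3
    have := ENNReal.tendsto_ofReal h1
    rwa [ENNReal.ofReal_zero] at this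
  have h1 := (P (fun x => x ^ s) 0 hhx (T_tendsto (by linarith)) hc0).1
  have h2 : liminf (gR p fun x => x ^ s) atTop = 1 :=
    (one_of_bounds fun ε hε => ratio_one hZ hpnt hs1 hs4 hε).1
  rw [h2, ENNReal.inv_zero] at h1
  simp at h1

theorem ord_of_reg2 {f : ℝ → ℝ} (large : Tendsto (fun x => f x / Real.log x) atTop atTop)
    (small : ∀ ε : ℝ, 0 < ε → ∀ᶠ x in atTop, f x ≤ x ^ (1 / 2 + ε))
    (reg2 : ∀ ε : ℝ, 0 < ε → ∀ᶠ x in atTop, ∀ y, x ≤ y → y ≤ 2 * x → |f y - f x| ≤ ε * f x) :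
    Sc f ∧ ∀ M ε : ℝ, 0 < ε → ∀ᶠ x in atTop, ∀ y, x ≤ y → y ≤ x + M * f x →
      |f y - f x| ≤ ε * f x := by
  have s : Sc f := by
    refine ⟨large, small, 2, ?_⟩
    filter_upwards [reg2 (1 / 2) (by norm_num), pos_of_large large] with x h1 h2 y hy1 hy2
    have := abs_le.1 (h1 y hy1 hy2)
    constructor <;> linarith [this.1, this.2]
  refine ⟨s, fun M ε hε => ?_⟩
  filter_upwards [reg2 ε hε, small_mul s |M| (abs_nonneg M), s.ge_one] with x h1 h2 h3 y hy1 hy2
  apply h1 y hy1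
  have : M * f x ≤ |M| * f x := mul_le_mul_of_nonneg_right (le_abs_self M) (by linarith)
  linarith

theorem reg2_log {b : ℝ} (hb : 1 < b) : ∀ ε : ℝ, 0 < ε → ∀ᶠ x in atTop, ∀ y, x ≤ y →
    y ≤ 2 * x → |Real.log y ^ b - Real.log x ^ b| ≤ ε * Real.log x ^ b := by
  intro ε hε
  have h0 : Tendsto (fun x : ℝ => (Real.log x / Real.log (2 * x))⁻¹ ^ b) atTop (𝓝 (1⁻¹ ^ b)) :=
    ((log_two_ratio.inv₀ one_ne_zero).rpow_const (Or.inr (by linarith)))
  rw [inv_one, Real.one_rpow] at h0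
  filter_upwards [h0.eventually_lt_const (by linarith : (1 : ℝ) < 1 + ε),
    eventually_ge_atTop 2] with x hx hx2 y hy1 hy2
  have hlx : 0 < Real.log x := Real.log_pos (by linarith)
  have hxy : Real.log x ≤ Real.log y := Real.log_le_log (by linarith) hy1
  have h1 : Real.log y ≤ Real.log (2 * x) := Real.log_le_log (by linarith) (by linarith)
  have h2 : Real.log x ^ b ≤ Real.log y ^ b := Real.rpow_le_rpow hlx.le hxy (by linarith)
  have h3 : Real.log y ^ b ≤ Real.log (2 * x) ^ b :=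
    Real.rpow_le_rpow (by linarith) h1 (by linarith)
  have h4 : Real.log (2 * x) ^ b ≤ (1 + ε) * Real.log x ^ b := by
    rw [inv_div, Real.div_rpow (by linarith) hlx.le] at hx
    have := (div_lt_iff₀ (Real.rpow_pos_of_pos hlx b)).1 hx
    exact this.le
  rw [abs_le]
  have h5 : 0 ≤ Real.log x ^ b := Real.rpow_nonneg hlx.le _
  constructor <;> nlinarith

/-- the function `exp (√(log x))` -/
noncomputable def es (x : ℝ) : ℝ := Real.exp (Real.sqrt (Real.log x))

theorem sqrt_log_tendsto : Tendsto (fun x => Real.sqrt (Real.log x)) atTop atTop :=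
  Real.tendsto_sqrt_atTop.comp Real.tendsto_log_atTop

theorem es_ge (a : ℝ) : ∀ᶠ x in atTop, Real.log x ^ a ≤ es x := by
  have h1 := (isLittleO_rpow_exp_atTop (2 * a)).tendsto_div_nhds_zero.comp sqrt_log_tendsto
  filter_upwards [h1.eventually_le_const one_pos, Real.tendsto_log_atTop.eventually_gt_atTop 0]
    with x hx hl
  change Real.sqrt (Real.log x) ^ (2 * a) / Real.exp (Real.sqrt (Real.log x)) ≤ 1 at hx
  rw [div_le_one (Real.exp_pos _), Real.rpow_mul (Real.sqrt_nonneg _), Real.rpow_two,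
    Real.sq_sqrt hl.le] at hx
  exact hx

theorem es_le {s : ℝ} (hs : 0 < s) : ∀ᶠ x in atTop, es x ≤ x ^ s := by
  filter_upwards [sqrt_log_tendsto.eventually_ge_atTop (1 / s), eventually_gt_atTop 1] with x hx hx1
  have hl := Real.log_pos hx1
  rw [Real.rpow_def_of_pos (by linarith)]
  apply Real.exp_le_exp.2
  rw [div_le_iff₀ hs] at hx
  have h1 := Real.mul_self_sqrt hl.le
  have h2 := Real.sqrt_nonneg (Real.log x)
  nlinarith

theorem es_large : Tendsto (fun x => es x / Real.log x) atTop atTop := by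
  apply tendsto_atTop_mono' atTop _ Real.tendsto_log_atTop
  filter_upwards [es_ge 2, Real.tendsto_log_atTop.eventually_ge_atTop 1] with x a1 a2
  rw [le_div_iff₀ (by linarith)]
  rw [Real.rpow_two, sq] at a1
  exact a1

theorem reg2_es : ∀ ε : ℝ, 0 < ε → ∀ᶠ x in atTop, ∀ y, x ≤ y →
    y ≤ 2 * x → |es y - es x| ≤ ε * es x := by
  intro ε hε
  have h0 : Tendsto (fun x => Real.exp (Real.log 2 * (Real.sqrt (Real.log x))⁻¹)) atTop
      (𝓝 (Real.exp (Real.log 2 * 0))) :=
    (Real.continuous_exp.tendsto _).comp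
      ((tendsto_inv_atTop_zero.comp sqrt_log_tendsto).const_mul _)
  rw [mul_zero, Real.exp_zero] at h0
  filter_upwards [h0.eventually_lt_const (by linarith : (1 : ℝ) < 1 + ε),
    eventually_ge_atTop 2] with x hx hx2 y hy1 hy2
  have hlx : 0 < Real.log x := Real.log_pos (by linarith)
  have hxy : Real.log x ≤ Real.log y := Real.log_le_log (by linarith) hy1
  have h1 : Real.log y ≤ Real.log 2 + Real.log x := by
    rw [← Real.log_mul (by norm_num) (by linarith)]
    exact Real.log_le_log (by linarith) hy2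
  set a := Real.sqrt (Real.log x) with ha
  set b := Real.sqrt (Real.log y) with hb
  have ha0 : 0 < a := Real.sqrt_pos.2 hlx
  have hab : a ≤ b := Real.sqrt_le_sqrt hxy
  have ha2 : a * a = Real.log x := Real.mul_self_sqrt hlx.le
  have hb2 : b * b = Real.log y := Real.mul_self_sqrt (by linarith)
  have h2 : b ≤ a + Real.log 2 * a⁻¹ := by
    have h3 : (b - a) * a ≤ Real.log 2 := by nlinarith
    have h4 : b - a ≤ Real.log 2 / a := by rwa [le_div_iff₀ ha0]
    rw [div_eq_mul_inv] at h4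
    linarith
  have h3 : es y ≤ es x * (1 + ε) := by
    unfold es
    rw [← ha, ← hb]
    calc Real.exp b ≤ Real.exp (a + Real.log 2 * a⁻¹) := Real.exp_le_exp.2 h2
      _ = Real.exp a * Real.exp (Real.log 2 * a⁻¹) := Real.exp_add _ _
      _ ≤ Real.exp a * (1 + ε) := mul_le_mul_of_nonneg_left hx.le (Real.exp_pos _).le
  have h4 : es x ≤ es y := Real.exp_le_exp.2 hab
  have h5 : 0 < es x := Real.exp_pos _
  rw [abs_le]
  constructor <;> nlinarith

/-- a system with a threshold and its consequences -/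
theorem exists_powers {Z : Multiset ℂ} (hZ : ∀ ρ ∈ Z, ρ.re < 1) (hZc : Z.map conj = Z)
    {f : ℝ → ℝ} (s : Sc f)
    (hreg : ∀ M ε : ℝ, 0 < ε → ∀ᶠ x in atTop, ∀ y, x ≤ y → y ≤ x + M * f x →
      |f y - f x| ≤ ε * f x) (hpow : ∀ t : ℝ, 0 < t → ∀ᶠ x in atTop, f x ≤ x ^ t) :
    ∃ p : ℕ → ℝ, Sys Z p ∧ AAL p ∧ Prof p f ∧ ∀ t : ℝ, 0 < t → t < 1 →
      Tendsto (fun x => cnt p x (x ^ t) / (x ^ t / Real.log x)) atTop (𝓝 1) := by
  obtain ⟨p, h1, h2, h3⟩ := exists_profile hZ hZc s hreg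
  refine ⟨p, h1, h2, h3, fun t ht0 ht1 => ?_⟩
  have hf := pos_of_large s.large
  refine Prof.one (h := fun x => x ^ t) h3 hf ?_ (T_tendsto ht0) ?_
  · filter_upwards [eventually_ge_atTop 1] with x hx
    exact pow_le_id ht1.le hx
  · refine squeeze_zero' ?_ ?_ (pow_over_pow (half_lt_self ht0))
    · filter_upwards [hf, eventually_ge_atTop 0] with x a1 a2
      exact div_nonneg a1.le (Real.rpow_nonneg a2 _)
    · filter_upwards [hpow (t / 2) (by linarith), eventually_gt_atTop 0] with x a1 a2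
      exact div_le_div_of_nonneg_right a1 (Real.rpow_nonneg a2.le _)

end Pool.Agent.H204.AS
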