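import Pool.Agent.H204.AS.Conc

open MeasureTheory Set Filter Topology
open scoped ENNReal NNReal ComplexConjugate

namespace Pool.Agent.H204.AS

open Pool.Agent.H521 Pool.Agent.H521.G Pool.Agent.H204.SI

/-- Densities `1` at a scale of smaller order than `x ^ e` give the uniform law from `x ^ e` on. -/
theorem unif_of_scale {p : ℕ → ℝ} (hpt : Tendsto p atTop atTop) {h : ℝ → ℝ} (s : Sc h) {e : ℝ}
    (he1 : e ≤ 1) (hh : Tendsto (fun x => h x / x ^ e) atTop (𝓝 0))
    (hL : liminf (gR p h) atTop = 1) (hU : limsup (gR p h) atTop = 1) : Unif p e := by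
  intro δ hδ
  classical
  set bad : ℝ → ℝ → Prop := fun x H => x ^ e ≤ H ∧ H ≤ x ∧
    ¬ |cnt p x H * Real.log x / H - 1| ≤ δ with hbad
  set k : ℝ → ℝ := fun x => if hx : ∃ H, bad x H then hx.choose else x ^ e with hk
  have hk1 : ∀ x, 1 < x → x ^ e ≤ k x ∧ k x ≤ x := by
    intro x hx
    by_cases hex : ∃ H, bad x H
    · have : k x = hex.choose := by rw [hk]; simp only [hex, dite_true]
      rw [this]
      exact ⟨hex.choose_spec.1, hex.choose_spec.2.1⟩
    · have : k x = x ^ e := by rw [hk]; simp only [hex, dite_false]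
      rw [this]
      exact ⟨le_rfl, pow_le_id he1 hx.le⟩
  have hk0 : ∀ᶠ x in atTop, 0 < k x ∧ k x ≤ x := by
    filter_upwards [eventually_gt_atTop 1] with x hx
    exact ⟨lt_of_lt_of_le (Real.rpow_pos_of_pos (by linarith) _) (hk1 x hx).1, (hk1 x hx).2⟩
  have hhk : Tendsto (fun x => h x / k x) atTop (𝓝 0) := by
    refine squeeze_zero' ?_ ?_ hh
    · filter_upwards [s.ge_one, hk0] with x h1 h2
      exact div_nonneg (by linarith) h2.1.le
    · filter_upwards [s.ge_one, eventually_gt_atTop 1] with x h1 h2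
      exact div_le_div_of_nonneg_left (by linarith) (Real.rpow_pos_of_pos (by linarith) _)
        (hk1 x h2).1
  set d : ℝ := min δ 1 / 2 with hd
  have hm : 0 < min δ 1 := lt_min hδ one_pos
  have hd0 : 0 < d := by rw [hd]; linarith
  have hd1 : d ≤ 1 / 2 := by rw [hd]; linarith [min_le_right δ 1]
  have hdδ : 2 * d ≤ δ := by rw [hd]; linarith [min_le_left δ 1]
  set r : ℝ≥0 := ⟨1 - d, by linarith⟩ with hr
  set r' : ℝ≥0 := ⟨1 + d, by linarith⟩ with hr'
  have hrL : (r : ℝ≥0∞) < liminf (gR p h) atTop := by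
    rw [hL]
    have : r < 1 := by
      rw [← NNReal.coe_lt_coe]
      change 1 - d < 1
      linarith
    exact_mod_cast this
  have hrU : limsup (gR p h) atTop < (r' : ℝ≥0∞) := by
    rw [hU]
    have : 1 < r' := by
      rw [← NNReal.coe_lt_coe]
      change (1 : ℝ) < 1 + d
      linarith
    exact_mod_cast this
  have h1 := glow_all hpt s hk0 hhk (NNReal.coe_nonneg r) (gev_low s hrL) hd0
  have h2 := gup_all hpt s hk0 hhk (NNReal.coe_nonneg r') (gev_up s hrU) hd0
  filter_upwards [h1, h2, eventually_gt_atTop 1] with x hx1 hx2 hx3 H hH1 hH2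
  by_contra hcon
  have hex : ∃ H, bad x H := ⟨H, hH1, hH2, hcon⟩
  have hkx : k x = hex.choose := by rw [hk]; simp only [hex, dite_true]
  have hb := hex.choose_spec.2.2
  rw [← hkx] at hb
  apply hb
  have hl := Real.log_pos hx3
  have hkp : 0 < k x := lt_of_lt_of_le (Real.rpow_pos_of_pos (by linarith) _) (hk1 x hx3).1
  have hT : 0 < k x / Real.log x := by positivity
  have e1 : cnt p x (k x) * Real.log x / k x - 1 =
      (cnt p x (k x) - k x / Real.log x) / (k x / Real.log x) := by
    field_simp
  rw [e1, abs_div, abs_of_pos hT, div_le_iff₀ hT, abs_le]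
  have a1 : (1 - d - d) * (k x / Real.log x) ≤ cnt p x (k x) := hx1
  have a2 : cnt p x (k x) ≤ (1 + d + d) * (k x / Real.log x) := hx2
  constructor <;> nlinarith

theorem unif_mono {p : ℕ → ℝ} {e e' : ℝ} (h : e ≤ e') (hu : Unif p e) : Unif p e' := by
  intro δ hδ
  filter_upwards [hu δ hδ, eventually_ge_atTop 1] with x hx hx1 H h1 h2
  exact hx H ((Real.rpow_le_rpow_of_exponent_le hx1 h).trans h1) h2

/-- the scale `x ^ e / log x` -/
theorem sc_pow_div {e : ℝ} (he : 0 < e) (he2 : e ≤ 1 / 2) : Sc (fun x => x ^ e / Real.log x) := by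
  refine ⟨?_, ?_, 2, ?_⟩
  · have h1 := log_rpow_over_rpow 2 e he
    have h2 : Tendsto (fun x : ℝ => (Real.log x ^ (2 : ℝ) / x ^ e)⁻¹) atTop atTop := by
      apply tendsto_inv_nhdsGT_zero.comp
      rw [tendsto_nhdsWithin_iff]
      refine ⟨h1, ?_⟩
      filter_upwards [eventually_gt_atTop 1] with x hx
      have := Real.log_pos hx
      exact mem_Ioi.2 (by positivity)
    refine h2.congr' ?_
    filter_upwards with x
    rw [inv_div, Real.rpow_two, div_div, sq]
  · intro ε hε
    filter_upwards [Real.tendsto_log_atTop.eventually_ge_atTop 1, eventually_ge_atTop 1]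
      with x hx hx1
    calc x ^ e / Real.log x ≤ x ^ e := div_le_self (Real.rpow_nonneg (by linarith) _) hx
      _ ≤ _ := Real.rpow_le_rpow_of_exponent_le hx1 (by linarith)
  · filter_upwards [eventually_ge_atTop 2] with x hx y hy1 hy2
    have hlx : 0 < Real.log x := Real.log_pos (by linarith)
    have hxy : Real.log x ≤ Real.log y := Real.log_le_log (by linarith) hy1
    have hly : 0 < Real.log y := by linarith
    have hy : Real.log y ≤ 2 * Real.log x := by
      have h1 : Real.log y ≤ Real.log (2 * x) := Real.log_le_log (by linarith) hy2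
      rw [Real.log_mul (by norm_num) (by linarith)] at h1
      have h2 : Real.log 2 ≤ Real.log x := Real.log_le_log (by norm_num) hx
      linarith
    have h2e : (2 : ℝ) ^ e ≤ 2 := by
      calc (2 : ℝ) ^ e ≤ 2 ^ (1 : ℝ) := Real.rpow_le_rpow_of_exponent_le (by norm_num) (by linarith)
        _ = 2 := Real.rpow_one 2
    have hxe : 0 < x ^ e := Real.rpow_pos_of_pos (by linarith) _
    have hye : 0 < y ^ e := Real.rpow_pos_of_pos (by linarith) _
    constructor
    · have h1 : y ^ e ≤ 2 * x ^ e := by
        calc y ^ e ≤ (2 * x) ^ e := Real.rpow_le_rpow (by linarith) hy2 he.le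
          _ = 2 ^ e * x ^ e := Real.mul_rpow (by norm_num) (by linarith)
          _ ≤ 2 * x ^ e := mul_le_mul_of_nonneg_right h2e hxe.le
      calc y ^ e / Real.log y ≤ (2 * x ^ e) / Real.log x :=
            div_le_div₀ (by positivity) h1 hlx hxy
        _ = _ := by ring
    · have h1 : x ^ e ≤ y ^ e := Real.rpow_le_rpow (by linarith) hy1 he.le
      rw [mul_div_assoc', div_le_div_iff₀ hlx hly]
      nlinarith

theorem log2_sc : Sc (fun x => Real.log x ^ (2 : ℝ)) := sc_log (by norm_num)

/-- The law exactly above `e`. -/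
theorem exists_Ioo {Z : Multiset ℂ} (hZ : ∀ ρ ∈ Z, ρ.re < 1) (hZc : Z.map conj = Z) {e : ℝ}
    (he : 0 ≤ e) (he2 : e ≤ 1 / 2) : ∃ p : ℕ → ℝ, Sys Z p ∧ AAL p ∧
      (∀ t, 0 < t → t ≤ e → liminf (pR p t) atTop = 0 ∧ limsup (pR p t) atTop = ∞) ∧
      ∀ t, e < t → t < 1 → liminf (pR p t) atTop = 1 ∧ limsup (pR p t) atTop = 1 := by
  have F : Fam {t : ℝ | 0 < t ∧ t ≤ 1 / 2} (fun t x => x ^ t) (fun x => Real.log x ^ (2 : ℝ)) :=
    { sc := fun t ht => sc_pow ht.1 ht.2
      ord := fun s _ t _ hst => pow_over_pow hst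
      fsc := log2_sc
      freg := reg_log (by norm_num)
      fcmp := fun t ht => Or.inr (log_rpow_over_rpow _ _ ht.1) }
  obtain ⟨p, hS, hA, -, hd⟩ := fam_suff hZ hZc F ⟨1 / 2, by norm_num, le_rfl⟩ (c := 0)
    (L := fun t => if t ≤ e then 0 else 1) (U := fun t => if t ≤ e then ∞ else 1)
    (fun a _ b _ hab => by
      dsimp only
      split_ifs with h1 h2
      · exact le_rfl
      · exact zero_le_one
      · linarith
      · exact le_rfl)
    (fun a _ b _ hab => by
      dsimp only
      split_ifs with h1 h2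
      · exact le_rfl
      · linarith
      · exact le_top
      · exact le_rfl)
    (fun a _ => by split_ifs <;> simp)
    (fun a _ => by split_ifs <;> simp)
    (fun h => absurd h (lt_irrefl 0))
  refine ⟨p, hS, hA, fun t h0 h1 => ?_, fun t h0 h1 => ?_⟩
  · have := hd t ⟨h0, by linarith⟩
    simp only [if_pos h1] at this
    exact this
  · rcases le_or_gt t (1 / 2) with hc | hc
    · have := hd t ⟨by linarith, hc⟩
      simp only [if_neg (not_le.2 h0)] at this
      exact this
    · exact one_of_bounds fun ε hε => ratio_one hZ hS.pnt hc h1.le hε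

/-- The law exactly from `e` on. -/
theorem exists_Ico {Z : Multiset ℂ} (hZ : ∀ ρ ∈ Z, ρ.re < 1) (hZc : Z.map conj = Z) {e : ℝ}
    (he : 0 < e) (he2 : e ≤ 1 / 2) : ∃ p : ℕ → ℝ, Sys Z p ∧ AAL p ∧
      (∀ t, 0 < t → t < e → liminf (pR p t) atTop = 0 ∧ limsup (pR p t) atTop = ∞) ∧
      Unif p e := by
  set h : ℝ → ℝ → ℝ := fun t x => if t < e then x ^ t else x ^ e / Real.log x with hh
  have h1 : ∀ t, t < e → h t = fun x => x ^ t := fun t ht => by
    funext x; simp only [hh, if_pos ht]
  have h2 : h e = fun x => x ^ e / Real.log x := by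
    funext x; simp only [hh, lt_irrefl, if_false]
  have F : Fam {t : ℝ | 0 < t ∧ t ≤ e} h (fun x => Real.log x ^ (2 : ℝ)) :=
    { sc := by
        rintro t ⟨ht0, ht1⟩
        rcases eq_or_lt_of_le ht1 with rfl | hlt
        · rw [h2]; exact sc_pow_div he he2
        · rw [h1 t hlt]; exact sc_pow ht0 (by linarith)
      ord := by
        rintro s ⟨hs0, hs1⟩ t ⟨ht0, ht1⟩ hst
        have hse : s < e := by linarith
        rcases eq_or_lt_of_le ht1 with rfl | hlt
        · simp only [h1 s hse, h2]
          refine (log_rpow_over_rpow 1 (t - s) (by linarith)).congr' ?_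
          filter_upwards [eventually_gt_atTop 1] with x hx
          have hx0 : 0 < x := by linarith
          have hl := Real.log_pos hx
          rw [Real.rpow_one, Real.rpow_sub hx0]
          have a1 := Real.rpow_pos_of_pos hx0 s
          have a2 := Real.rpow_pos_of_pos hx0 t
          field_simp
        · simp only [h1 s hse, h1 t hlt]
          exact pow_over_pow hst
      fsc := log2_sc
      freg := reg_log (by norm_num)
      fcmp := by
        rintro t ⟨ht0, ht1⟩
        right
        rcases eq_or_lt_of_le ht1 with rfl | hlt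
        · simp only [h2]
          refine (log_rpow_over_rpow 3 t he).congr' ?_
          filter_upwards [eventually_gt_atTop 1] with x hx
          have hx0 : 0 < x := by linarith
          have hl := Real.log_pos hx
          have a2 := Real.rpow_pos_of_pos hx0 t
          have e3 : Real.log x ^ (3 : ℝ) = Real.log x ^ (2 : ℝ) * Real.log x := by
            rw [show (3 : ℝ) = 2 + 1 by norm_num, Real.rpow_add hl, Real.rpow_one]
          rw [e3]
          field_simp
        · simp only [h1 t hlt]
          exact log_rpow_over_rpow _ _ ht0 }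
  obtain ⟨p, hS, hA, -, hd⟩ := fam_suff hZ hZc F ⟨e, he, le_rfl⟩ (c := 0)
    (L := fun t => if t < e then 0 else 1) (U := fun t => if t < e then ∞ else 1)
    (fun a _ b _ hab => by
      dsimp only
      split_ifs with h1 h2
      · exact le_rfl
      · exact zero_le_one
      · linarith
      · exact le_rfl)
    (fun a _ b _ hab => by
      dsimp only
      split_ifs with h1 h2
      · exact le_rfl
      · linarith
      · exact le_top
      · exact le_rfl)
    (fun a _ => by split_ifs <;> simp)
    (fun a _ => by split_ifs <;> simp)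
    (fun h => absurd h (lt_irrefl 0))
  refine ⟨p, hS, hA, fun t h0 h1' => ?_, ?_⟩
  · have := hd t ⟨h0, h1'.le⟩
    simp only [if_pos h1', h1 t h1'] at this
    exact this
  · have := hd e ⟨he, le_rfl⟩
    simp only [lt_irrefl, if_false, h2] at this
    refine unif_of_scale hS.tendsto (sc_pow_div he he2) (by linarith) ?_ this.1 this.2
    have h3 : Tendsto (fun x : ℝ => (Real.log x)⁻¹) atTop (𝓝 0) :=
      tendsto_inv_atTop_zero.comp Real.tendsto_log_atTop
    refine h3.congr' ?_
    filter_upwards [eventually_gt_atTop 1] with x hx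
    have hx0 : 0 < x := by linarith
    have hl := Real.log_pos hx
    have a2 := Real.rpow_pos_of_pos hx0 e
    field_simp

end Pool.Agent.H204.AS
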